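import Pool.Agent.T6.H73.SFT.Pict

/-!
Baire measurable maps: squares around isolated clusters.
-/

set_option linter.unusedSimpArgs false

namespace MP6540

open St Filter Topology MeasureTheory
open Pool.Agent.T6.H73.SFT

variable {d : ℕ}

/-! ### The free part is dense -/

lemma exists_finset_of_open {V : Set (Zd d → Bool)} (hV : IsOpen V) {x : Zd d → Bool} (hx : x ∈ V) :
    ∃ I : Finset (Zd d), ∀ y : Zd d → Bool, (∀ g ∈ I, y g = x g) → y ∈ V := by
  obtain ⟨I, u, h1, h2⟩ := isOpen_pi_iff.1 hV x hx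
  refine ⟨I, fun y hy => h2 ?_⟩
  intro g hg
  rw [hy g hg]
  exact (h1 g hg).2

lemma shift_cont {A : Type} [TopologicalSpace A] (g : Zd d) :
    Continuous (shift g : (Zd d → A) → Zd d → A) := by
  apply continuous_pi
  intro h
  exact continuous_apply (h + g)

lemma dense_free (hd : 2 ≤ d) : Dense (freePart d) := by
  haveI : Nonempty (Fin d) := ⟨⟨0, by omega⟩⟩
  have : freePart d = ⋂ g : Zd d, {x | g ≠ 0 → shift g x ≠ x} := by
    ext x; simp [freePart]
  rw [this]
  apply dense_iInter_of_isOpen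
  · intro g
    by_cases hg : g = 0
    · simp [hg]
    · simp only [ne_eq, hg, not_false_eq_true, true_implies]
      exact isOpen_ne_fun (shift_cont g) continuous_id
  · intro g
    rw [dense_iff_inter_open]
    rintro V hV ⟨x, hx⟩
    obtain ⟨I, hI⟩ := exists_finset_of_open hV hx
    by_cases hg : g = 0
    · exact ⟨x, hx, fun h => absurd hg h⟩
    · obtain ⟨h, hh⟩ := Infinite.exists_notMem_finset I
      refine ⟨Function.update x h (!x (h + g)), hI _ ?_, ?_⟩
      · intro k hk
        rw [Function.update_of_ne]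
        rintro rfl
        exact hh hk
      · intro _ he
        have := congrFun he h
        simp only [shift] at this
        rw [Function.update_self, Function.update_of_ne (by simpa using hg)] at this
        revert this
        cases x (h + g) <;> simp

/-! ### Clusters -/

def nn (k : ℕ) : ℤ := 100 ^ k

lemma nn_pos (k : ℕ) : 1 ≤ nn k := by
  unfold nn
  exact_mod_cast Nat.one_le_pow _ _ (by norm_num)

lemma nn_lt {k l : ℕ} (h : k < l) : 100 * nn k ≤ nn l := by
  unfold nn
  calc (100 : ℤ) * 100 ^ k = 100 ^ (k+1) := by ring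
    _ ≤ 100 ^ l := by
      apply pow_le_pow_right₀ (by norm_num) h

def Lb (k : ℕ) : ℤ := 8 * nn k

/-- cluster condition on all configurations -/
def Df (d : ℕ) (k : ℕ) : Set (Zd d → Bool) :=
  {x | x (em (6 * nn k) (2 * nn k)) = true ∧ ∀ a b : ℤ, -(10 * nn k) ≤ a → a ≤ 10 * nn k →
    -(10 * nn k) ≤ b → b ≤ 10 * nn k → x (em (6 * nn k + a) (2 * nn k + b)) = true →
    0 ≤ a ∧ a ≤ nn k ∧ 0 ≤ b ∧ b ≤ nn k}

def Db (d : ℕ) (k : ℕ) : Set (freePart d) := {x | x.1 ∈ Df d k}

lemma Df_open (k : ℕ) : IsOpen (Df d k) := by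
  have : Df d k = {x | x (em (6 * nn k) (2 * nn k)) = true} ∩
      ⋂ p ∈ ((Finset.Icc (-(10 * nn k)) (10 * nn k)) ×ˢ (Finset.Icc (-(10 * nn k)) (10 * nn k)) :
        Finset (ℤ × ℤ)), {x | x (em (6 * nn k + p.1) (2 * nn k + p.2)) = true →
        0 ≤ p.1 ∧ p.1 ≤ nn k ∧ 0 ≤ p.2 ∧ p.2 ≤ nn k} := by
    ext x
    simp only [Df, Set.mem_setOf_eq, Set.mem_inter_iff, Set.mem_iInter, Finset.mem_product,
      Finset.mem_Icc, Prod.forall]
    constructor
    · rintro ⟨h1, h2⟩
      exact ⟨h1, fun a b h => h2 a b h.1.1 h.1.2 h.2.1 h.2.2⟩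
    · rintro ⟨h1, h2⟩
      exact ⟨h1, fun a b h3 h4 h5 h6 => h2 a b ⟨⟨h3, h4⟩, h5, h6⟩⟩
  rw [this]
  have hev : ∀ (g : Zd d) (P : Bool → Prop), IsOpen {x : Zd d → Bool | P (x g)} := by
    intro g P
    exact (isOpen_discrete {b : Bool | P b}).preimage (continuous_apply g)
  refine (hev _ (fun b => b = true)).inter (isOpen_biInter_finset fun p _ =>
    hev _ (fun b => b = true → 0 ≤ p.1 ∧ p.1 ≤ nn k ∧ 0 ≤ p.2 ∧ p.2 ≤ nn k))

lemma mv_apply (a b p q : ℤ) (x : freePart d) : (mv a b x).1 (em p q) = x.1 (em (p+a) (q+b)) := by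
  show shift (em a b) x.1 (em p q) = _
  simp only [shift]
  rw [em_add]

lemma sys_baire : Sys true Lb (Db d) where
  L1 := fun k => by have := nn_pos k; unfold Lb; omega
  C1 := by
    intro k x a b hx hy ha hb
    have hn := nn_pos k
    unfold Lb at ha hb
    rw [abs_le] at ha hb
    obtain ⟨h1, h2⟩ := hx
    obtain ⟨g1, g2⟩ := hy
    rw [mv_apply] at g1
    have h3 := h2 a b (by omega) (by omega) (by omega) (by omega) g1
    have g3 := g2 (-a) (-b) (by omega) (by omega) (by omega) (by omega) (by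
      rw [mv_apply, show 6 * nn k + -a + a = 6 * nn k by ring,
        show 2 * nn k + -b + b = 2 * nn k by ring]
      exact h1)
    omega
  C2 := by
    intro k l hkl x hx i j i' j' a1 a2 a3 a4 b1 b2 b3 b4 hy
    have hn := nn_pos k
    have hn' := nn_lt hkl
    unfold Lb at *
    obtain ⟨h1, h2⟩ := hx
    obtain ⟨g1, g2⟩ := hy
    have g3 := g2 (6 * nn k - i + i' - 6 * nn l) (2 * nn k - j + j' - 2 * nn l)
      (by omega) (by omega) (by omega) (by omega) (by
        rw [mv_apply]
        rw [show 6 * nn l + (6 * nn k - i + i' - 6 * nn l) + (i - i') = 6 * nn k by ring,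
          show 2 * nn l + (2 * nn k - j + j' - 2 * nn l) + (j - j') = 2 * nn k by ring]
        exact h1)
    refine ⟨by omega, by omega, by omega, by omega, by omega, fun _ => by omega⟩

lemma Db_meas (k : ℕ) : MeasurableSet (Db d k) :=
  (Df_open k).measurableSet.preimage measurable_subtype_coe

lemma fsh_cont (g : Zd d) : Continuous (fsh g : freePart d → freePart d) := by
  unfold fsh
  exact Continuous.subtype_mk ((shift_cont g).comp continuous_subtype_val) _

noncomputable def fshH (g : Zd d) : freePart d ≃ₜ freePart d where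
  toFun := fsh g
  invFun := fsh (-g)
  left_inv := fun x => by rw [fsh_fsh, neg_add_cancel, fsh_zero]
  right_inv := fun x => by rw [fsh_fsh, add_neg_cancel, fsh_zero]
  continuous_toFun := fsh_cont g
  continuous_invFun := fsh_cont (-g)

lemma exists_nn (N : ℤ) : ∃ k, N ≤ nn k := by
  refine ⟨N.toNat, ?_⟩
  unfold nn
  have h : N.toNat < 100 ^ N.toNat := Nat.lt_pow_self (by norm_num)
  have h2 : ((N.toNat : ℕ) : ℤ) < ((100 ^ N.toNat : ℕ) : ℤ) := by exact_mod_cast h
  push_cast at h2
  omega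

lemma cover_open : IsOpen {x : freePart d | ∃ k i j, Cov Lb (Db d) x k i j} := by
  have : {x : freePart d | ∃ k i j, Cov Lb (Db d) x k i j} =
      ⋃ k : ℕ, ⋃ i : ℤ, ⋃ j : ℤ, ({_x | 0 ≤ i ∧ i ≤ Lb k ∧ 0 ≤ j ∧ j ≤ Lb k} ∩
        fsh (em (-i) (-j)) ⁻¹' (Db d k)) := by
    ext x; simp [Cov, mv, and_assoc]
  rw [this]
  refine isOpen_iUnion fun k => isOpen_iUnion fun i => isOpen_iUnion fun j => ?_
  refine (isOpen_const).inter ?_
  exact ((Df_open k).preimage continuous_subtype_val).preimage (fsh_cont _)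

lemma em_inj (hd : 2 ≤ d) {a b a' b' : ℤ} (h : (em a b : Zd d) = em a' b') : a = a' ∧ b = b' := by
  have h1 := congrFun h ⟨0, by omega⟩
  have h2 := congrFun h ⟨1, by omega⟩
  simp [em] at h1 h2
  exact ⟨h1, h2⟩

lemma cover_dense' (hd : 2 ≤ d) : Dense {x : freePart d | ∃ k i j, Cov Lb (Db d) x k i j} := by
  classical
  rw [dense_iff_inter_open]
  rintro U hU ⟨x, hx⟩
  obtain ⟨V, hV, rfl⟩ := isOpen_induced_iff.1 hU
  obtain ⟨I, hI⟩ := exists_finset_of_open hV hx
  -- bound for the coordinates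
  obtain ⟨N, hN0, hN⟩ : ∃ N : ℤ, 0 ≤ N ∧ ∀ p q : ℤ, (em p q : Zd d) ∈ I → |p| ≤ N ∧ |q| ≤ N := by
    refine ⟨∑ g ∈ I, (|g ⟨0, by omega⟩| + |g ⟨1, by omega⟩|), Finset.sum_nonneg fun _ _ => by positivity, ?_⟩
    intro p q hpq
    have := Finset.single_le_sum (f := fun g : Zd d => |g ⟨0, by omega⟩| + |g ⟨1, by omega⟩|)
      (fun _ _ => by positivity) hpq
    simp only [em] at this
    simp only [if_true, one_ne_zero, if_false] at this
    have h1 := abs_nonneg p
    have h2 := abs_nonneg q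
    constructor <;> linarith
  obtain ⟨k, hk⟩ := exists_nn (3 * N + 3)
  set c : ℤ := -N - 1 with hc
  set z : Zd d → Bool := fun g => if g ∈ I then x.1 g else decide (g = em c c) with hz
  have hzI : ∀ g ∈ I, z g = x.1 g := fun g hg => by simp [hz, hg]
  have hcI : (em c c : Zd d) ∉ I := by
    intro h
    have := hN c c h
    rw [abs_le] at this
    omega
  have hzc : z (em c c) = true := by simp [hz, hcI]
  have hzt : ∀ p q : ℤ, z (em p q) = true → c ≤ p ∧ p ≤ N ∧ c ≤ q ∧ q ≤ N := by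
    intro p q h
    by_cases hpq : (em p q : Zd d) ∈ I
    · have := hN p q hpq
      rw [abs_le, abs_le] at this
      omega
    · simp only [hz, hpq, if_false, decide_eq_true_eq] at h
      have := em_inj hd h
      omega
  -- the open set of configurations in which `0` is covered
  have hO : IsOpen (V ∩ (shift (em (c - 6 * nn k) (c - 2 * nn k))) ⁻¹' (Df d k)) :=
    hV.inter ((Df_open k).preimage (shift_cont _))
  have hzO : z ∈ V ∩ (shift (em (c - 6 * nn k) (c - 2 * nn k))) ⁻¹' (Df d k) := by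
    refine ⟨hI z hzI, ?_, ?_⟩
    · simp only [shift]
      rw [← em_add, show 6 * nn k + (c - 6 * nn k) = c by ring,
        show 2 * nn k + (c - 2 * nn k) = c by ring]
      exact hzc
    · intro a b h1 h2 h3 h4 h5
      simp only [shift] at h5
      rw [← em_add, show 6 * nn k + a + (c - 6 * nn k) = c + a by ring,
        show 2 * nn k + b + (c - 2 * nn k) = c + b by ring] at h5
      have := hzt _ _ h5
      omega
  obtain ⟨y, ⟨hyV, hyD⟩, hyF⟩ := (dense_free hd).inter_open_nonempty _ hO ⟨z, hzO⟩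
  refine ⟨⟨y, hyF⟩, hyV, k, 6 * nn k - c, 2 * nn k - c, ?_⟩
  refine ⟨by omega, by unfold Lb; omega, by omega, by unfold Lb; omega, ?_⟩
  show shift (em (-(6 * nn k - c)) (-(2 * nn k - c))) y ∈ Df d k
  rw [show -(6 * nn k - c) = c - 6 * nn k by ring, show -(2 * nn k - c) = c - 2 * nn k by ring]
  exact hyD

lemma ev_baire (hd : 2 ≤ d) : ∀ᶠ x in residual (freePart d), ∀ g : Zd d, ∃ k i j,
    Cov Lb (Db d) (fsh g x) k i j := by
  rw [eventually_countable_forall]
  intro g
  have h1 : {x : freePart d | ∃ k i j, Cov Lb (Db d) x k i j} ∈ residual (freePart d) :=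
    residual_of_dense_open cover_open (cover_dense' hd)
  exact tendsto_residual_of_isOpenMap (fshH g).continuous (fshH g).isOpenMap h1

theorem baire_S1 (hd : 2 ≤ d) : HasBaire (S1 d) := by
  obtain ⟨T, h1, h2, h3, T₀, h4, h5⟩ := exists_map hd (sys_baire (d := d)) Db_meas (ev_baire hd)
  exact baire_of_map h1 (h3 rfl) h4 h5

theorem baire_S2 (hd : 2 ≤ d) : HasBaire (S2 d) := by
  obtain ⟨T, h1, h2, h3, T₀, h4, h5⟩ := exists_map hd (sys_baire (d := d)) Db_meas (ev_baire hd)
  refine baire_of_map (T := fun x g => (T x g).1) (T₀ := fun x g => (T₀ x g).1) ?_ h2 ?_ ?_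
  · intro g x y hy
    funext h
    simp only [shift]
    rw [h1 g x y hy]
    rfl
  · intro g a
    have : {x | (T₀ x g).1 = a} = ⋃ b : St × Bool, ({x | T₀ x g = b} ∩ {_x | b.1 = a}) := by
      ext x; simp
    rw [this]
    exact MeasurableSet.iUnion fun b => (h4 g b).inter (MeasurableSet.const _)
  · filter_upwards [h5] with x hx
    rw [hx]

end MP6540
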