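import Mathlib

/-!
# Subshifts of finite type of `ℤ^d` and equivariant maps from the free part of `2^{ℤ^d}`

The definitions used in the statement for MP_6540cb_lc.
-/

set_option autoImplicit false

open MeasureTheory

namespace Pool.Agent.T6.H73.SFT

/-- The group `ℤ^d`. -/
abbrev Zd (d : ℕ) : Type := Fin d → ℤ

/-- The shift action of `ℤ^d` on configurations: `(g · x)(h) = x(h + g)`. -/
def shift {d : ℕ} {A : Type} (g : Zd d) (x : Zd d → A) : Zd d → A := fun h => x (h + g)

/-- The free part `F(2^{ℤ^d})`: all `x` with `g · x ≠ x` for all `g ≠ 0`. As a type it carries the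
subspace topology and the subspace σ-algebra (the Borel sets) of `2^{ℤ^d}`. -/
def freePart (d : ℕ) : Set (Zd d → Bool) := {x | ∀ g : Zd d, g ≠ 0 → shift g x ≠ x}

/-- `T(g · x) = g · T(x)` for all `g` and all `x` in the free part. -/
def Equivariant {d n : ℕ} (T : freePart d → Zd d → Fin n) : Prop :=
  ∀ (g : Zd d) (x y : freePart d), (y : Zd d → Bool) = shift g x → T y = shift g (T x)

/-- `S ⊆ (Fin n)^{ℤ^d}` is a subshift of finite type: there is a finite set `P` of finite patterns
(a pattern is a finite set `W ⊆ ℤ^d` with a map `W → Fin n`) such that `S` is the set of all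
configurations that do not contain a translate of a pattern of `P`. -/
def IsSFT {d n : ℕ} (S : Set (Zd d → Fin n)) : Prop :=
  ∃ P : Set (Σ W : Finset (Zd d), (W → Fin n)), P.Finite ∧
    ∀ x : Zd d → Fin n, x ∈ S ↔ ∀ p ∈ P, ∀ g : Zd d, ¬ ∀ h : p.1, x (h + g) = p.2 h

/-- Condition (i): there is a Borel equivariant map `F(2^{ℤ^d}) → S`. -/
def HasBorel {d n : ℕ} (S : Set (Zd d → Fin n)) : Prop :=
  ∃ T : freePart d → Zd d → Fin n, Equivariant T ∧ (∀ x, T x ∈ S) ∧
    ∀ B : Set (Zd d → Fin n), MeasurableSet B → MeasurableSet (T ⁻¹' B)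

/-- Condition (ii): there is a Baire measurable equivariant map `F(2^{ℤ^d}) → S`. -/
def HasBaire {d n : ℕ} (S : Set (Zd d → Fin n)) : Prop :=
  ∃ T : freePart d → Zd d → Fin n, Equivariant T ∧ (∀ x, T x ∈ S) ∧
    ∀ B : Set (Zd d → Fin n), MeasurableSet B → BaireMeasurableSet (T ⁻¹' B)

/-- Condition (iii): for every Borel probability measure `μ` on `F(2^{ℤ^d})` there is an
equivariant map `F(2^{ℤ^d}) → S` such that preimages of Borel sets are measurable for the
completion of `μ`. -/
def HasMeasure {d n : ℕ} (S : Set (Zd d → Fin n)) : Prop :=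
  ∀ μ : Measure (freePart d), IsProbabilityMeasure μ →
    ∃ T : freePart d → Zd d → Fin n, Equivariant T ∧ (∀ x, T x ∈ S) ∧
      ∀ B : Set (Zd d → Fin n), MeasurableSet B → NullMeasurableSet (T ⁻¹' B) μ

end Pool.Agent.T6.H73.SFT
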