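import Pool.Agent.T6.H73.SFT.NonExist
import Pool.Agent.T6.H73.SFT.SDefs

/-!
Rationally independent rotations of the circle, their ergodicity in measure and category,
and the embedding of the circle into the free part.
-/

set_option linter.unusedSimpArgs false

namespace MP6540

open St Filter Topology MeasureTheory
open Pool.Agent.T6.H73.SFT

noncomputable def bb : ℝ := liouvilleNumber 2

lemma bb_tr : Transcendental ℤ bb := by
  have := transcendental_liouvilleNumber (m := 2) le_rfl
  simpa [bb] using this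

variable {d : ℕ}

noncomputable def rotR (g : Zd d) : ℝ := ∑ i, (g i : ℝ) * bb ^ ((i : ℕ) + 1)

noncomputable def rot (g : Zd d) : UnitAddCircle := ((rotR g : ℝ) : UnitAddCircle)

lemma rot_add (g h : Zd d) : rot (g + h) = rot g + rot h := by
  unfold rot
  rw [← AddCircle.coe_add]
  congr 1
  unfold rotR
  rw [← Finset.sum_add_distrib]
  apply Finset.sum_congr rfl
  intro i _
  simp [add_mul]

lemma rot_zero : rot (0 : Zd d) = 0 := by
  simp [rot, rotR]

lemma rot_nsmul (n : ℕ) (g : Zd d) : rot (n • g) = n • rot g := by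
  induction n with
  | zero => simp [rot_zero]
  | succ n ih => rw [succ_nsmul, succ_nsmul, rot_add, ih]

lemma rot_neg (g : Zd d) : rot (-g) = - rot g := by
  rw [eq_neg_iff_add_eq_zero, ← rot_add, neg_add_cancel, rot_zero]

lemma rot_zsmul (n : ℤ) (g : Zd d) : rot (n • g) = n • rot g := by
  cases n with
  | ofNat n => rw [Int.ofNat_eq_natCast, natCast_zsmul, natCast_zsmul, rot_nsmul]
  | negSucc n => rw [negSucc_zsmul, negSucc_zsmul, rot_neg, rot_nsmul]

lemma rot_eq_zero {g : Zd d} (h : rot g = 0) : g = 0 := by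
  rw [rot, AddCircle.coe_eq_zero_iff] at h
  obtain ⟨n, hn⟩ := h
  simp only [zsmul_eq_mul, mul_one] at hn
  set P : Polynomial ℤ := (∑ i : Fin d, Polynomial.monomial ((i : ℕ) + 1) (g i)) - Polynomial.C n
    with hP
  have h0 : Polynomial.aeval bb P = 0 := by
    simp only [hP, map_sub, map_sum, Polynomial.aeval_monomial, Polynomial.aeval_C]
    rw [sub_eq_zero]
    simp only [rotR] at hn
    simp only [algebraMap_int_eq, eq_intCast]
    exact hn.symm
  have hP0 : P = 0 := by
    by_contra hne
    exact bb_tr ⟨P, hne, h0⟩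
  funext i
  have hc : P.coeff ((i : ℕ) + 1) = 0 := by rw [hP0]; simp
  rw [hP, Polynomial.coeff_sub, Polynomial.finsetSum_coeff] at hc
  rw [Polynomial.coeff_C_succ, sub_zero] at hc
  rw [Finset.sum_eq_single i] at hc
  · simpa [Polynomial.coeff_monomial] using hc
  · intro j _ hj
    rw [Polynomial.coeff_monomial, if_neg]
    intro h
    apply hj
    ext
    omega
  · simp

lemma rot_dense {g : Zd d} (hg : g ≠ 0) :
    DenseRange (fun n : ℤ => n • rot g : ℤ → UnitAddCircle) := by
  rw [AddCircle.denseRange_zsmul_iff, addOrderOf_eq_zero_iff']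
  intro n hn h
  rw [← rot_nsmul] at h
  have h2 := rot_eq_zero h
  apply hg
  have : (n : ℕ) • g = 0 := h2
  funext i
  have h3 := congrFun this i
  simp only [Pi.smul_apply, Pi.zero_apply, smul_eq_mul, nsmul_eq_mul, mul_eq_zero] at h3
  rcases h3 with h3 | h3
  · exact absurd h3 (by exact_mod_cast hn.ne')
  · exact h3

/-- embedding of `ℤ²` in `ℤ^d` -/
def em (a b : ℤ) : Zd d := fun i => if (i : ℕ) = 0 then a else if (i : ℕ) = 1 then b else 0

lemma em_add (a b a' b' : ℤ) : (em (a + a') (b + b') : Zd d) = em a b + em a' b' := by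
  funext i
  simp only [em, Pi.add_apply]
  split_ifs <;> simp

lemma em_zero : (em 0 0 : Zd d) = 0 := by
  funext i; simp [em]

lemma em_ne (hd : 2 ≤ d) {a b : ℤ} (h : a ≠ 0 ∨ b ≠ 0) : (em a b : Zd d) ≠ 0 := by
  intro h0
  have h1 := congrFun h0 ⟨0, by omega⟩
  have h2 := congrFun h0 ⟨1, by omega⟩
  simp [em] at h1 h2
  omega

noncomputable def cact (d : ℕ) (a b : ℤ) (θ : UnitAddCircle) : UnitAddCircle :=
  rot (em a b : Zd d) + θ

instance : (residual UnitAddCircle).NeBot := by
  constructor
  intro h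
  have : (∅ : Set UnitAddCircle) ∈ residual UnitAddCircle := by rw [h]; trivial
  have := dense_of_mem_residual this
  rw [dense_iff_closure_eq, closure_empty] at this
  exact Set.empty_ne_univ this

lemma tend_residual (γ : UnitAddCircle) :
    Tendsto (fun θ => γ + θ) (residual UnitAddCircle) (residual UnitAddCircle) :=
  tendsto_residual_of_isOpenMap (Homeomorph.addLeft γ).continuous (Homeomorph.addLeft γ).isOpenMap

lemma inv_zsmul {γ : UnitAddCircle} {A : Set UnitAddCircle} (h : (fun θ => γ + θ) ⁻¹' A = A)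
    (n : ℤ) : (fun θ => n • γ + θ) ⁻¹' A = A := by
  have h1 : ∀ θ, γ + θ ∈ A ↔ θ ∈ A := fun θ => by
    have := Set.ext_iff.1 h θ
    exact this
  have h2 : ∀ n : ℕ, ∀ θ, n • γ + θ ∈ A ↔ θ ∈ A := by
    intro n
    induction n with
    | zero => intro θ; simp
    | succ n ih => intro θ; rw [succ_nsmul', add_assoc, h1, ih]
  ext θ
  show n • γ + θ ∈ A ↔ θ ∈ A
  cases n with
  | ofNat n => simpa using h2 n θ
  | negSucc n =>
    rw [negSucc_zsmul, ← h2 (n+1) (-((n+1) • γ) + θ)]
    rw [← add_assoc, add_neg_cancel, zero_add]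

lemma cover_dense {γ : UnitAddCircle} (hγ : DenseRange (fun n : ℤ => n • γ)) {U : Set UnitAddCircle}
    (hU : IsOpen U) (hne : U.Nonempty) (θ : UnitAddCircle) : ∃ n : ℤ, n • γ + θ ∈ U := by
  obtain ⟨u, hu⟩ := hne
  have hO : IsOpen ((fun y => y + θ) ⁻¹' U) := hU.preimage (continuous_id.add continuous_const)
  have := hγ.exists_mem_open hO ⟨u - θ, by simpa using hu⟩
  obtain ⟨n, hn⟩ := this
  exact ⟨n, hn⟩

lemma erg_residual_aux {γ : UnitAddCircle} (hγ : DenseRange (fun n : ℤ => n • γ))
    {A : Set UnitAddCircle} (hA : MeasurableSet A) (h : (fun θ => γ + θ) ⁻¹' A = A) :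
    A ∈ residual UnitAddCircle ∨ Aᶜ ∈ residual UnitAddCircle := by
  obtain ⟨U, hU, hAU⟩ := hA.residualEq_isOpen
  rcases U.eq_empty_or_nonempty with rfl | hne
  · right
    filter_upwards [hAU.mem_iff] with θ hθ
    simpa using hθ
  · left
    have h1 : ∀ n : ℤ, ∀ᶠ θ in residual UnitAddCircle, (n • γ + θ ∈ A ↔ n • γ + θ ∈ U) := by
      intro n
      exact tend_residual (n • γ) hAU.mem_iff
    have h2 : ∀ᶠ θ in residual UnitAddCircle, ∀ n : ℤ, (n • γ + θ ∈ A ↔ n • γ + θ ∈ U) := by
      rw [eventually_countable_forall]; exact h1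
    filter_upwards [h2] with θ hθ
    obtain ⟨n, hn⟩ := cover_dense hγ hU hne θ
    have h3 := (hθ n).2 hn
    have h4 := Set.ext_iff.1 (inv_zsmul h n) θ
    exact h4.1 h3

lemma erg_residual (hd : 2 ≤ d) : Erg (residual UnitAddCircle) (cact d) where
  tend := fun a b => tend_residual _
  erg := fun a b hab A hA h => erg_residual_aux (rot_dense (em_ne hd hab)) hA h

/-- the completed σ-algebra -/
noncomputable abbrev mN : MeasurableSpace UnitAddCircle :=
  eventuallyMeasurableSpace (inferInstance : MeasurableSpace UnitAddCircle) (ae (volume))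

lemma mN_iff (s : Set UnitAddCircle) : MeasurableSet[mN] s ↔ NullMeasurableSet s volume := Iff.rfl

lemma mp_add (γ : UnitAddCircle) : MeasurePreserving (fun θ => γ + θ)
    (volume : Measure UnitAddCircle) volume := measurePreserving_add_left _ γ

lemma erg_measure (hd : 2 ≤ d) :
    @Erg UnitAddCircle mN (ae (volume : Measure UnitAddCircle)) (cact d) := by
  refine @Erg.mk UnitAddCircle mN _ _ ?_ ?_
  · intro a b
    exact (mp_add (rot (em a b : Zd d))).quasiMeasurePreserving.tendsto_ae
  · intro a b hab A hA h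
    have hA' : NullMeasurableSet A volume := hA
    have hE : Ergodic (rot (em a b : Zd d) + · ) (volume : Measure UnitAddCircle) := by
      rw [AddCircle.ergodic_add_left, ← AddCircle.denseRange_zsmul_iff]
      exact rot_dense (em_ne hd hab)
    have := hE.quasiErgodic.ae_empty_or_univ₀ hA' (by
      have : (rot (em a b : Zd d) + · ) ⁻¹' A = A := h
      rw [this])
    rcases this with h1 | h1
    · right
      filter_upwards [h1.mem_iff] with θ hθ
      simpa using hθ
    · left
      filter_upwards [h1.mem_iff] with θ hθ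
      simpa using hθ

end MP6540
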