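import Pool.Agent.T6.H73.SFT.Circle

/-!
Finite depth in the category setting and in the measure setting.
-/

set_option linter.unusedSimpArgs false

namespace MP6540

open St Filter Topology MeasureTheory
open Pool.Agent.T6.H73.SFT

variable {d : ℕ}

/-! ### Category -/

lemma fd_category (hd : 2 ≤ d) {τ : UnitAddCircle → ℤ → ℤ → St} (hT : Eqv (cact d) τ) :
    ∀ᶠ θ in residual UnitAddCircle, FD (τ θ) 0 0 := by
  have hE := erg_residual hd
  by_cases hr : ∀ r : ℤ, {θ | Obj (τ θ) 0 0 r}ᶜ ∈ residual UnitAddCircle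
  · have h1 : ∀ᶠ θ in residual UnitAddCircle, ∀ i j r : ℤ, ¬ Obj (τ θ) i j r := by
      rw [eventually_countable_forall]; intro i
      rw [eventually_countable_forall]; intro j
      rw [eventually_countable_forall]; intro r
      have := hE.tend i j (hr r)
      filter_upwards [this] with θ hθ
      have h2 : ¬ Obj (τ (cact d i j θ)) 0 0 r := hθ
      rw [obj_shift hT] at h2
      simpa using h2
    filter_upwards [h1] with θ hθ
    unfold FD
    convert Set.finite_empty
    ext ⟨i, j, r⟩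
    simp [hθ]
  · push Not at hr
    obtain ⟨r, hr⟩ := hr
    obtain ⟨U, hU, hOU⟩ := (obj_meas hT 0 0 r).residualEq_isOpen
    have hne : U.Nonempty := by
      rw [Set.nonempty_iff_ne_empty]
      rintro rfl
      apply hr
      filter_upwards [hOU.mem_iff] with θ hθ
      simpa using hθ
    -- compactness
    have hd1 := rot_dense (em_ne (d := d) hd (a := 1) (b := 0) (Or.inl one_ne_zero))
    have hcov : (Set.univ : Set UnitAddCircle) ⊆ ⋃ n : ℤ, (fun θ => n • rot (em 1 0 : Zd d) + θ) ⁻¹' U := by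
      intro θ _
      obtain ⟨n, hn⟩ := cover_dense hd1 hU hne θ
      exact Set.mem_iUnion.2 ⟨n, hn⟩
    obtain ⟨t, ht⟩ := isCompact_univ.elim_finite_subcover _ (fun n : ℤ =>
      hU.preimage (continuous_const.add continuous_id)) hcov
    obtain ⟨M, hM⟩ : ∃ M : ℤ, ∀ n ∈ t, |n| ≤ M := by
      refine ⟨∑ n ∈ t, |n|, fun n hn => ?_⟩
      exact Finset.single_le_sum (f := fun n : ℤ => |n|) (fun i _ => abs_nonneg i) hn
    have hemn : ∀ n : ℤ, rot (em n 0 : Zd d) = n • rot (em 1 0 : Zd d) := by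
      intro n
      rw [← rot_zsmul]
      congr 1
      funext i
      simp only [em, Pi.smul_apply, smul_eq_mul]
      split_ifs <;> simp
    have hgood : ∀ᶠ θ in residual UnitAddCircle, ∀ i j : ℤ,
        (cact d i j θ ∈ U → Obj (τ (cact d i j θ)) 0 0 r) := by
      rw [eventually_countable_forall]; intro i
      rw [eventually_countable_forall]; intro j
      have := hE.tend i j hOU.mem_iff
      filter_upwards [this] with θ hθ h
      exact hθ.2 h
    filter_upwards [hgood] with θ hθ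
    have hbound : ∀ i j R, Obj (τ θ) i j R → R ≤ 2 * M + 2 := by
      intro i j R hO
      by_contra hc
      push Not at hc
      have hm : cact d (i + M + 1) j θ ∈ (Set.univ : Set UnitAddCircle) := trivial
      obtain ⟨n, hn⟩ := Set.mem_iUnion.1 (ht hm)
      obtain ⟨hnt, hn2⟩ := Set.mem_iUnion.1 hn
      have h3 : cact d (n + (i + M + 1)) j θ ∈ U := by
        have : n • rot (em 1 0 : Zd d) + cact d (i + M + 1) j θ ∈ U := hn2
        rw [← hemn] at this
        unfold cact at this ⊢
        rw [← add_assoc, ← rot_add, ← em_add, zero_add] at this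
        exact this
      have h4 := (obj_shift hT _ _ _ _ _ _).1 (hθ _ _ h3)
      have h5 := h4.c00
      have h6 := abs_le.1 (hM n hnt)
      rw [zero_add, zero_add, hO.bo _ (by omega) (by omega)] at h5
      cases h5
    unfold FD
    refine (Set.Finite.subset (Set.finite_Icc ((-(2*M+2), -(2*M+2), 0) : ℤ × ℤ × ℤ)
      (0, 0, 2*M+2))) ?_
    rintro ⟨i, j, R⟩ ⟨h1, h2⟩
    have h3 := hbound i j R h1
    have h4 := h1.pos
    simp only [InSq] at h2
    simp only [Set.mem_Icc, Prod.le_def]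
    simp only at h3 h4
    omega

/-! ### Marked configurations and measure -/

structure Mk (y : ℤ → ℤ → St) (m : ℤ → ℤ → Bool) : Prop where
  w : ∀ i j, m i j = true → ∃ c, y i j = w c
  r : ∀ i j, (y i j = le ∨ m i j = true) → (m (i+1) j = true ∨ y (i+1) j = di)

lemma Dr_di {s : St} (h : Dr s di = true) : s = c00 ∨ s = di := by
  cases s <;> simp_all [Dr]

lemma room_marked {y : ℤ → ℤ → St} {m : ℤ → ℤ → Bool} (hV : Valid y) (hM : Mk y m) {i j r : ℤ}
    (hO : Obj y i j r) : ∀ b : ℕ, (b : ℤ) < r → ∀ a : ℤ, 0 < a → a < b → m (i+a) (j+b) = true := by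
  intro b
  induction b with
  | zero => intro _ a h1 h2; simp at h2; omega
  | succ b ih =>
    intro hb
    have main : ∀ a : ℕ, 0 < a → a < b + 1 → m (i+a) (j+(b+1 : ℕ)) = true := by
      intro a
      induction a with
      | zero => intro h; omega
      | succ a iha =>
        intro _ hab
        have hstep : m (i+(a+1 : ℕ)) (j+(b+1 : ℕ)) = true ∨ y (i+(a+1 : ℕ)) (j+(b+1 : ℕ)) = di := by
          have hle : y (i + a) (j+(b+1 : ℕ)) = le ∨ m (i+a) (j+(b+1 : ℕ)) = true := by
            rcases Nat.eq_zero_or_pos a with rfl | ha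
            · left
              simpa using hO.le (j + (b+1 : ℕ)) (by push_cast; omega) (by omega)
            · right; exact iha ha (by omega)
          have := hM.r _ _ hle
          rwa [show i + (a:ℤ) + 1 = i + ((a+1 : ℕ) : ℤ) by push_cast; ring] at this
        rcases hstep with h | h
        · exact h
        · exfalso
          have hD := hV.D (i + a) (j + b)
          rw [show i + (a:ℤ) + 1 = i + ((a+1 : ℕ) : ℤ) by push_cast; ring,
            show j + (b:ℤ) + 1 = j + ((b+1 : ℕ) : ℤ) by push_cast; ring, h] at hD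
          have h2 := Dr_di hD
          rcases Nat.eq_zero_or_pos a with rfl | ha
          · have h3 := hO.le (j + b) (by omega) (by push_cast at hb; omega)
            simp only [Nat.cast_zero, add_zero] at h2
            rw [h3] at h2
            rcases h2 with h2 | h2 <;> cases h2
          · have h3 := ih (by push_cast at hb; omega) a (by omega) (by omega)
            obtain ⟨c, hc⟩ := hM.w _ _ h3
            rw [hc] at h2
            rcases h2 with h2 | h2 <;> cases h2
    intro a h1 h2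
    have := main a.toNat (by omega) (by push_cast at h2; omega)
    rwa [show ((a.toNat : ℕ) : ℤ) = a by omega] at this

lemma room_unique {y : ℤ → ℤ → St} {m : ℤ → ℤ → Bool} (hV : Valid y) (hM : Mk y m)
    {i j r i' j' r' : ℤ} (hO : Obj y i j r) (hO' : Obj y i' j' r')
    (h : i < 0 ∧ -i < -j ∧ -j < r) (h' : i' < 0 ∧ -i' < -j' ∧ -j' < r') :
    i = i' ∧ j = j' ∧ r = r' := by
  have hne : ∀ {i j r i' j' r' : ℤ}, Obj y i j r → Obj y i' j' r' →
    (i < 0 ∧ -i < -j ∧ -j < r) → (i' < 0 ∧ -i' < -j' ∧ -j' < r') → ¬ i' < i := by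
    intro i j r i' j' r' hO hO' h h' hlt
    have h1 := hO.le 0 (by omega) (by omega)
    have h2 := room_marked hV hM hO' (-j').toNat (by omega) (i - i') (by omega) (by omega)
    rw [show i' + (i - i') = i by omega, show j' + (((-j').toNat : ℕ) : ℤ) = 0 by omega] at h2
    obtain ⟨c, hc⟩ := hM.w _ _ h2
    rw [h1] at hc; cases hc
  have e : i = i' := by
    have h1 := hne hO hO' h h'
    have h2 := hne hO' hO h' h
    omega
  subst e
  exact uniq hO hO' (p := i) (q := 0) ⟨⟨by omega, by omega, by omega, by omega⟩, by omega⟩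
    ⟨⟨by omega, by omega, by omega, by omega⟩, by omega⟩

lemma fd_measure {τ : UnitAddCircle → ℤ → ℤ → St} {m : UnitAddCircle → ℤ → ℤ → Bool}
    (hT : @Eqv UnitAddCircle mN (cact d) τ) (hM : ∀ θ, Mk (τ θ) (m θ)) :
    ∀ᵐ θ ∂(volume : Measure UnitAddCircle), FD (τ θ) 0 0 := by
  have hmeas : ∀ i j r, NullMeasurableSet {θ | Obj (τ θ) i j r} (volume : Measure UnitAddCircle) :=
    fun i j r => @obj_meas UnitAddCircle mN (cact d) τ hT i j r
  have hsh : ∀ a b θ i j r, Obj (τ (cact d a b θ)) i j r ↔ Obj (τ θ) (i + a) (j + b) r :=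
    fun a b θ i j r => @obj_shift UnitAddCircle mN (cact d) τ hT a b θ i j r
  have hmu : ∀ i j r, volume {θ | Obj (τ θ) i j r} = volume {θ | Obj (τ θ) 0 0 r} := by
    intro i j r
    have := (mp_add (rot (em i j : Zd d))).measure_preimage (hmeas 0 0 r)
    rw [← this]
    congr 1
    ext θ
    have h2 := hsh i j θ 0 0 r
    simp only [zero_add] at h2
    exact h2.symm
  -- upper rooms
  set U : ℤ × ℤ × ℤ → Set UnitAddCircle := fun t =>
    {θ | Obj (τ θ) t.1 t.2.1 t.2.2 ∧ (t.1 < 0 ∧ -t.1 < -t.2.1 ∧ -t.2.1 < t.2.2)} with hU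
  set L : ℤ × ℤ × ℤ → Set UnitAddCircle := fun t =>
    {θ | Obj (τ θ) t.1 t.2.1 t.2.2 ∧ (t.2.1 < 0 ∧ -t.2.1 < -t.1 ∧ -t.1 < t.2.2)} with hL
  have hUm : ∀ t, NullMeasurableSet (U t) (volume : Measure UnitAddCircle) := by
    intro t
    exact (hmeas _ _ _).inter (MeasurableSet.const _).nullMeasurableSet
  have hUd : Pairwise (Function.onFun (AEDisjoint (volume : Measure UnitAddCircle)) U) := by
    intro t t' htt
    apply Disjoint.aedisjoint
    rw [Set.disjoint_left]
    rintro θ ⟨h1, h2⟩ ⟨h3, h4⟩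
    apply htt
    obtain ⟨e1, e2, e3⟩ := room_unique (@Eqv.valid UnitAddCircle mN _ _ hT θ) (hM θ) h1 h3 h2 h4
    exact Prod.ext e1 (Prod.ext e2 e3)
  have hsum : ∑' t, volume (U t) ≤ 1 := by
    refine (tsum_meas_le_meas_iUnion_of_disjoint₀ volume hUm hUd).trans ?_
    refine (measure_mono (Set.subset_univ _)).trans ?_
    simp
  let e : ℤ × ℤ × ℤ ≃ ℤ × ℤ × ℤ :=
    ⟨fun t => (t.2.1, t.1, t.2.2), fun t => (t.2.1, t.1, t.2.2), fun t => rfl, fun t => rfl⟩
  have hLU : ∀ t, volume (L t) = volume (U (e t)) := by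
    rintro ⟨i, j, r⟩
    simp only [hL, hU, e, Equiv.coe_fn_mk]
    by_cases hc : j < 0 ∧ -j < -i ∧ -i < r
    · simp only [hc, and_true, true_and, and_self]
      have h1 : {θ | Obj (τ θ) i j r} = {θ | Obj (τ θ) i j r} := rfl
      rw [hmu i j r, hmu j i r]
    · simp only [hc, and_false, Set.setOf_false, measure_empty]
  have hsumL : ∑' t, volume (L t) ≠ ⊤ := by
    have : ∑' t, volume (L t) = ∑' t, volume (U t) := by
      rw [← Equiv.tsum_eq e (fun t => volume (U t))]
      exact tsum_congr hLU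
    rw [this]
    exact ne_top_of_le_ne_top ENNReal.one_ne_top hsum
  filter_upwards [ae_finite_setOf_mem hsumL] with θ hθ
  unfold FD
  have hV := @Eqv.valid UnitAddCircle mN _ _ hT θ
  have s1 : {t | θ ∈ U t}.Subsingleton := by
    rintro t ⟨h1, h2⟩ t' ⟨h3, h4⟩
    obtain ⟨e1, e2, e3⟩ := room_unique hV (hM θ) h1 h3 h2 h4
    exact Prod.ext e1 (Prod.ext e2 e3)
  have s2 : {t : ℤ × ℤ × ℤ | Obj (τ θ) t.1 t.2.1 t.2.2 ∧ Wd t.1 t.2.1 t.2.2 0 0}.Subsingleton := by
    rintro t ⟨h1, h2⟩ t' ⟨h3, h4⟩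
    obtain ⟨e1, e2, e3⟩ := uniq h1 h3 h2 h4
    exact Prod.ext e1 (Prod.ext e2 e3)
  refine ((hθ.union s1.finite).union s2.finite).subset ?_
  rintro ⟨i, j, r⟩ ⟨h1, h2⟩
  simp only at h1 h2
  by_cases hw : Wd i j r 0 0
  · right; exact ⟨h1, hw⟩
  · left
    have h3 : i < 0 ∧ 0 < i + r ∧ j < 0 ∧ 0 < j + r ∧ -i ≠ -j := by
      unfold Wd InSq at hw
      unfold InSq at h2
      omega
    rcases lt_or_gt_of_ne h3.2.2.2.2 with h4 | h4
    · right
      exact ⟨h1, by simp only; omega⟩
    · left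
      exact ⟨h1, by simp only; omega⟩

end MP6540
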