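import Pool.Agent.T6.H73.SFT.Depth

/-!
The two subshifts of finite type, and the nonexistence results.
-/

set_option linter.unusedSimpArgs false

namespace MP6540

open St Filter Topology MeasureTheory
open Pool.Agent.T6.H73.SFT

variable {d : ℕ}

/-! ### Encoding of alphabets -/

noncomputable def enc (A : Type) [Fintype A] : A ≃ Fin (Fintype.card A) := Fintype.equivFin A

/-- raw configurations to configurations over `Fin n` -/
def encS {A : Type} [Fintype A] (S : Set (Zd d → A)) : Set (Zd d → Fin (Fintype.card A)) :=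
  {x | (fun g => (enc A).symm (x g)) ∈ S}

/-- configurations given by a relation on `2 × 2` blocks -/
def blockS (d : ℕ) {A : Type} (R : A → A → A → A → Prop) : Set (Zd d → A) :=
  {x | ∀ g, R (x g) (x (g + em 1 0)) (x (g + em 0 1)) (x (g + em 1 1))}

lemma isSFT_block {A : Type} [Fintype A] (R : A → A → A → A → Prop) :
    IsSFT (encS (blockS d R)) := by
  classical
  set n := Fintype.card A
  set W : Finset (Zd d) := {0, em 1 0, em 0 1, em 1 1} with hW
  let R' : (Zd d → Fin n) → Prop := fun x => R ((enc A).symm (x 0)) ((enc A).symm (x (em 1 0)))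
    ((enc A).symm (x (em 0 1))) ((enc A).symm (x (em 1 1)))
  refine ⟨{p | p.1 = W ∧ ¬ ∃ x : Zd d → Fin n, (∀ h : p.1, x h = p.2 h) ∧ R' x}, ?_, ?_⟩
  · refine (Set.finite_range (fun q : W → Fin n => (⟨W, q⟩ : Σ W : Finset (Zd d), (W → Fin n)))).subset ?_
    rintro ⟨W', q⟩ ⟨h1, h2⟩
    simp only at h1
    subst h1
    exact ⟨q, rfl⟩
  · intro x
    constructor
    · rintro hx ⟨W', q⟩ ⟨h1, h2⟩ g hg
      apply h2
      refine ⟨fun h => x (h + g), hg, ?_⟩
      have := hx g
      simp only [R']
      rw [zero_add, add_comm (em 1 0), add_comm (em 0 1), add_comm (em 1 1)]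
      exact this
    · intro h g
      by_contra hc
      apply h ⟨W, fun h => x (h + g)⟩ ⟨rfl, ?_⟩ g
      · intro _; rfl
      · rintro ⟨x', h1, h2⟩
        apply hc
        simp only [Subtype.forall] at h1
        simp only [R'] at h2
        rw [h1 0 (by simp [hW]), h1 (em 1 0) (by simp [hW]), h1 (em 0 1) (by simp [hW]),
          h1 (em 1 1) (by simp [hW])] at h2
        rw [zero_add, add_comm (em 1 0), add_comm (em 0 1), add_comm (em 1 1)] at h2
        exact h2

/-- block rule for squares -/
def R2 (s a b c : St) : Prop := Hr s a = true ∧ Vr s b = true ∧ Dr s c = true ∧ Ar a b = true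

/-- block rule for squares with marks -/
def R1 (s a b c : St × Bool) : Prop := R2 s.1 a.1 b.1 c.1 ∧ (s.2 = true → ∃ c, s.1 = w c) ∧
  ((s.1 = le ∨ s.2 = true) → (a.2 = true ∨ a.1 = di))

def S2 (d : ℕ) : Set (Zd d → Fin (Fintype.card St)) := encS (blockS d R2)

def S1 (d : ℕ) : Set (Zd d → Fin (Fintype.card (St × Bool))) := encS (blockS d R1)

lemma valid_slice {x : Zd d → St} (hx : x ∈ blockS d R2) : Valid (fun i j => x (em i j)) := by
  have hadd : ∀ a b a' b' : ℤ, (em a b + em a' b' : Zd d) = em (a+a') (b+b') :=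
    fun a b a' b' => (em_add a b a' b').symm
  refine ⟨?_, ?_, ?_, ?_⟩ <;> intro i j <;> have h := hx (em i j) <;>
    simp only [hadd, add_zero] at h
  · exact h.1
  · exact h.2.1
  · exact h.2.2.1
  · exact h.2.2.2

/-! ### Embedding of the circle -/

open Classical in
noncomputable def iota (d : ℕ) (θ : UnitAddCircle) : Zd d → Bool :=
  fun g => decide (rot g + θ ∈ Metric.ball (0 : UnitAddCircle) (1/4))

lemma iota_shift (g : Zd d) (θ : UnitAddCircle) : iota d (rot g + θ) = shift g (iota d θ) := by
  funext h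
  simp only [iota, shift]
  rw [rot_add, add_assoc]

lemma iota_free (θ : UnitAddCircle) : iota d θ ∈ freePart d := by
  intro g hg h
  have h1 : ∀ n : ℤ, (n • rot g + θ ∈ Metric.ball (0 : UnitAddCircle) (1/4) ↔
      θ ∈ Metric.ball (0 : UnitAddCircle) (1/4)) := by
    have hstep : ∀ n : ℤ, ((n+1) • rot g + θ ∈ Metric.ball (0 : UnitAddCircle) (1/4) ↔
      n • rot g + θ ∈ Metric.ball (0 : UnitAddCircle) (1/4)) := by
      intro n
      have := congrFun h (n • g)
      simp only [shift, iota, decide_eq_decide] at this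
      rw [← rot_zsmul, ← rot_zsmul, add_zsmul, one_zsmul]
      exact this
    intro n
    induction n with
    | zero => simp
    | succ n ih => rw [hstep, ih]
    | pred n ih => rw [← ih, ← hstep, show -(n:ℤ) - 1 + 1 = -n by ring]
  have hd := rot_dense hg
  obtain ⟨n, hn⟩ := cover_dense hd (U := Metric.ball (0 : UnitAddCircle) (1/4)) Metric.isOpen_ball
    ⟨0, by simp⟩ θ
  obtain ⟨m, hm⟩ := cover_dense hd (U := (Metric.closedBall (0 : UnitAddCircle) (1/4))ᶜ)
    Metric.isClosed_closedBall.isOpen_compl
    ⟨((1/2 : ℝ) : UnitAddCircle), by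
      have := AddCircle.norm_half_period_eq (p := (1:ℝ))
      simp only [Set.mem_compl_iff, Metric.mem_closedBall, dist_zero_right, not_le]
      rw [this]; norm_num⟩ θ
  have h2 := (h1 m).2 ((h1 n).1 hn)
  exact hm (Metric.ball_subset_closedBall h2)

noncomputable def iotaF (d : ℕ) (θ : UnitAddCircle) : freePart d := ⟨iota d θ, iota_free θ⟩

lemma iotaF_meas : Measurable (iotaF d) := by
  apply Measurable.subtype_mk
  rw [measurable_pi_iff]
  intro g
  apply measurable_to_bool
  have : (fun θ => iota d θ g) ⁻¹' {true} = (fun θ => rot g + θ) ⁻¹' Metric.ball (0 : UnitAddCircle) (1/4) := by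
    ext θ
    simp only [iota, Set.mem_preimage, Set.mem_singleton_iff, decide_eq_true_eq]
  rw [this]
  exact (mp_add (rot g)).measurable measurableSet_ball

/-! ### Nonexistence -/

section
variable {n : ℕ} {T : freePart d → Zd d → Fin n}

lemma T_eqv (hT : Equivariant T) (a b : ℤ) (θ : UnitAddCircle) (i j : ℤ) :
    T (iotaF d (cact d a b θ)) (em i j) = T (iotaF d θ) (em (i+a) (j+b)) := by
  have := hT (em a b) (iotaF d θ) (iotaF d (cact d a b θ)) (iota_shift (em a b) θ)
  rw [this]
  simp only [shift]
  rw [em_add]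

end

theorem not_borel_S2 (hd : 2 ≤ d) : ¬ HasBorel (S2 d) := by
  rintro ⟨T, hT, hS, hB⟩
  let τ : UnitAddCircle → ℤ → ℤ → St := fun θ i j => (enc St).symm (T (iotaF d θ) (em i j))
  have hE : Eqv (cact d) τ := by
    refine ⟨?_, ?_, ?_⟩
    · intro a b θ i j
      simp only [τ]
      rw [T_eqv hT]
    · intro i j s
      have h1 : MeasurableSet {x : Zd d → Fin (Fintype.card St) | x (em i j) = enc St s} :=
        (measurable_pi_apply (em i j)) (measurableSet_singleton _)
      have h2 := iotaF_meas (hB _ h1)
      convert h2 using 1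
      ext θ
      simp only [τ, Set.mem_setOf_eq, Set.mem_preimage]
      rw [Equiv.symm_apply_eq]
    · intro θ
      exact valid_slice (hS (iotaF d θ))
  exact no_finite_depth (erg_residual hd) hE (fd_category hd hE)

theorem not_measure_S1 (hd : 2 ≤ d) : ¬ HasMeasure (S1 d) := by
  intro hM
  haveI : IsProbabilityMeasure (volume : Measure UnitAddCircle) := ⟨UnitAddCircle.measure_univ⟩
  obtain ⟨T, hT, hS, hB⟩ := hM ((volume : Measure UnitAddCircle).map (iotaF d))
    (Measure.isProbabilityMeasure_map iotaF_meas.aemeasurable)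
  let τ : UnitAddCircle → ℤ → ℤ → St := fun θ i j => ((enc (St × Bool)).symm (T (iotaF d θ) (em i j))).1
  let m : UnitAddCircle → ℤ → ℤ → Bool :=
    fun θ i j => ((enc (St × Bool)).symm (T (iotaF d θ) (em i j))).2
  have hE : @Eqv UnitAddCircle mN (cact d) τ := by
    refine @Eqv.mk UnitAddCircle mN _ _ ?_ ?_ ?_
    · intro a b θ i j
      simp only [τ]
      rw [T_eqv hT]
    · intro i j s
      rw [mN_iff]
      have h1 : MeasurableSet {x : Zd d → Fin (Fintype.card (St × Bool)) |
          ((enc (St × Bool)).symm (x (em i j))).1 = s} := by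
        have hf : Measurable (fun x : Zd d → Fin (Fintype.card (St × Bool)) => x (em i j)) :=
          measurable_pi_apply _
        exact hf (Set.toFinite {a | ((enc (St × Bool)).symm a).1 = s}).measurableSet
      have h2 := (hB _ h1).preimage
        (Measurable.quasiMeasurePreserving iotaF_meas (volume : Measure UnitAddCircle))
      exact h2
    · intro θ
      refine valid_slice (d := d) (x := fun g => ((enc (St × Bool)).symm (T (iotaF d θ) g)).1) ?_
      intro g
      exact (hS (iotaF d θ) g).1
  have hMk : ∀ θ, Mk (τ θ) (m θ) := by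
    intro θ
    refine ⟨?_, ?_⟩
    · intro i j h
      exact (hS (iotaF d θ) (em i j)).2.1 h
    · intro i j h
      have := (hS (iotaF d θ) (em i j)).2.2 h
      have e : (em i j + em 1 0 : Zd d) = em (i+1) j := by rw [← em_add, add_zero]
      rw [e] at this
      exact this
  have hF := fd_measure hE hMk
  exact @no_finite_depth UnitAddCircle mN (ae (volume : Measure UnitAddCircle)) inferInstance
    inferInstance (cact d) τ (erg_measure hd) hE hF

theorem HasBorel.toMeasure {n : ℕ} {S : Set (Zd d → Fin n)} (h : HasBorel S) : HasMeasure S := by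
  obtain ⟨T, hT, hS, hB⟩ := h
  exact fun μ _ => ⟨T, hT, hS, fun B hb => (hB B hb).nullMeasurableSet⟩

end MP6540
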