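import Pool.Agent.T6.H73.SFT.BaireEx

/-!
Measurable maps: squares at random shifts of maximal separated sets.
-/

set_option linter.unusedSimpArgs false

namespace MP6540

open St Filter Topology MeasureTheory
open Pool.Agent.T6.H73.SFT
open scoped ENNReal

variable {d : ℕ}

/-! ### Borel maximal separated sets -/

def cyl (E P : Finset (Zd d)) : Set (freePart d) := {x | ∀ g ∈ E, (x.1 g = true ↔ g ∈ P)}

lemma cyl_meas (E P : Finset (Zd d)) : MeasurableSet (cyl E P) := by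
  have : cyl E P = ⋂ g : Zd d, ⋂ (_ : g ∈ E), {x : freePart d | (x.1 g = true ↔ g ∈ P)} := by
    ext x; simp [cyl]
  rw [this]
  refine MeasurableSet.iInter fun g => MeasurableSet.iInter fun _ => ?_
  have hm : Measurable (fun x : freePart d => x.1 g) :=
    (measurable_pi_apply g).comp measurable_subtype_coe
  exact hm (t := {b | b = true ↔ g ∈ P}) (Set.toFinite _).measurableSet

def GoodC (K : ℤ) (U : Set (freePart d)) : Prop :=
  ∀ a b : ℤ, |a| ≤ K → |b| ≤ K → (a ≠ 0 ∨ b ≠ 0) → ∀ x ∈ U, mv a b x ∉ U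

lemma exists_good (hd : 2 ≤ d) (K : ℤ) (x : freePart d) :
    ∃ E P, x ∈ cyl E P ∧ GoodC K (cyl E P) := by
  classical
  have h1 : ∀ p : ℤ × ℤ, ∃ h : Zd d, (p.1 ≠ 0 ∨ p.2 ≠ 0) → x.1 (h + em p.1 p.2) ≠ x.1 h := by
    intro p
    by_cases hp : p.1 ≠ 0 ∨ p.2 ≠ 0
    · have h2 := x.2 (em p.1 p.2) (em_ne hd hp)
      by_contra hc
      push Not at hc
      apply h2
      funext h
      exact (hc h).2
    · exact ⟨0, fun h => absurd h hp⟩
  choose hh hhh using h1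
  set box : Finset (ℤ × ℤ) := (Finset.Icc (-K) K) ×ˢ (Finset.Icc (-K) K)
  set E : Finset (Zd d) := (box.image hh) ∪ (box.image (fun p => hh p + em p.1 p.2)) with hE
  refine ⟨E, E.filter (fun g => x.1 g = true), ?_, ?_⟩
  · intro g hg
    simp [hg]
  · intro a b ha hb hab y hy hy'
    have hbox : (a, b) ∈ box := by
      rw [abs_le] at ha hb
      simp only [box, Finset.mem_product, Finset.mem_Icc]
      exact ⟨ha, hb⟩
    have m1 : hh (a, b) ∈ E := Finset.mem_union_left _ (Finset.mem_image_of_mem _ hbox)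
    have m2 : hh (a, b) + em a b ∈ E :=
      Finset.mem_union_right _ (Finset.mem_image.2 ⟨(a, b), hbox, rfl⟩)
    have e1 := hy _ m2
    have e2 := hy' _ m1
    have e3 : (mv a b y).1 (hh (a, b)) = y.1 (hh (a, b) + em a b) := rfl
    rw [e3] at e2
    simp only [Finset.mem_filter, m1, m2, true_and] at e1 e2
    apply hhh (a, b) hab
    rw [Bool.eq_iff_iff]
    exact e1.symm.trans e2

noncomputable def Mn (K : ℤ) (U : ℕ → Set (freePart d)) : ℕ → Set (freePart d)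
  | 0 => ∅
  | n+1 => Mn K U n ∪ {x | x ∈ U n ∧ ∀ a b : ℤ, |a| ≤ K → |b| ≤ K → mv a b x ∉ Mn K U n}

lemma Mn_meas (K : ℤ) {U : ℕ → Set (freePart d)} (hU : ∀ n, MeasurableSet (U n)) (n : ℕ) :
    MeasurableSet (Mn K U n) := by
  induction n with
  | zero => exact MeasurableSet.empty
  | succ n ih =>
    have : Mn K U (n+1) = Mn K U n ∪ (U n ∩ ⋂ a : ℤ, ⋂ b : ℤ, ⋂ (_ : |a| ≤ K), ⋂ (_ : |b| ≤ K),
        (mv a b ⁻¹' Mn K U n)ᶜ) := by
      ext x; simp [Mn]
    rw [this]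
    exact ih.union ((hU n).inter (MeasurableSet.iInter fun a => MeasurableSet.iInter fun b =>
      MeasurableSet.iInter fun _ => MeasurableSet.iInter fun _ => ((mv_meas a b) ih).compl))

lemma Mn_mono (K : ℤ) (U : ℕ → Set (freePart d)) : Monotone (Mn K U) :=
  monotone_nat_of_le_succ fun n => Set.subset_union_left

lemma sepset (hd : 2 ≤ d) (K : ℤ) (hK : 0 ≤ K) : ∃ M : Set (freePart d), MeasurableSet M ∧
    (∀ x a b, x ∈ M → mv a b x ∈ M → |a| ≤ K → |b| ≤ K → a = 0 ∧ b = 0) ∧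
    (∀ x, ∃ a b, |a| ≤ K ∧ |b| ≤ K ∧ mv a b x ∈ M) := by
  classical
  obtain ⟨e, he⟩ := exists_surjective_nat (Finset (Zd d) × Finset (Zd d))
  set U : ℕ → Set (freePart d) := fun n =>
    if GoodC K (cyl (e n).1 (e n).2) then cyl (e n).1 (e n).2 else ∅ with hU
  have hUm : ∀ n, MeasurableSet (U n) := by
    intro n
    simp only [hU]
    split_ifs
    · exact cyl_meas _ _
    · exact MeasurableSet.empty
  have hUg : ∀ n, GoodC K (U n) := by
    intro n
    simp only [hU]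
    split_ifs with h
    · exact h
    · intro a b _ _ _ x hx
      exact absurd hx (Set.notMem_empty x)
  have hUc : ∀ x, ∃ n, x ∈ U n := by
    intro x
    obtain ⟨E, P, h1, h2⟩ := exists_good hd K x
    obtain ⟨n, hn⟩ := he (E, P)
    refine ⟨n, ?_⟩
    simp only [hU, hn, h2, if_true]
    exact h1
  refine ⟨⋃ n, Mn K U n, MeasurableSet.iUnion (Mn_meas K hUm), ?_, ?_⟩
  · intro x a b hx hy ha hb
    by_contra hne
    have hne' : a ≠ 0 ∨ b ≠ 0 := by
      by_contra hc; push Not at hc; exact hne hc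
    have first : ∀ z ∈ ⋃ n, Mn K U n, ∃ n, z ∈ Mn K U (n+1) ∧ z ∈ U n ∧
        ∀ a b : ℤ, |a| ≤ K → |b| ≤ K → mv a b z ∉ Mn K U n := by
      intro z hz
      have hz' : ∃ n, z ∈ Mn K U n := Set.mem_iUnion.1 hz
      have h1 := Nat.find_spec hz'
      have h2 : Nat.find hz' ≠ 0 := by
        intro h0
        rw [h0] at h1
        exact h1
      obtain ⟨n, hn⟩ := Nat.exists_eq_succ_of_ne_zero h2
      have h3 : z ∉ Mn K U n := Nat.find_min hz' (by omega)
      rw [hn] at h1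
      rcases h1 with h1 | h1
      · exact absurd h1 h3
      · exact ⟨n, Or.inr h1, h1.1, h1.2⟩
    obtain ⟨n, hn1, hn2, hn3⟩ := first x hx
    obtain ⟨m, hm1, hm2, hm3⟩ := first _ hy
    rcases lt_trichotomy n m with h | h | h
    · have := hm3 (-a) (-b) (by rwa [abs_neg]) (by rwa [abs_neg])
      rw [mv_mv, neg_add_cancel, neg_add_cancel, mv_zero] at this
      exact this (Mn_mono K U h hn1)
    · subst h
      exact hUg n a b ha hb hne' x hn2 hm2
    · exact hn3 a b ha hb (Mn_mono K U h hm1)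
  · intro x
    obtain ⟨n, hn⟩ := hUc x
    by_cases h : ∃ a b : ℤ, |a| ≤ K ∧ |b| ≤ K ∧ mv a b x ∈ Mn K U n
    · obtain ⟨a, b, h1, h2, h3⟩ := h
      exact ⟨a, b, h1, h2, Set.mem_iUnion.2 ⟨n, h3⟩⟩
    · push Not at h
      refine ⟨0, 0, by simpa using hK, by simpa using hK, ?_⟩
      rw [mv_zero]
      exact Set.mem_iUnion.2 ⟨n+1, Or.inr ⟨hn, h⟩⟩

/-! ### Counting shifts -/

def CovW (M : Set (freePart d)) (L : ℕ) (w : ℤ × ℤ) (x : freePart d) : Prop :=
  ∃ i j : ℤ, 0 ≤ i ∧ i ≤ L ∧ 0 ≤ j ∧ j ≤ L ∧ mv (-i - w.1) (-j - w.2) x ∈ M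

def WallC (L i j : ℤ) : Prop :=
  0 ≤ i ∧ i ≤ L ∧ 0 ≤ j ∧ j ≤ L ∧ (i = 0 ∨ i = L ∨ j = 0 ∨ j = L ∨ i = j)

def NearW (M : Set (freePart d)) (L t : ℕ) (w : ℤ × ℤ) (x : freePart d) : Prop :=
  ∃ i j s s' : ℤ, WallC L i j ∧ |s| ≤ t ∧ |s'| ≤ t ∧ mv (-i + s - w.1) (-j + s' - w.2) x ∈ M

noncomputable def Bx (L : ℕ) : Finset (ℤ × ℤ) :=
  (Finset.Icc (-(5 * L : ℤ)) (5 * L)) ×ˢ (Finset.Icc (-(5 * L : ℤ)) (5 * L))

lemma Bx_card (L : ℕ) : (Bx L).card = (10 * L + 1) ^ 2 := by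
  unfold Bx
  rw [Finset.card_product, Int.card_Icc]
  rw [show (5 * (L:ℤ) + 1 - -(5 * (L:ℤ))).toNat = 10 * L + 1 by omega]
  ring

open Classical in
lemma count_cov {M : Set (freePart d)} {L : ℕ}
    (hmax : ∀ x, ∃ a b, |a| ≤ 4 * (L:ℤ) ∧ |b| ≤ 4 * (L:ℤ) ∧ mv a b x ∈ M) (x : freePart d) :
    (L + 1) ^ 2 ≤ ((Bx L).filter (fun w => CovW M L w x)).card := by
  obtain ⟨a, b, ha, hb, hab⟩ := hmax x
  rw [abs_le] at ha hb
  have hc : ((Finset.Icc (0:ℤ) L) ×ˢ (Finset.Icc (0:ℤ) L)).card = (L+1)^2 := by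
    rw [Finset.card_product, Int.card_Icc]
    rw [show ((L:ℤ) + 1 - 0).toNat = L + 1 by omega]
    ring
  rw [← hc]
  apply Finset.card_le_card_of_injOn (fun p : ℤ × ℤ => (-p.1 - a, -p.2 - b))
  · rintro ⟨i, j⟩ hij
    simp only [Finset.coe_product, Finset.coe_Icc, Set.mem_prod, Set.mem_Icc] at hij
    simp only [Finset.coe_filter, Set.mem_setOf_eq, Bx, Finset.mem_product, Finset.mem_Icc]
    refine ⟨⟨⟨by omega, by omega⟩, by omega, by omega⟩, i, j, by omega, by omega, by omega,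
      by omega, ?_⟩
    simp only
    rwa [show -i - (-i - a) = a by ring, show -j - (-j - b) = b by ring]
  · rintro ⟨i, j⟩ _ ⟨i', j'⟩ _ h
    simp only [Prod.mk.injEq] at h
    ext <;> simp only <;> omega

def bxi (L p : ℤ) : ℕ :=
  if p < -3 * L + 1 then 0 else if p < L + 2 then 1 else if p < 5 * L + 3 then 2 else 3

open Classical in
lemma count_pos {M : Set (freePart d)} {L : ℕ}
    (hsep : ∀ x a b, x ∈ M → mv a b x ∈ M → |a| ≤ 4 * (L:ℤ) → |b| ≤ 4 * (L:ℤ) → a = 0 ∧ b = 0)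
    (x : freePart d) :
    (((Finset.Icc (-(7 * L : ℤ)) (7 * L)) ×ˢ (Finset.Icc (-(7 * L : ℤ)) (7 * L))).filter
      (fun p : ℤ × ℤ => mv p.1 p.2 x ∈ M)).card ≤ 16 := by
  have hc : ((Finset.range 4) ×ˢ (Finset.range 4)).card = 16 := by simp
  rw [← hc]
  apply Finset.card_le_card_of_injOn (fun p : ℤ × ℤ => (bxi L p.1, bxi L p.2))
  · rintro ⟨i, j⟩ _
    simp only [Finset.coe_product, Finset.coe_range, Set.mem_prod, Set.mem_Iio]
    unfold bxi
    constructor <;> split_ifs <;> omega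
  · rintro ⟨i, j⟩ h1 ⟨i', j'⟩ h2 h
    simp only [Finset.coe_filter, Finset.mem_product, Finset.mem_Icc, Set.mem_setOf_eq] at h1 h2
    simp only [Prod.mk.injEq] at h
    have h3 : mv (i' - i) (j' - j) (mv i j x) ∈ M := by
      rw [mv_mv, sub_add_cancel, sub_add_cancel]; exact h2.2
    have key : ∀ p p' : ℤ, -(7 * (L:ℤ)) ≤ p → p ≤ 7 * L → -(7 * (L:ℤ)) ≤ p' → p' ≤ 7 * L →
        bxi L p = bxi L p' → |p' - p| ≤ 4 * (L:ℤ) := by
      intro p p' e1 e2 e3 e4 e5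
      rw [abs_le]
      unfold bxi at e5
      split_ifs at e5 <;> first | omega | exact absurd e5 (by norm_num)
    have h4 := hsep _ _ _ h1.2 h3
      (key i i' h1.1.1.1 h1.1.1.2 h2.1.1.1 h2.1.1.2 h.1)
      (key j j' h1.1.2.1 h1.1.2.2 h2.1.2.1 h2.1.2.2 h.2)
    ext <;> simp only <;> omega

open Classical in
lemma count_wall (L : ℕ) :
    (((Finset.Icc (0:ℤ) L) ×ˢ (Finset.Icc (0:ℤ) L)).filter
      (fun p : ℤ × ℤ => WallC L p.1 p.2)).card ≤ 5 * (L + 1) := by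
  have hI : (Finset.Icc (0:ℤ) L).card = L + 1 := by
    rw [Int.card_Icc]; omega
  set I := Finset.Icc (0:ℤ) L with hIdef
  have hsub : ((I ×ˢ I).filter (fun p : ℤ × ℤ => WallC L p.1 p.2)) ⊆
      ((((I.image (fun a => ((0:ℤ), a))) ∪ (I.image (fun a => ((L:ℤ), a)))) ∪
      (I.image (fun a => (a, (0:ℤ))))) ∪ (I.image (fun a => (a, (L:ℤ))))) ∪
      (I.image (fun a => (a, a))) := by
    rintro ⟨i, j⟩ h
    simp only [Finset.mem_filter, Finset.mem_product, WallC] at h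
    simp only [Finset.mem_union, Finset.mem_image, Prod.mk.injEq]
    obtain ⟨⟨h1, h2⟩, h3, h4, h5, h6, h7⟩ := h
    rcases h7 with rfl | rfl | rfl | rfl | rfl
    · left; left; left; left; exact ⟨j, h2, rfl, rfl⟩
    · left; left; left; right; exact ⟨j, h2, rfl, rfl⟩
    · left; left; right; exact ⟨i, h1, rfl, rfl⟩
    · left; right; exact ⟨i, h1, rfl, rfl⟩
    · right; exact ⟨i, h1, rfl, rfl⟩
  refine (Finset.card_le_card hsub).trans ?_
  refine (Finset.card_union_le _ _).trans ?_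
  have c1 : ∀ f : ℤ → ℤ × ℤ, (I.image f).card ≤ L + 1 := fun f => hI ▸ Finset.card_image_le
  have u1 := Finset.card_union_le (((I.image (fun a => ((0:ℤ), a))) ∪ (I.image (fun a => ((L:ℤ), a)))) ∪
      (I.image (fun a => (a, (0:ℤ))))) (I.image (fun a => (a, (L:ℤ))))
  have u2 := Finset.card_union_le ((I.image (fun a => ((0:ℤ), a))) ∪ (I.image (fun a => ((L:ℤ), a))))
      (I.image (fun a => (a, (0:ℤ))))
  have u3 := Finset.card_union_le (I.image (fun a => ((0:ℤ), a))) (I.image (fun a => ((L:ℤ), a)))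
  have v1 := c1 (fun a => ((0:ℤ), a))
  have v2 := c1 (fun a => ((L:ℤ), a))
  have v3 := c1 (fun a => (a, (0:ℤ)))
  have v4 := c1 (fun a => (a, (L:ℤ)))
  have v5 := c1 (fun a => (a, a))
  omega

open Classical in
lemma count_near {M : Set (freePart d)} {L t : ℕ} (ht : t ≤ L)
    (hsep : ∀ x a b, x ∈ M → mv a b x ∈ M → |a| ≤ 4 * (L:ℤ) → |b| ≤ 4 * (L:ℤ) → a = 0 ∧ b = 0)
    (x : freePart d) :
    ((Bx L).filter (fun w => NearW M L t w x)).card ≤ 80 * (L + 1) * (2 * t + 1) ^ 2 := by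
  set Pos := (((Finset.Icc (-(7 * L : ℤ)) (7 * L)) ×ˢ (Finset.Icc (-(7 * L : ℤ)) (7 * L))).filter
      (fun p : ℤ × ℤ => mv p.1 p.2 x ∈ M)) with hPos
  set Wl := (((Finset.Icc (0:ℤ) L) ×ˢ (Finset.Icc (0:ℤ) L)).filter
      (fun p : ℤ × ℤ => WallC L p.1 p.2)) with hWl
  set Sh := ((Finset.Icc (-(t:ℤ)) t) ×ˢ (Finset.Icc (-(t:ℤ)) t)) with hSh
  have hShc : Sh.card = (2 * t + 1) ^ 2 := by
    rw [hSh, Finset.card_product, Int.card_Icc]
    rw [show ((t:ℤ) + 1 - -(t:ℤ)).toNat = 2 * t + 1 by omega]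
    ring
  have hsub : ((Bx L).filter (fun w => NearW M L t w x)) ⊆
      (Pos ×ˢ (Wl ×ˢ Sh)).image (fun q : (ℤ × ℤ) × ((ℤ × ℤ) × (ℤ × ℤ)) =>
        (-q.2.1.1 + q.2.2.1 - q.1.1, -q.2.1.2 + q.2.2.2 - q.1.2)) := by
    rintro ⟨w1, w2⟩ h
    simp only [Finset.mem_filter, Bx, Finset.mem_product, Finset.mem_Icc] at h
    obtain ⟨⟨⟨h1, h2⟩, h3, h4⟩, i, j, s, s', hW, hs, hs', hM⟩ := h
    have hW' := hW
    unfold WallC at hW'
    rw [abs_le] at hs hs'
    refine Finset.mem_image.2 ⟨((-i + s - w1, -j + s' - w2), ((i, j), (s, s'))), ?_, ?_⟩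
    · simp only [Finset.mem_product, hPos, hWl, hSh, Finset.mem_filter, Finset.mem_Icc]
      refine ⟨⟨⟨⟨by omega, by omega⟩, by omega, by omega⟩, hM⟩, ⟨⟨⟨by omega, by omega⟩, by omega,
        by omega⟩, hW⟩, ⟨by omega, by omega⟩, by omega, by omega⟩
    · simp only [Prod.mk.injEq]
      constructor <;> ring
  refine (Finset.card_le_card hsub).trans (Finset.card_image_le.trans ?_)
  rw [Finset.card_product, Finset.card_product, hShc]
  have h1 := count_pos hsep x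
  have h2 := count_wall L
  calc Pos.card * (Wl.card * (2 * t + 1) ^ 2) ≤ 16 * ((5 * (L+1)) * (2 * t + 1) ^ 2) :=
        Nat.mul_le_mul h1 (Nat.mul_le_mul_right _ h2)
    _ = 80 * (L + 1) * (2 * t + 1) ^ 2 := by ring

lemma CovW_meas {M : Set (freePart d)} (hM : MeasurableSet M) (L : ℕ) (w : ℤ × ℤ) :
    MeasurableSet {x | CovW M L w x} := by
  have : {x | CovW M L w x} = ⋃ i : ℤ, ⋃ j : ℤ, ({_x | 0 ≤ i ∧ i ≤ L ∧ 0 ≤ j ∧ j ≤ L} ∩
      mv (-i - w.1) (-j - w.2) ⁻¹' M) := by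
    ext x; simp [CovW, and_assoc]
  rw [this]
  exact MeasurableSet.iUnion fun i => MeasurableSet.iUnion fun j =>
    (MeasurableSet.const _).inter (mv_meas _ _ hM)

lemma NearW_meas {M : Set (freePart d)} (hM : MeasurableSet M) (L t : ℕ) (w : ℤ × ℤ) :
    MeasurableSet {x | NearW M L t w x} := by
  have : {x | NearW M L t w x} = ⋃ i : ℤ, ⋃ j : ℤ, ⋃ s : ℤ, ⋃ s' : ℤ,
      ({_x | WallC L i j ∧ |s| ≤ t ∧ |s'| ≤ t} ∩
      mv (-i + s - w.1) (-j + s' - w.2) ⁻¹' M) := by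
    ext x; simp [NearW, and_assoc]
  rw [this]
  exact MeasurableSet.iUnion fun i => MeasurableSet.iUnion fun j => MeasurableSet.iUnion fun _ =>
    MeasurableSet.iUnion fun _ => (MeasurableSet.const _).inter (mv_meas _ _ hM)

open Classical in
/-- the next potential before adding the constant -/
noncomputable def gg (M : Set (freePart d)) (L t : ℕ) (w : ℤ × ℤ) (f : freePart d → ℝ≥0∞)
    (x : freePart d) : ℝ≥0∞ :=
  (if CovW M L w x then 0 else f x) + (if NearW M L t w x then 1 else 0)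

lemma gg_meas {M : Set (freePart d)} (hM : MeasurableSet M) (L t : ℕ) (w : ℤ × ℤ)
    {f : freePart d → ℝ≥0∞} (hf : Measurable f) : Measurable (gg M L t w f) := by
  unfold gg
  exact (Measurable.ite (CovW_meas hM L w) measurable_const hf).add
    (Measurable.ite (NearW_meas hM L t w) measurable_const measurable_const)

lemma step_lemma {ν : Measure (freePart d)} (hν : ν Set.univ ≤ 1) {M : Set (freePart d)}
    (hM : MeasurableSet M) {L t k : ℕ} (hL : L = 2 * (2 * t + 1) ^ 2 * 2 ^ k)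
    (hsep : ∀ x a b, x ∈ M → mv a b x ∈ M → |a| ≤ 4 * (L:ℤ) → |b| ≤ 4 * (L:ℤ) → a = 0 ∧ b = 0)
    (hmax : ∀ x, ∃ a b, |a| ≤ 4 * (L:ℤ) ∧ |b| ≤ 4 * (L:ℤ) ∧ mv a b x ∈ M)
    {f : freePart d → ℝ≥0∞} (hf : Measurable f) :
    ∃ w ∈ Bx L, ∫⁻ x, gg M L t w f x ∂ν ≤ (99 / 100) * ∫⁻ x, f x ∂ν + 2⁻¹ ^ k := by
  classical
  have h2k : 1 ≤ 2 ^ k := Nat.one_le_two_pow
  have htL : t ≤ L := by
    rw [hL]
    nlinarith [Nat.zero_le t, Nat.zero_le (t^2)]
  have hL1 : 1 ≤ L := by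
    rw [hL]
    nlinarith [Nat.zero_le t, Nat.zero_le (t^2)]
  have hne : (Bx L).Nonempty := by
    rw [← Finset.card_pos, Bx_card]; positivity
  apply ENNReal.exists_le_of_sum_le hne
  rw [← lintegral_finset_sum _ (fun w _ => gg_meas hM L t w hf)]
  -- pointwise bound
  have hpt : ∀ x, ∑ w ∈ Bx L, gg M L t w f x ≤
      (((10 * L + 1) ^ 2 - (L + 1) ^ 2 : ℕ) : ℝ≥0∞) * f x +
      ((80 * (L + 1) * (2 * t + 1) ^ 2 : ℕ) : ℝ≥0∞) := by
    intro x
    unfold gg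
    rw [Finset.sum_add_distrib]
    apply add_le_add
    · rw [Finset.sum_ite, Finset.sum_const_zero, zero_add, Finset.sum_const, nsmul_eq_mul]
      gcongr
      have h1 := count_cov hmax x
      have h2 := Finset.card_filter_add_card_filter_not (s := Bx L) (fun w => CovW M L w x)
      rw [Bx_card] at h2
      omega
    · rw [Finset.sum_boole]
      exact_mod_cast count_near htL hsep x
  refine (lintegral_mono hpt).trans ?_
  rw [lintegral_add_right _ measurable_const, lintegral_const_mul _ hf, lintegral_const]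
  rw [Finset.sum_const, Bx_card, nsmul_eq_mul, mul_add (((10 * L + 1) ^ 2 : ℕ) : ℝ≥0∞)]
  apply add_le_add
  · rw [← mul_assoc]
    gcongr
    -- (N - (L+1)^2) ≤ N * (99/100)
    rw [← mul_div_assoc, ENNReal.le_div_iff_mul_le (Or.inl (by norm_num)) (Or.inl (by norm_num))]
    have : ((10 * L + 1) ^ 2 - (L + 1) ^ 2) * 100 ≤ (10 * L + 1) ^ 2 * 99 := by
      have h3 : (10 * L + 1) ^ 2 ≤ 100 * (L + 1) ^ 2 := by nlinarith
      omega
    exact_mod_cast this
  · calc ((80 * (L + 1) * (2 * t + 1) ^ 2 : ℕ) : ℝ≥0∞) * ν Set.univ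
        ≤ ((80 * (L + 1) * (2 * t + 1) ^ 2 : ℕ) : ℝ≥0∞) * 1 := by gcongr
      _ ≤ (((10 * L + 1) ^ 2 : ℕ) : ℝ≥0∞) * 2⁻¹ ^ k := by
        rw [mul_one, ENNReal.inv_pow.symm, ← div_eq_mul_inv,
          ENNReal.le_div_iff_mul_le (Or.inl (by positivity)) (Or.inl (by simp))]
        have h3 : 80 * (L + 1) * (2 * t + 1) ^ 2 * 2 ^ k ≤ (10 * L + 1) ^ 2 := by
          have h4 : 80 * (L + 1) * (2 * t + 1) ^ 2 * 2 ^ k = 40 * (L + 1) * L := by
            conv_rhs => rw [hL]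
            ring_nf
            rw [hL]; ring
          rw [h4]
          nlinarith
        exact_mod_cast h3

end MP6540
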