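import Pool.Agent.T6.H73.SFT.MeasEx

/-!
Measurable maps: choice of the shifts, pruning, and condition (iii) for the first subshift.
-/

set_option linter.unusedSimpArgs false

namespace MP6540

open St Filter Topology MeasureTheory
open Pool.Agent.T6.H73.SFT
open scoped ENNReal

variable {d : ℕ}

def tt : ℕ → ℕ
  | 0 => 0
  | k+1 => 2 * (2 * tt k + 1) ^ 2 * 2 ^ k + 2

def LL (k : ℕ) : ℕ := 2 * (2 * tt k + 1) ^ 2 * 2 ^ k

lemma tt_succ (k : ℕ) : tt (k+1) = LL k + 2 := rfl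

lemma tt_le (k : ℕ) : tt k ≤ LL k := by
  have h2k : 1 ≤ 2 ^ k := Nat.one_le_two_pow
  unfold LL
  nlinarith [Nat.zero_le (tt k), Nat.zero_le (tt k ^2)]

lemma LL_pos (k : ℕ) : 1 ≤ LL k := by
  have h2k : 1 ≤ 2 ^ k := Nat.one_le_two_pow
  unfold LL
  nlinarith [Nat.zero_le (tt k), Nat.zero_le (tt k ^2)]

lemma tt_mono : Monotone tt := monotone_nat_of_le_succ fun k => by
  rw [tt_succ]; have := tt_le k; omega

lemma tt_lt {k l : ℕ} (h : k < l) : LL k + 2 ≤ tt l := by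
  rw [← tt_succ]; exact tt_mono h

/-- Choice of shifts such that almost every point is covered at infinitely many scales and near
walls at only finitely many scales. -/
lemma exists_shifts {ν : Measure (freePart d)} (hν : ν Set.univ ≤ 1)
    {M : ℕ → Set (freePart d)} (hM : ∀ k, MeasurableSet (M k))
    (hsep : ∀ k x a b, x ∈ M k → mv a b x ∈ M k → |a| ≤ 4 * (LL k:ℤ) → |b| ≤ 4 * (LL k:ℤ) →
      a = 0 ∧ b = 0)
    (hmax : ∀ k x, ∃ a b, |a| ≤ 4 * (LL k:ℤ) ∧ |b| ≤ 4 * (LL k:ℤ) ∧ mv a b x ∈ M k) :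
    ∃ w : ℕ → ℤ × ℤ, ∀ᵐ x ∂ν,
      (∃ K, ∀ k ≥ K, ¬ NearW (M k) (LL k) (tt k) (w k) x) ∧
      (∀ K, ∃ k ≥ K, CovW (M k) (LL k) (w k) x) := by
  classical
  choose W hW1 hW2 using fun (k : ℕ) (f : {f : freePart d → ℝ≥0∞ // Measurable f}) =>
    step_lemma (k := k) (t := tt k) (L := LL k) hν (hM k) rfl (hsep k) (hmax k) f.2
  let G : ℕ → {f : freePart d → ℝ≥0∞ // Measurable f} := fun n =>
    Nat.rec (motive := fun _ => {f : freePart d → ℝ≥0∞ // Measurable f})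
      ⟨fun _ => 1, measurable_const⟩
      (fun k Gk => ⟨fun x => gg (M k) (LL k) (tt k) (W k Gk) Gk.1 x + 2⁻¹ ^ (k+1),
        (gg_meas (hM k) _ _ _ Gk.2).add measurable_const⟩) n
  have hG0 : ∀ x, (G 0).1 x = 1 := fun x => rfl
  have hGs : ∀ k x, (G (k+1)).1 x =
    gg (M k) (LL k) (tt k) (W k (G k)) (G k).1 x + 2⁻¹ ^ (k+1) := fun k x => rfl
  set F : ℕ → ℝ≥0∞ := fun k => ∫⁻ x, (G k).1 x ∂ν with hF
  have hF0 : F 0 ≤ 1 := by
    simp only [hF, hG0, lintegral_const, one_mul]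
    exact hν
  have hFs : ∀ k, F (k+1) ≤ (99/100) * F k + 2⁻¹ ^ k + 2⁻¹ ^ (k+1) := by
    intro k
    simp only [hF, hGs]
    rw [lintegral_add_right _ measurable_const, lintegral_const]
    apply add_le_add (hW2 k (G k))
    calc (2⁻¹ : ℝ≥0∞) ^ (k+1) * ν Set.univ ≤ 2⁻¹ ^ (k+1) * 1 := by gcongr
      _ = _ := mul_one _
  have hgeo : ∀ n, ∑ k ∈ Finset.range n, (2⁻¹ : ℝ≥0∞) ^ k ≤ 2 := by
    intro n
    refine (ENNReal.sum_le_tsum _).trans ?_
    rw [ENNReal.tsum_geometric, ENNReal.one_sub_inv_two, inv_inv]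
  have hgeo' : ∀ n, ∑ k ∈ Finset.range n, (2⁻¹ : ℝ≥0∞) ^ (k+1) ≤ 2 := by
    intro n
    refine le_trans (Finset.sum_le_sum fun k _ => ?_) (hgeo n)
    rw [pow_succ]
    calc (2⁻¹ : ℝ≥0∞) ^ k * 2⁻¹ ≤ 2⁻¹ ^ k * 1 := by
          gcongr
          exact ENNReal.inv_le_one.2 (by norm_num)
      _ = _ := mul_one _
  have hsum : ∀ n, ∑ k ∈ Finset.range n, F k ≤ 500 := by
    intro n
    induction n with
    | zero => simp
    | succ n ih =>
      rw [Finset.sum_range_succ']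
      calc ∑ k ∈ Finset.range n, F (k+1) + F 0
          ≤ ∑ k ∈ Finset.range n, ((99/100) * F k + 2⁻¹ ^ k + 2⁻¹ ^ (k+1)) + 1 :=
            add_le_add (Finset.sum_le_sum fun k _ => hFs k) hF0
        _ = (99/100) * (∑ k ∈ Finset.range n, F k) + ∑ k ∈ Finset.range n, 2⁻¹ ^ k +
            ∑ k ∈ Finset.range n, 2⁻¹ ^ (k+1) + 1 := by
            rw [Finset.sum_add_distrib, Finset.sum_add_distrib, Finset.mul_sum]
        _ ≤ (99/100) * 500 + 2 + 2 + 1 := by
            gcongr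
            · exact hgeo n
            · exact hgeo' n
        _ = 500 := by
            have h5 : (500 : ℝ≥0∞) = 100 * 5 := by norm_num
            rw [h5, ← mul_assoc, ENNReal.div_mul_cancel (by norm_num) (by norm_num)]
            norm_num
  have htsum : ∑' k, F k ≤ 500 := ENNReal.tsum_le_of_sum_range_le hsum
  have hlint : ∫⁻ x, ∑' k, (G k).1 x ∂ν ≠ ⊤ := by
    rw [lintegral_tsum (fun k => (G k).2.aemeasurable)]
    exact ne_top_of_le_ne_top (by norm_num) htsum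
  have hae : ∀ᵐ x ∂ν, ∑' k, (G k).1 x < ⊤ :=
    ae_lt_top (Measurable.ennreal_tsum fun k => (G k).2) hlint
  refine ⟨fun k => W k (G k), ?_⟩
  filter_upwards [hae] with x hx
  have hlim : Tendsto (fun k => (G k).1 x) atTop (𝓝 0) :=
    ENNReal.tendsto_atTop_zero_of_tsum_ne_top hx.ne
  constructor
  · have h1 : ∀ᶠ k in atTop, (G k).1 x < 1 := hlim.eventually_lt_const (by norm_num)
    obtain ⟨K, hK⟩ := eventually_atTop.1 h1
    refine ⟨K, fun k hk hN => ?_⟩
    have h2 := hK (k+1) (by omega)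
    rw [hGs] at h2
    have h3 : (1 : ℝ≥0∞) ≤ gg (M k) (LL k) (tt k) (W k (G k)) (G k).1 x := by
      unfold gg
      rw [if_pos hN]
      exact le_add_self
    exact absurd (h3.trans (le_add_right le_rfl)) (not_le.2 h2)
  · intro K
    by_contra hc
    push Not at hc
    have h1 : ∀ k, K + 1 ≤ k → (2⁻¹ : ℝ≥0∞) ^ (K+1) ≤ (G k).1 x := by
      intro k hk
      induction k, hk using Nat.le_induction with
      | base =>
        rw [hGs]
        exact le_add_self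
      | succ k hk ih =>
        rw [hGs]
        unfold gg
        rw [if_neg (hc k (by omega))]
        exact ih.trans ((le_add_right le_rfl).trans (le_add_right le_rfl))
    have h2 : ∀ᶠ k in atTop, (G k).1 x < (2⁻¹ : ℝ≥0∞) ^ (K+1) :=
      hlim.eventually_lt_const (ENNReal.pow_pos (by simp) _)
    obtain ⟨k, hk⟩ := (h2.and (eventually_ge_atTop (K+1))).exists
    exact absurd (h1 k hk.2) (not_le.2 hk.1)

/-- unpruned corners -/
def Dp (M : ℕ → Set (freePart d)) (w : ℕ → ℤ × ℤ) (k : ℕ) : Set (freePart d) :=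
  {x | mv (-(w k).1) (-(w k).2) x ∈ M k}

/-- pruned corners -/
def Dm (M : ℕ → Set (freePart d)) (w : ℕ → ℤ × ℤ) (k : ℕ) : Set (freePart d) :=
  {x | x ∈ Dp M w k ∧ ∀ l, k < l → ∀ i j i' j' : ℤ, -1 ≤ i → i ≤ LL k + 1 → -1 ≤ j →
    j ≤ LL k + 1 → WallC (LL l) i' j' → mv (i - i') (j - j') x ∉ Dp M w l}

lemma Dp_meas {M : ℕ → Set (freePart d)} (hM : ∀ k, MeasurableSet (M k)) (w k) :
    MeasurableSet (Dp M w k) := mv_meas _ _ (hM k)

lemma Dm_meas {M : ℕ → Set (freePart d)} (hM : ∀ k, MeasurableSet (M k)) (w k) :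
    MeasurableSet (Dm M w k) := by
  have : Dm M w k = Dp M w k ∩ ⋂ l : ℕ, ⋂ (_ : k < l), ⋂ i : ℤ, ⋂ j : ℤ, ⋂ i' : ℤ, ⋂ j' : ℤ,
      ⋂ (_ : -1 ≤ i), ⋂ (_ : i ≤ LL k + 1), ⋂ (_ : -1 ≤ j), ⋂ (_ : j ≤ LL k + 1),
      ⋂ (_ : WallC (LL l) i' j'), (mv (i - i') (j - j') ⁻¹' Dp M w l)ᶜ := by
    ext x; simp [Dm]
  rw [this]
  refine (Dp_meas hM w k).inter ?_
  refine MeasurableSet.iInter fun l => MeasurableSet.iInter fun _ => MeasurableSet.iInter fun i =>
    MeasurableSet.iInter fun j => MeasurableSet.iInter fun i' => MeasurableSet.iInter fun j' =>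
    MeasurableSet.iInter fun _ => MeasurableSet.iInter fun _ => MeasurableSet.iInter fun _ =>
    MeasurableSet.iInter fun _ => MeasurableSet.iInter fun _ => (mv_meas _ _ (Dp_meas hM w l)).compl

lemma sys_meas {M : ℕ → Set (freePart d)} (w : ℕ → ℤ × ℤ)
    (hsep : ∀ k x a b, x ∈ M k → mv a b x ∈ M k → |a| ≤ 4 * (LL k:ℤ) → |b| ≤ 4 * (LL k:ℤ) →
      a = 0 ∧ b = 0) : Sys false (fun k => (LL k : ℤ)) (Dm M w) where
  L1 := fun k => by have := LL_pos k; omega
  C1 := by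
    intro k x a b hx hy ha hb
    have hL := LL_pos k
    have h1 : mv (-(w k).1) (-(w k).2) x ∈ M k := hx.1
    have h2 : mv (-(w k).1) (-(w k).2) (mv a b x) ∈ M k := hy.1
    apply hsep k _ a b h1
    · rw [mv_mv] at h2 ⊢
      rwa [add_comm a, add_comm b]
    · refine ha.trans ?_; omega
    · refine hb.trans ?_; omega
  C2 := by
    intro k l hkl x hx i j i' j' a1 a2 a3 a4 b1 b2 b3 b4 hy
    have h1 := hx.2 l hkl i j i' j' a1 a2 a3 a4
    have h2 : ¬ WallC (LL l) i' j' := fun h => h1 h hy.1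
    unfold WallC at h2
    refine ⟨by omega, by omega, by omega, by omega, by omega, fun h => absurd h (by simp)⟩

lemma covered {M : ℕ → Set (freePart d)} (w : ℕ → ℤ × ℤ) {x : freePart d}
    (h1 : ∃ K, ∀ k ≥ K, ¬ NearW (M k) (LL k) (tt k) (w k) x)
    (h2 : ∀ K, ∃ k ≥ K, CovW (M k) (LL k) (w k) x) :
    ∃ k i j, Cov (fun k => (LL k : ℤ)) (Dm M w) x k i j := by
  obtain ⟨K, hK⟩ := h1
  obtain ⟨k, hk, i0, j0, e1, e2, e3, e4, e5⟩ := h2 K
  refine ⟨k, i0, j0, e1, e2, e3, e4, ?_, ?_⟩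
  · show mv (-(w k).1) (-(w k).2) (mv (-i0) (-j0) x) ∈ M k
    rw [mv_mv]
    rwa [show -(w k).1 + -i0 = -i0 - (w k).1 by ring, show -(w k).2 + -j0 = -j0 - (w k).2 by ring]
  · intro l hl i j i' j' a1 a2 a3 a4 hW hD
    apply hK l (by omega)
    have ht := tt_lt hl
    refine ⟨i', j', i - i0, j - j0, hW, by rw [abs_le]; omega, by rw [abs_le]; omega, ?_⟩
    have hD' : mv (-(w l).1) (-(w l).2) (mv (i - i') (j - j') (mv (-i0) (-j0) x)) ∈ M l := hD
    rw [mv_mv, mv_mv] at hD'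
    rwa [show -i' + (i - i0) - (w l).1 = -(w l).1 + (i - i') + -i0 by ring,
      show -j' + (j - j0) - (w l).2 = -(w l).2 + (j - j') + -j0 by ring]

theorem measure_S2 (hd : 2 ≤ d) : HasMeasure (S2 d) := by
  classical
  have hsm : ∀ k : ℕ, ∃ M : Set (freePart d), MeasurableSet M ∧
    (∀ x a b, x ∈ M → mv a b x ∈ M → |a| ≤ 4 * (LL k:ℤ) → |b| ≤ 4 * (LL k:ℤ) → a = 0 ∧ b = 0) ∧
    (∀ x, ∃ a b, |a| ≤ 4 * (LL k:ℤ) ∧ |b| ≤ 4 * (LL k:ℤ) ∧ mv a b x ∈ M) :=
    fun k => sepset hd _ (by positivity)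
  choose M hM hsep hmax using hsm
  apply measure_of_map
  intro μ hμ
  -- the averaged measure
  let _ := Encodable.ofCountable (Zd d)
  set c : Zd d → ℝ≥0∞ := fun g => 2⁻¹ ^ (Encodable.encode g + 1) with hc
  set ν : Measure (freePart d) := Measure.sum (fun g : Zd d => c g • μ.map (fsh g)) with hν
  have hν1 : ν Set.univ ≤ 1 := by
    rw [hν, Measure.sum_apply _ MeasurableSet.univ]
    have : ∀ g : Zd d, (c g • μ.map (fsh g)) Set.univ = c g := by
      intro g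
      rw [Measure.smul_apply, Measure.map_apply (fsh_meas g) MeasurableSet.univ, Set.preimage_univ,
        measure_univ, smul_eq_mul, mul_one]
    rw [tsum_congr this]
    refine (ENNReal.tsum_comp_le_tsum_of_injective (Encodable.encode_injective (α := Zd d))
      (fun n => (2⁻¹ : ℝ≥0∞) ^ (n+1))).trans ?_
    rw [ENNReal.tsum_geometric_add_one, ENNReal.one_sub_inv_two, inv_inv]
    rw [ENNReal.inv_mul_cancel (by norm_num) (by norm_num)]
  obtain ⟨w, hw⟩ := exists_shifts hν1 hM hsep hmax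
  have hcov : ∀ᵐ x ∂ν, ∃ k i j, Cov (fun k => (LL k : ℤ)) (Dm M w) x k i j := by
    filter_upwards [hw] with x hx
    exact covered w hx.1 hx.2
  have hF : ∀ᵐ x ∂μ, ∀ g : Zd d, ∃ k i j, Cov (fun k => (LL k : ℤ)) (Dm M w) (fsh g x) k i j := by
    rw [ae_all_iff]
    intro g
    rw [hν, Measure.ae_sum_iff] at hcov
    have h1 := hcov g
    rw [Measure.ae_ennreal_smul_measure_iff (by
      simp only [hc]
      exact (ENNReal.pow_pos (by simp) _).ne')] at h1
    exact ae_of_ae_map (fsh_meas g).aemeasurable h1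
  obtain ⟨T, h1, h2, -, T₀, h4, h5⟩ := exists_map hd (sys_meas w hsep) (Dm_meas hM w) hF
  refine ⟨fun x g => (T x g).1, fun x g => (T₀ x g).1, ?_, h2, ?_, ?_⟩
  · intro g x y hy
    funext h
    simp only [shift]
    rw [h1 g x y hy]
    rfl
  · intro g a
    have : {x | (T₀ x g).1 = a} = ⋃ b : St × Bool, ({x | T₀ x g = b} ∩ {_x | b.1 = a}) := by
      ext x; simp
    rw [this]
    exact MeasurableSet.iUnion fun b => (h4 g b).inter (MeasurableSet.const _)
  · filter_upwards [h5] with x hx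
    rw [hx]

end MP6540
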