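import Pool.Agent.T6.H73.SFT.Struct

/-!
Abstract nonexistence argument: an equivariant map to valid configurations in which almost every
cell lies in finitely many squares contradicts ergodicity.
-/

set_option linter.unusedSimpArgs false

namespace MP6540

open St Filter

section

variable {K : Type*} [MeasurableSpace K]

structure Erg (F : Filter K) (act : ℤ → ℤ → K → K) : Prop where
  tend : ∀ a b, Tendsto (act a b) F F
  erg : ∀ a b, (a ≠ 0 ∨ b ≠ 0) → ∀ A : Set K, MeasurableSet A → act a b ⁻¹' A = A →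
    A ∈ F ∨ Aᶜ ∈ F

structure Eqv (act : ℤ → ℤ → K → K) (τ : K → ℤ → ℤ → St) : Prop where
  eqv : ∀ a b θ i j, τ (act a b θ) i j = τ θ (i + a) (j + b)
  meas : ∀ i j s, MeasurableSet {θ | τ θ i j = s}
  valid : ∀ θ, Valid (τ θ)

variable {F : Filter K} [CountableInterFilter F] [F.NeBot] {act : ℤ → ℤ → K → K}
  {τ : K → ℤ → ℤ → St}

lemma half (hE : Erg F act) (hT : Eqv act τ) {v1 v2 : ℤ} (hv : v1 ≠ 0 ∨ v2 ≠ 0) {s m : St}
    (hsm : s ≠ m) : ∀ᶠ θ in F, ∀ i j : ℤ,
      ¬ (τ θ i j = s ∧ ∀ n : ℕ, 1 ≤ n → τ θ (i + n * v1) (j + n * v2) = m) := by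
  set Y : Set K := {θ | ∃ k : ℤ, τ θ (2*k*v1) (2*k*v2) = s ∧
    ∀ n : ℕ, 1 ≤ n → τ θ (2*k*v1 + n * v1) (2*k*v2 + n * v2) = m} with hY
  have hYm : MeasurableSet Y := by
    have : Y = ⋃ k : ℤ, ({θ | τ θ (2*k*v1) (2*k*v2) = s} ∩
      ⋂ n : ℕ, ⋂ (_ : 1 ≤ n), {θ | τ θ (2*k*v1 + n * v1) (2*k*v2 + n * v2) = m}) := by
      ext θ; simp [hY]
    rw [this]
    exact MeasurableSet.iUnion fun k => (hT.meas _ _ _).inter
      (MeasurableSet.iInter fun n => MeasurableSet.iInter fun _ => hT.meas _ _ _)
  have hYi : act (2*v1) (2*v2) ⁻¹' Y = Y := by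
    ext θ
    simp only [Set.mem_preimage, hY, Set.mem_setOf_eq, hT.eqv]
    constructor
    · rintro ⟨k, h1, h2⟩
      refine ⟨k+1, ?_, ?_⟩
      · rw [show 2*(k+1)*v1 = 2*k*v1 + 2*v1 by ring, show 2*(k+1)*v2 = 2*k*v2 + 2*v2 by ring]
        exact h1
      · intro n hn
        have := h2 n hn
        rw [show 2*(k+1)*v1 + n*v1 = 2*k*v1 + n*v1 + 2*v1 by ring,
          show 2*(k+1)*v2 + n*v2 = 2*k*v2 + n*v2 + 2*v2 by ring]
        exact this
    · rintro ⟨k, h1, h2⟩
      refine ⟨k-1, ?_, ?_⟩
      · rw [show 2*(k-1)*v1 + 2*v1 = 2*k*v1 by ring, show 2*(k-1)*v2 + 2*v2 = 2*k*v2 by ring]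
        exact h1
      · intro n hn
        have := h2 n hn
        rw [show 2*(k-1)*v1 + n*v1 + 2*v1 = 2*k*v1 + n*v1 by ring,
          show 2*(k-1)*v2 + n*v2 + 2*v2 = 2*k*v2 + n*v2 by ring]
        exact this
  have hYc : Yᶜ ∈ F := by
    rcases hE.erg (2*v1) (2*v2) (by omega) Y hYm hYi with h | h
    · exfalso
      have h2 : act v1 v2 ⁻¹' Y ∈ F := hE.tend v1 v2 h
      obtain ⟨θ, ⟨k, h3, h4⟩, k', h5, h6⟩ := (F.inter_mem h h2 |> fun h => Filter.nonempty_of_mem h)
      simp only [hT.eqv] at h5 h6
      rcases le_or_gt k k' with hk | hk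
      · have := h4 (2*(k'-k)+1).toNat (by omega)
        rw [show (((2*(k'-k)+1).toNat : ℕ) : ℤ) = 2*(k'-k)+1 by omega,
          show 2*k*v1 + (2*(k'-k)+1)*v1 = 2*k'*v1 + v1 by ring,
          show 2*k*v2 + (2*(k'-k)+1)*v2 = 2*k'*v2 + v2 by ring, h5] at this
        exact hsm this
      · have := h6 (2*(k-k')-1).toNat (by omega)
        rw [show (((2*(k-k')-1).toNat : ℕ) : ℤ) = 2*(k-k')-1 by omega,
          show 2*k'*v1 + (2*(k-k')-1)*v1 + v1 = 2*k*v1 by ring,
          show 2*k'*v2 + (2*(k-k')-1)*v2 + v2 = 2*k*v2 by ring, h3] at this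
        exact hsm this
    · exact h
  have : ∀ i j : ℤ, ∀ᶠ θ in F, act i j θ ∈ Yᶜ := fun i j => hE.tend i j hYc
  have h2 : ∀ᶠ θ in F, ∀ i j : ℤ, act i j θ ∈ Yᶜ := by
    rw [eventually_countable_forall]; intro i
    rw [eventually_countable_forall]; intro j
    exact this i j
  filter_upwards [h2] with θ hθ i j hc
  apply hθ i j
  refine ⟨0, ?_, ?_⟩
  · rw [hT.eqv]; simpa using hc.1
  · intro n hn
    rw [hT.eqv]
    have := hc.2 n hn
    rw [show 2*0*v1 + n*v1 + i = i + n*v1 by ring, show 2*0*v2 + n*v2 + j = j + n*v2 by ring]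
    exact this

lemma bi (hE : Erg F act) (hT : Eqv act τ) {v1 v2 : ℤ} (hv : v1 ≠ 0 ∨ v2 ≠ 0) {w1 w2 : ℤ} {m : St}
    (hw : ∀ x : ℤ → ℤ → St, Valid x → ∀ i j, x i j = m → x (i + w1) (j + w2) ≠ m) :
    ∀ᶠ θ in F, ∀ i j : ℤ, ¬ (∀ n : ℤ, τ θ (i + n * v1) (j + n * v2) = m) := by
  set Y : Set K := {θ | ∀ n : ℤ, τ θ (n * v1) (n * v2) = m} with hY
  have hYm : MeasurableSet Y := by
    have : Y = ⋂ n : ℤ, {θ | τ θ (n * v1) (n * v2) = m} := by
      ext θ; simp [hY]
    rw [this]
    exact MeasurableSet.iInter fun k => (hT.meas _ _ _)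
  have hYi : act v1 v2 ⁻¹' Y = Y := by
    ext θ
    simp only [Set.mem_preimage, hY, Set.mem_setOf_eq, hT.eqv]
    constructor
    · intro h n
      have := h (n-1)
      rwa [show (n-1)*v1 + v1 = n*v1 by ring, show (n-1)*v2 + v2 = n*v2 by ring] at this
    · intro h n
      have := h (n+1)
      rwa [show (n+1)*v1 = n*v1 + v1 by ring, show (n+1)*v2 = n*v2 + v2 by ring] at this
  have hYc : Yᶜ ∈ F := by
    rcases hE.erg v1 v2 hv Y hYm hYi with h | h
    · exfalso
      have h2 : act w1 w2 ⁻¹' Y ∈ F := hE.tend w1 w2 h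
      obtain ⟨θ, h3, h4⟩ := (F.inter_mem h h2 |> fun h => Filter.nonempty_of_mem h)
      have h5 := h3 0
      have h6 := h4 0
      rw [hT.eqv] at h6
      simp only [zero_mul] at h5 h6
      exact hw (τ θ) (hT.valid θ) 0 0 h5 h6
    · exact h
  have : ∀ i j : ℤ, ∀ᶠ θ in F, act i j θ ∈ Yᶜ := fun i j => hE.tend i j hYc
  have h2 : ∀ᶠ θ in F, ∀ i j : ℤ, act i j θ ∈ Yᶜ := by
    rw [eventually_countable_forall]; intro i
    rw [eventually_countable_forall]; intro j
    exact this i j
  filter_upwards [h2] with θ hθ i j hc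
  apply hθ i j
  intro n
  rw [hT.eqv, add_comm (n*v1), add_comm (n*v2)]
  exact hc n

lemma line (hE : Erg F act) (hT : Eqv act τ) {v1 v2 : ℤ} (hv : v1 ≠ 0 ∨ v2 ≠ 0) {w1 w2 : ℤ}
    {s m e : St} (hsm : s ≠ m)
    (hw : ∀ x : ℤ → ℤ → St, Valid x → ∀ i j, x i j = m → x (i + w1) (j + w2) ≠ m)
    (hnext : ∀ x : ℤ → ℤ → St, Valid x → ∀ i j, (x i j = m ∨ x i j = s) →
      (x (i + v1) (j + v2) = m ∨ x (i + v1) (j + v2) = e))
    (hprev : ∀ x : ℤ → ℤ → St, Valid x → ∀ i j, x i j = m →
      (x (i - v1) (j - v2) = m ∨ x (i - v1) (j - v2) = s)) :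
    ∀ᶠ θ in F, ∀ i j : ℤ, (τ θ i j = m ∨ τ θ i j = s) → ∃ n : ℕ, 1 ≤ n ∧
      (∀ k : ℕ, 1 ≤ k → k < n → τ θ (i + k * v1) (j + k * v2) = m) ∧
      τ θ (i + n * v1) (j + n * v2) = e := by
  filter_upwards [half hE hT hv hsm, bi hE hT hv hw] with θ h1 h2 i j hij
  have hV := hT.valid θ
  by_contra hcon
  push Not at hcon
  -- all later cells are `m`
  have hall : ∀ n : ℕ, 1 ≤ n → τ θ (i + n * v1) (j + n * v2) = m := by
    intro n
    induction n using Nat.strong_induction_on with
    | _ n ih =>
      intro hn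
      have h3 : τ θ (i + (n-1 : ℕ) * v1) (j + (n-1 : ℕ) * v2) = m ∨
          τ θ (i + (n-1 : ℕ) * v1) (j + (n-1 : ℕ) * v2) = s := by
        rcases Nat.eq_or_lt_of_le hn with h | h
        · rw [← h]; simpa using hij
        · exact Or.inl (ih (n-1) (by omega) (by omega))
      have h4 := hnext _ hV _ _ h3
      have e1 : i + ((n-1 : ℕ) : ℤ) * v1 + v1 = i + n * v1 := by
        rw [show ((n-1 : ℕ) : ℤ) = (n:ℤ) - 1 by omega]; ring
      have e2 : j + ((n-1 : ℕ) : ℤ) * v2 + v2 = j + n * v2 := by
        rw [show ((n-1 : ℕ) : ℤ) = (n:ℤ) - 1 by omega]; ring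
      rw [e1, e2] at h4
      rcases h4 with h4 | h4
      · exact h4
      · exfalso
        exact hcon n hn (fun k hk hk' => ih k hk' hk) h4
  rcases hij with hm | hs
  · -- go backwards
    by_cases hb : ∃ k : ℕ, τ θ (i - k * v1) (j - k * v2) ≠ m
    · classical
      have hk := Nat.find_spec hb
      set k := Nat.find hb with hkdef
      have hkpos : 1 ≤ k := by
        by_contra hc
        have : k = 0 := by omega
        rw [this] at hk
        simp at hk
        exact hk hm
      have hk1 : τ θ (i - (k-1 : ℕ) * v1) (j - (k-1 : ℕ) * v2) = m := by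
        by_contra hc
        exact Nat.find_min hb (show k - 1 < k by omega) hc
      have hbefore : ∀ t : ℕ, t < k → τ θ (i - t * v1) (j - t * v2) = m := by
        intro t ht
        by_contra hc
        exact Nat.find_min hb ht hc
      have h3 := hprev _ hV _ _ hk1
      have e1 : i - ((k-1 : ℕ) : ℤ) * v1 - v1 = i - k * v1 := by
        rw [show ((k-1 : ℕ) : ℤ) = (k:ℤ) - 1 by omega]; ring
      have e2 : j - ((k-1 : ℕ) : ℤ) * v2 - v2 = j - k * v2 := by
        rw [show ((k-1 : ℕ) : ℤ) = (k:ℤ) - 1 by omega]; ring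
      rw [e1, e2] at h3
      rcases h3 with h3 | h3
      · exact hk h3
      · apply h1 (i - k * v1) (j - k * v2)
        refine ⟨h3, ?_⟩
        intro n hn
        rcases lt_trichotomy n k with h | h | h
        · have := hbefore (k - n) (by omega)
          rw [show ((k - n : ℕ) : ℤ) = (k:ℤ) - n by omega] at this
          rw [show i - k*v1 + n*v1 = i - (k - n) * v1 by ring,
            show j - k*v2 + n*v2 = j - (k - n) * v2 by ring]
          exact this
        · rw [h]
          rw [show i - k*v1 + k*v1 = i by ring, show j - k*v2 + k*v2 = j by ring]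
          exact hm
        · have := hall (n - k) (by omega)
          rw [show ((n - k : ℕ) : ℤ) = (n:ℤ) - k by omega] at this
          rw [show i - k*v1 + n*v1 = i + (n - k) * v1 by ring,
            show j - k*v2 + n*v2 = j + (n - k) * v2 by ring]
          exact this
    · push Not at hb
      apply h2 i j
      intro n
      rcases lt_trichotomy n 0 with h | h | h
      · have := hb (-n).toNat
        rw [show ((-n).toNat : ℤ) = -n by omega] at this
        rw [show i + n*v1 = i - -n * v1 by ring, show j + n*v2 = j - -n * v2 by ring]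
        exact this
      · rw [h]; simpa using hm
      · have := hall n.toNat (by omega)
        rwa [show (n.toNat : ℤ) = n by omega] at this
  · exact h1 i j ⟨hs, hall⟩

lemma lf_ae (hE : Erg F act) (hT : Eqv act τ) : ∀ᶠ θ in F, LF (τ θ) := by
  -- ten lines
  have bo_f := line hE hT (v1 := 1) (v2 := 0) (w1 := 0) (w2 := -1) (s := c00) (m := bo) (e := c10)
    (Or.inl one_ne_zero) (by simp)
    (fun x hV i j h => by
      have := hV.V (i) (j-1)
      rw [show j - 1 + 1 = j by omega, h] at this
      rw [show i + 0 = i by omega, show j + -1 = j - 1 by omega]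
      intro h'; rw [h'] at this; simp [Vr, swp, Hr] at this)
    (fun x hV i j h => by
      have := hV.H i j
      rw [add_zero]
      rcases h with h | h <;> rw [h] at this <;> revert this <;> cases x (i+1) j <;> simp [Hr])
    (fun x hV i j h => by
      have := hV.H (i-1) j
      rw [show i - 1 + 1 = i by omega, h] at this
      rw [sub_zero]
      revert this; cases x (i-1) j <;> simp [Hr])
  have bo_b := line hE hT (v1 := -1) (v2 := 0) (w1 := 0) (w2 := -1) (s := c10) (m := bo) (e := c00)
    (Or.inl (by norm_num)) (by simp)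
    (fun x hV i j h => by
      have := hV.V (i) (j-1)
      rw [show j - 1 + 1 = j by omega, h] at this
      rw [show i + 0 = i by omega, show j + -1 = j - 1 by omega]
      intro h'; rw [h'] at this; simp [Vr, swp, Hr] at this)
    (fun x hV i j h => by
      have := hV.H (i-1) j
      rw [show i - 1 + 1 = i by omega] at this
      rw [add_zero, show i + -1 = i - 1 by omega]
      rcases h with h | h <;> rw [h] at this <;> revert this <;> cases x (i-1) j <;> simp [Hr])
    (fun x hV i j h => by
      have := hV.H i j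
      rw [sub_zero, show i - -1 = i + 1 by omega]
      rw [h] at this
      revert this; cases x (i+1) j <;> simp [Hr])
  have to_f := line hE hT (v1 := 1) (v2 := 0) (w1 := 0) (w2 := 1) (s := c01) (m := tp) (e := c11)
    (Or.inl one_ne_zero) (by simp)
    (fun x hV i j h => by
      have := hV.V (i) j
      rw [h] at this
      rw [show i + 0 = i by omega]
      intro h'; rw [h'] at this; simp [Vr, swp, Hr] at this)
    (fun x hV i j h => by
      have := hV.H i j
      rw [add_zero]
      rcases h with h | h <;> rw [h] at this <;> revert this <;> cases x (i+1) j <;> simp [Hr])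
    (fun x hV i j h => by
      have := hV.H (i-1) j
      rw [show i - 1 + 1 = i by omega, h] at this
      rw [sub_zero]
      revert this; cases x (i-1) j <;> simp [Hr])
  have to_b := line hE hT (v1 := -1) (v2 := 0) (w1 := 0) (w2 := 1) (s := c11) (m := tp) (e := c01)
    (Or.inl (by norm_num)) (by simp)
    (fun x hV i j h => by
      have := hV.V (i) j
      rw [h] at this
      rw [show i + 0 = i by omega]
      intro h'; rw [h'] at this; simp [Vr, swp, Hr] at this)
    (fun x hV i j h => by
      have := hV.H (i-1) j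
      rw [show i - 1 + 1 = i by omega] at this
      rw [add_zero, show i + -1 = i - 1 by omega]
      rcases h with h | h <;> rw [h] at this <;> revert this <;> cases x (i-1) j <;> simp [Hr])
    (fun x hV i j h => by
      have := hV.H i j
      rw [sub_zero, show i - -1 = i + 1 by omega]
      rw [h] at this
      revert this; cases x (i+1) j <;> simp [Hr])
  have le_f := line hE hT (v1 := 0) (v2 := 1) (w1 := -1) (w2 := 0) (s := c00) (m := le) (e := c01)
    (Or.inr one_ne_zero) (by simp)
    (fun x hV i j h => by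
      have := hV.H (i-1) j
      rw [show i - 1 + 1 = i by omega, h] at this
      rw [show j + 0 = j by omega, show i + -1 = i - 1 by omega]
      intro h'; rw [h'] at this; simp [Vr, swp, Hr] at this)
    (fun x hV i j h => by
      have := hV.V i j
      rw [add_zero]
      rcases h with h | h <;> rw [h] at this <;> revert this <;> cases x i (j+1) <;>
        simp [Vr, swp, Hr])
    (fun x hV i j h => by
      have := hV.V i (j-1)
      rw [show j - 1 + 1 = j by omega, h] at this
      rw [sub_zero]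
      revert this; cases x i (j-1) <;> simp [Vr, swp, Hr])
  have le_b := line hE hT (v1 := 0) (v2 := -1) (w1 := -1) (w2 := 0) (s := c01) (m := le) (e := c00)
    (Or.inr (by norm_num)) (by simp)
    (fun x hV i j h => by
      have := hV.H (i-1) j
      rw [show i - 1 + 1 = i by omega, h] at this
      rw [show j + 0 = j by omega, show i + -1 = i - 1 by omega]
      intro h'; rw [h'] at this; simp [Vr, swp, Hr] at this)
    (fun x hV i j h => by
      have := hV.V i (j-1)
      rw [show j - 1 + 1 = j by omega] at this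
      rw [add_zero, show j + -1 = j - 1 by omega]
      rcases h with h | h <;> rw [h] at this <;> revert this <;> cases x i (j-1) <;>
        simp [Vr, swp, Hr])
    (fun x hV i j h => by
      have := hV.V i j
      rw [sub_zero, show j - -1 = j + 1 by omega]
      rw [h] at this
      revert this; cases x i (j+1) <;> simp [Vr, swp, Hr])
  have ri_f := line hE hT (v1 := 0) (v2 := 1) (w1 := 1) (w2 := 0) (s := c10) (m := ri) (e := c11)
    (Or.inr one_ne_zero) (by simp)
    (fun x hV i j h => by
      have := hV.H i j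
      rw [h] at this
      rw [show j + 0 = j by omega]
      intro h'; rw [h'] at this; simp [Vr, swp, Hr] at this)
    (fun x hV i j h => by
      have := hV.V i j
      rw [add_zero]
      rcases h with h | h <;> rw [h] at this <;> revert this <;> cases x i (j+1) <;>
        simp [Vr, swp, Hr])
    (fun x hV i j h => by
      have := hV.V i (j-1)
      rw [show j - 1 + 1 = j by omega, h] at this
      rw [sub_zero]
      revert this; cases x i (j-1) <;> simp [Vr, swp, Hr])
  have ri_b := line hE hT (v1 := 0) (v2 := -1) (w1 := 1) (w2 := 0) (s := c11) (m := ri) (e := c10)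
    (Or.inr (by norm_num)) (by simp)
    (fun x hV i j h => by
      have := hV.H i j
      rw [h] at this
      rw [show j + 0 = j by omega]
      intro h'; rw [h'] at this; simp [Vr, swp, Hr] at this)
    (fun x hV i j h => by
      have := hV.V i (j-1)
      rw [show j - 1 + 1 = j by omega] at this
      rw [add_zero, show j + -1 = j - 1 by omega]
      rcases h with h | h <;> rw [h] at this <;> revert this <;> cases x i (j-1) <;>
        simp [Vr, swp, Hr])
    (fun x hV i j h => by
      have := hV.V i j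
      rw [sub_zero, show j - -1 = j + 1 by omega]
      rw [h] at this
      revert this; cases x i (j+1) <;> simp [Vr, swp, Hr])
  have di_f := line hE hT (v1 := 1) (v2 := 1) (w1 := 1) (w2 := 0) (s := c00) (m := di) (e := c11)
    (Or.inl one_ne_zero) (by simp)
    (fun x hV i j h => by
      have := hV.H i j
      rw [h] at this
      rw [show j + 0 = j by omega]
      intro h'; rw [h'] at this; simp [Vr, swp, Hr] at this)
    (fun x hV i j h => by
      have := hV.D i j
      rcases h with h | h <;> rw [h] at this <;> revert this <;> cases x (i+1) (j+1) <;>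
        simp [Dr])
    (fun x hV i j h => by
      have := hV.D (i-1) (j-1)
      rw [show j - 1 + 1 = j by omega, show i - 1 + 1 = i by omega, h] at this
      revert this; cases x (i-1) (j-1) <;> simp [Dr])
  have di_b := line hE hT (v1 := -1) (v2 := -1) (w1 := 1) (w2 := 0) (s := c11) (m := di) (e := c00)
    (Or.inl (by norm_num)) (by simp)
    (fun x hV i j h => by
      have := hV.H i j
      rw [h] at this
      rw [show j + 0 = j by omega]
      intro h'; rw [h'] at this; simp [Vr, swp, Hr] at this)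
    (fun x hV i j h => by
      have := hV.D (i-1) (j-1)
      rw [show j - 1 + 1 = j by omega, show i - 1 + 1 = i by omega] at this
      rw [show j + -1 = j - 1 by omega, show i + -1 = i - 1 by omega]
      rcases h with h | h <;> rw [h] at this <;> revert this <;> cases x (i-1) (j-1) <;>
        simp [Dr])
    (fun x hV i j h => by
      have := hV.D i j
      rw [show i - -1 = i + 1 by omega, show j - -1 = j + 1 by omega]
      rw [h] at this
      revert this; cases x (i+1) (j+1) <;> simp [Dr])
  filter_upwards [bo_f, bo_b, to_f, to_b, le_f, le_b, ri_f, ri_b, di_f, di_b] with θ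
    a1 a2 a3 a4 a5 a6 a7 a8 a9 a10
  refine ⟨?_, ?_, ?_, ?_, ?_, ?_, ?_, ?_, ?_, ?_⟩
  · intro i j h
    obtain ⟨n, hn, h1, h2⟩ := a1 i j (Or.inr h)
    simp only [mul_one, mul_zero, add_zero] at h1 h2
    refine ⟨i + n, by omega, ?_, h2⟩
    intro k hk hk'
    have := h1 (k - i).toNat (by omega) (by omega)
    rwa [show i + ((k-i).toNat : ℤ) = k by omega] at this
  · intro i j h
    obtain ⟨n, hn, h1, h2⟩ := a2 i j h
    simp only [mul_one, mul_zero, add_zero, mul_neg] at h1 h2
    refine ⟨i + -n, by omega, ?_, h2⟩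
    intro k hk hk'
    have := h1 (i - k).toNat (by omega) (by omega)
    rwa [show i + -((i-k).toNat : ℤ) = k by omega] at this
  · intro i j h
    obtain ⟨n, hn, h1, h2⟩ := a7 i j (Or.inr h)
    simp only [mul_one, mul_zero, add_zero] at h1 h2
    refine ⟨j + n, by omega, ?_, h2⟩
    intro k hk hk'
    have := h1 (k - j).toNat (by omega) (by omega)
    rwa [show j + ((k-j).toNat : ℤ) = k by omega] at this
  · intro i j h
    obtain ⟨n, hn, h1, h2⟩ := a8 i j h
    simp only [mul_one, mul_zero, add_zero, mul_neg] at h1 h2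
    refine ⟨j + -n, by omega, ?_, h2⟩
    intro k hk hk'
    have := h1 (j - k).toNat (by omega) (by omega)
    rwa [show j + -((j-k).toNat : ℤ) = k by omega] at this
  · intro i j h
    obtain ⟨n, hn, h1, h2⟩ := a5 i j (Or.inr h)
    simp only [mul_one, mul_zero, add_zero] at h1 h2
    refine ⟨j + n, by omega, ?_, h2⟩
    intro k hk hk'
    have := h1 (k - j).toNat (by omega) (by omega)
    rwa [show j + ((k-j).toNat : ℤ) = k by omega] at this
  · intro i j h
    obtain ⟨n, hn, h1, h2⟩ := a6 i j h
    simp only [mul_one, mul_zero, add_zero, mul_neg] at h1 h2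
    refine ⟨j + -n, by omega, ?_, h2⟩
    intro k hk hk'
    have := h1 (j - k).toNat (by omega) (by omega)
    rwa [show j + -((j-k).toNat : ℤ) = k by omega] at this
  · intro i j h
    obtain ⟨n, hn, h1, h2⟩ := a3 i j (Or.inr h)
    simp only [mul_one, mul_zero, add_zero] at h1 h2
    refine ⟨i + n, by omega, ?_, h2⟩
    intro k hk hk'
    have := h1 (k - i).toNat (by omega) (by omega)
    rwa [show i + ((k-i).toNat : ℤ) = k by omega] at this
  · intro i j h
    obtain ⟨n, hn, h1, h2⟩ := a4 i j h
    simp only [mul_one, mul_zero, add_zero, mul_neg] at h1 h2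
    refine ⟨i + -n, by omega, ?_, h2⟩
    intro k hk hk'
    have := h1 (i - k).toNat (by omega) (by omega)
    rwa [show i + -((i-k).toNat : ℤ) = k by omega] at this
  · intro i j h
    obtain ⟨n, hn, h1, h2⟩ := a9 i j (Or.inr h)
    simp only [mul_one] at h1 h2
    refine ⟨n, by omega, ?_, h2⟩
    intro k hk hk'
    have := h1 k.toNat (by omega) (by omega)
    rwa [show (k.toNat : ℤ) = k by omega] at this
  · intro i j h
    obtain ⟨n, hn, h1, h2⟩ := a10 i j h
    simp only [mul_one, mul_neg] at h1 h2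
    refine ⟨n, by omega, ?_, ?_⟩
    · intro k hk hk'
      have := h1 k.toNat (by omega) (by omega)
      rwa [show (k.toNat : ℤ) = k by omega] at this
    · exact h2

lemma obj_meas (hT : Eqv act τ) (i j r : ℤ) : MeasurableSet {θ | Obj (τ θ) i j r} := by
  have : {θ | Obj (τ θ) i j r} = {θ | 0 < r} ∩ {θ | τ θ i j = c00} ∩
      (⋂ k : ℤ, ⋂ (_ : i < k), ⋂ (_ : k < i + r), {θ | τ θ k j = bo}) ∩
      {θ | τ θ (i+r) j = c10} ∩
      (⋂ k : ℤ, ⋂ (_ : j < k), ⋂ (_ : k < j + r), {θ | τ θ (i+r) k = ri}) ∩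
      {θ | τ θ (i+r) (j+r) = c11} ∩
      (⋂ k : ℤ, ⋂ (_ : 0 < k), ⋂ (_ : k < r), {θ | τ θ (i+k) (j+k) = di}) ∩
      (⋂ k : ℤ, ⋂ (_ : j < k), ⋂ (_ : k < j + r), {θ | τ θ i k = le}) ∩
      {θ | τ θ i (j+r) = c01} ∩
      (⋂ k : ℤ, ⋂ (_ : i < k), ⋂ (_ : k < i + r), {θ | τ θ k (j+r) = tp}) := by
    ext θ
    simp only [Set.mem_setOf_eq, Set.mem_inter_iff, Set.mem_iInter]
    constructor
    · intro h
      exact ⟨⟨⟨⟨⟨⟨⟨⟨⟨h.pos, h.c00⟩, h.bo⟩, h.c10⟩, h.ri⟩, h.c11⟩, h.di⟩, h.le⟩, h.c01⟩, h.tp⟩
    · rintro ⟨⟨⟨⟨⟨⟨⟨⟨⟨h1, h2⟩, h3⟩, h4⟩, h5⟩, h6⟩, h7⟩, h8⟩, h9⟩, h10⟩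
      exact ⟨h1, h2, h3, h4, h5, h6, h7, h8, h9, h10⟩
  rw [this]
  refine (((((((((MeasurableSet.const _).inter (hT.meas _ _ _)).inter ?_).inter
    (hT.meas _ _ _)).inter ?_).inter (hT.meas _ _ _)).inter ?_).inter ?_).inter
    (hT.meas _ _ _)).inter ?_ <;>
  exact MeasurableSet.iInter fun k => MeasurableSet.iInter fun _ => MeasurableSet.iInter fun _ =>
    hT.meas _ _ _

lemma obj_shift (hT : Eqv act τ) (a b : ℤ) (θ : K) (i j r : ℤ) :
    Obj (τ (act a b θ)) i j r ↔ Obj (τ θ) (i + a) (j + b) r := by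
  constructor
  · intro h
    refine ⟨h.pos, ?_, ?_, ?_, ?_, ?_, ?_, ?_, ?_, ?_⟩
    · rw [← hT.eqv]; exact h.c00
    · intro k h1 h2
      have := h.bo (k - a) (by omega) (by omega)
      rwa [hT.eqv, show k - a + a = k by omega] at this
    · have := h.c10
      rwa [hT.eqv, show i + r + a = i + a + r by omega] at this
    · intro k h1 h2
      have := h.ri (k - b) (by omega) (by omega)
      rwa [hT.eqv, show k - b + b = k by omega, show i + r + a = i + a + r by omega] at this
    · have := h.c11
      rwa [hT.eqv, show i + r + a = i + a + r by omega, show j + r + b = j + b + r by omega] at this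
    · intro k h1 h2
      have := h.di k h1 h2
      rwa [hT.eqv, show i + k + a = i + a + k by omega, show j + k + b = j + b + k by omega] at this
    · intro k h1 h2
      have := h.le (k - b) (by omega) (by omega)
      rwa [hT.eqv, show k - b + b = k by omega] at this
    · have := h.c01
      rwa [hT.eqv, show j + r + b = j + b + r by omega] at this
    · intro k h1 h2
      have := h.tp (k - a) (by omega) (by omega)
      rwa [hT.eqv, show k - a + a = k by omega, show j + r + b = j + b + r by omega] at this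
  · intro h
    refine ⟨h.pos, ?_, ?_, ?_, ?_, ?_, ?_, ?_, ?_, ?_⟩
    · rw [hT.eqv]; exact h.c00
    · intro k h1 h2
      rw [hT.eqv]
      exact h.bo (k + a) (by omega) (by omega)
    · rw [hT.eqv, show i + r + a = i + a + r by omega]
      exact h.c10
    · intro k h1 h2
      rw [hT.eqv, show i + r + a = i + a + r by omega]
      exact h.ri (k + b) (by omega) (by omega)
    · rw [hT.eqv, show i + r + a = i + a + r by omega, show j + r + b = j + b + r by omega]
      exact h.c11
    · intro k h1 h2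
      rw [hT.eqv, show i + k + a = i + a + k by omega, show j + k + b = j + b + k by omega]
      exact h.di k h1 h2
    · intro k h1 h2
      rw [hT.eqv]
      exact h.le (k + b) (by omega) (by omega)
    · rw [hT.eqv, show j + r + b = j + b + r by omega]
      exact h.c01
    · intro k h1 h2
      rw [hT.eqv, show j + r + b = j + b + r by omega]
      exact h.tp (k + a) (by omega) (by omega)

lemma inObj_shift (hT : Eqv act τ) (a b : ℤ) (θ : K) (p q : ℤ) :
    InObj (τ (act a b θ)) p q ↔ InObj (τ θ) (p + a) (q + b) := by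
  constructor
  · rintro ⟨i, j, r, h1, h2⟩
    refine ⟨i + a, j + b, r, (obj_shift hT a b θ i j r).1 h1, ?_⟩
    unfold InSq at h2 ⊢; omega
  · rintro ⟨i, j, r, h1, h2⟩
    refine ⟨i - a, j - b, r, (obj_shift hT a b θ _ _ r).2 (by simpa using h1), ?_⟩
    unfold InSq at h2 ⊢; omega

lemma inObj_meas (hT : Eqv act τ) (p q : ℤ) : MeasurableSet {θ | InObj (τ θ) p q} := by
  have : {θ | InObj (τ θ) p q} = ⋃ i : ℤ, ⋃ j : ℤ, ⋃ r : ℤ,
      ({θ | Obj (τ θ) i j r} ∩ {θ | InSq i j r p q}) := by
    ext θ; simp [InObj]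
  rw [this]
  exact MeasurableSet.iUnion fun i => MeasurableSet.iUnion fun j => MeasurableSet.iUnion fun r =>
    (obj_meas hT i j r).inter (MeasurableSet.const _)

lemma fd_shift (hT : Eqv act τ) (a b : ℤ) (θ : K) (p q : ℤ)
    (h : FD (τ (act a b θ)) p q) : FD (τ θ) (p + a) (q + b) := by
  unfold FD at *
  refine (h.image (fun t : ℤ × ℤ × ℤ => (t.1 + a, t.2.1 + b, t.2.2))).subset ?_
  rintro ⟨i, j, r⟩ ⟨h1, h2⟩
  refine ⟨(i - a, j - b, r), ⟨(obj_shift hT a b θ _ _ r).2 (by simpa using h1), ?_⟩, by simp⟩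
  simp only [InSq] at h2 ⊢
  omega

/-- The abstract nonexistence theorem. -/
theorem no_finite_depth (hE : Erg F act) (hT : Eqv act τ) (hf : ∀ᶠ θ in F, FD (τ θ) 0 0) :
    False := by
  have hf' : ∀ᶠ θ in F, ∀ p q : ℤ, FD (τ θ) p q := by
    rw [eventually_countable_forall]; intro p
    rw [eventually_countable_forall]; intro q
    have := hE.tend p q hf
    filter_upwards [this] with θ hθ
    have := fd_shift hT p q θ 0 0 hθ
    simpa using this
  have hL := lf_ae hE hT
  set P : Bool → Set K := fun b => {θ | ∃ n : ℤ, ¬ InObj (τ θ) n 0 ∧ Ph (τ θ) b n 0} with hP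
  have hPm : ∀ b, MeasurableSet (P b) := by
    intro b
    have : P b = ⋃ n : ℤ, ({θ | InObj (τ θ) n 0}ᶜ ∩ {θ | τ θ n 0 = w (xor b (par n 0))}) := by
      ext θ; simp [hP, Ph]
    rw [this]
    exact MeasurableSet.iUnion fun n => (inObj_meas hT n 0).compl.inter (hT.meas _ _ _)
  have hPs : ∀ b, act 1 0 ⁻¹' P b = P (!b) := by
    intro b
    ext θ
    simp only [Set.mem_preimage, hP, Set.mem_setOf_eq, inObj_shift hT, Ph, hT.eqv]
    have hx : ∀ n : ℤ, xor b (par n 0) = xor (!b) (par (n+1) 0) := by
      intro n; rw [par_right]; cases b <;> cases par n 0 <;> rfl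
    constructor
    · rintro ⟨n, h1, h2⟩
      refine ⟨n+1, by simpa using h1, ?_⟩
      rw [← hx]; simpa using h2
    · rintro ⟨n, h1, h2⟩
      refine ⟨n-1, by simpa using h1, ?_⟩
      rw [hx]; simpa using h2
  have hact : ∀ b, act 2 0 ⁻¹' P b = P b := by
    intro b
    ext θ
    simp only [Set.mem_preimage, hP, Set.mem_setOf_eq, inObj_shift hT, Ph, hT.eqv]
    have hx : ∀ n : ℤ, xor b (par n 0) = xor b (par (n+2) 0) := by
      intro n; rw [show n + 2 = n + 1 + 1 by ring, par_right, par_right]
      cases b <;> cases par n 0 <;> rfl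
    constructor
    · rintro ⟨n, h1, h2⟩
      refine ⟨n+2, by simpa using h1, ?_⟩
      rw [← hx]; simpa using h2
    · rintro ⟨n, h1, h2⟩
      refine ⟨n-2, by simpa using h1, ?_⟩
      rw [hx]; simpa using h2
  have hcover : P true ∪ P false ∈ F := by
    filter_upwards [hL, hf'] with θ h1 h2
    obtain ⟨p, b, h3, h4⟩ := row_nonempty (hT.valid θ) h1 h2
    cases b
    · right; exact ⟨p, h3, h4⟩
    · left; exact ⟨p, h3, h4⟩
  have hdisj : (P true ∩ P false)ᶜ ∈ F := by
    filter_upwards [hL, hf'] with θ h1 h2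
    rintro ⟨⟨p, h3, h4⟩, p', h5, h6⟩
    rcases le_total p p' with h | h
    · have := row_phase (hT.valid θ) h1 h2 (p' - p).toNat p p' h (by omega) h3 h5 h4
      exact absurd (Ph_unique this h6) (by simp)
    · have := row_phase (hT.valid θ) h1 h2 (p - p').toNat p' p h (by omega) h5 h3 h6
      exact absurd (Ph_unique this h4) (by simp)
  rcases hE.erg 2 0 (by norm_num) (P true) (hPm true) (hact true) with h | h
  · have h2 : P false ∈ F := by
      have := hE.tend 1 0 h
      have h3 : act 1 0 ⁻¹' P true ∈ F := this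
      rwa [hPs] at h3
    obtain ⟨θ, h3, h4⟩ := Filter.nonempty_of_mem (F.inter_mem (F.inter_mem h h2) hdisj)
    exact h4 h3
  · have h2 : P false ∈ F := by
      filter_upwards [h, hcover] with θ h3 h4
      rcases h4 with h4 | h4
      · exact absurd h4 h3
      · exact h4
    have h3 : act 1 0 ⁻¹' P false ∈ F := hE.tend 1 0 h2
    rw [hPs] at h3
    obtain ⟨θ, h4, h5⟩ := Filter.nonempty_of_mem (F.inter_mem h h3)
    exact h4 h5

end

end MP6540
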