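import Pool.Agent.T6.H73.SFT.Embed

/-!
From systems of nested squares to equivariant maps.
-/

set_option linter.unusedSimpArgs false

namespace MP6540

open St Filter Topology MeasureTheory
open Pool.Agent.T6.H73.SFT

variable {d : ℕ}

lemma shift_shift {A : Type} (g h : Zd d) (x : Zd d → A) : shift g (shift h x) = shift (g + h) x := by
  funext k; simp [shift, add_assoc]

lemma shift_zero {A : Type} (x : Zd d → A) : shift 0 x = x := by
  funext k; simp [shift]

/-- the action on the free part -/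
def fsh (g : Zd d) (x : freePart d) : freePart d := ⟨shift g x.1, by
  intro h hh he
  apply x.2 h hh
  rw [shift_shift] at he
  have := congrArg (shift (-g)) he
  rw [shift_shift, shift_shift] at this
  rw [show -g + (h + g) = h by abel, neg_add_cancel, shift_zero] at this
  exact this⟩

lemma fsh_fsh (g h : Zd d) (x : freePart d) : fsh g (fsh h x) = fsh (g + h) x :=
  Subtype.ext (shift_shift g h x.1)

lemma fsh_zero (x : freePart d) : fsh 0 x = x := Subtype.ext (shift_zero x.1)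

lemma fsh_inj {g h : Zd d} {x : freePart d} (e : fsh g x = fsh h x) : g = h := by
  by_contra hne
  have h1 : shift g x.1 = shift h x.1 := congrArg Subtype.val e
  have h2 := congrArg (shift (-h)) h1
  rw [shift_shift, shift_shift, neg_add_cancel, shift_zero] at h2
  exact x.2 (-h + g) (fun h0 => hne (by rw [← sub_eq_zero]; rw [← h0]; abel)) h2

/-- moves in the first two coordinates -/
def mv (a b : ℤ) (x : freePart d) : freePart d := fsh (em a b) x

lemma mv_mv (a b a' b' : ℤ) (x : freePart d) : mv a b (mv a' b' x) = mv (a + a') (b + b') x := by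
  unfold mv; rw [fsh_fsh, em_add]

lemma mv_zero (x : freePart d) : mv 0 0 x = x := by
  unfold mv; rw [em_zero, fsh_zero]

/-! ### Pictures -/

def pic (L i j : ℤ) : St :=
  if i = 0 then (if j = 0 then c00 else if j = L then c01 else le)
  else if i = L then (if j = 0 then c10 else if j = L then c11 else ri)
  else if j = 0 then bo else if j = L then tp else if i = j then di else w (par i j)

def mark (L i j : ℤ) : Bool := decide (0 < i ∧ i < j ∧ j < L)

lemma par_right' (p q : ℤ) : par p q ≠ par (p+1) q := by rw [par_right]; cases par p q <;> simp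
lemma par_up' (p q : ℤ) : par p q ≠ par p (q+1) := by rw [par_up]; cases par p q <;> simp

lemma pic_H {L i j : ℤ} (hL : 1 ≤ L) (h1 : 0 ≤ i) (h2 : i + 1 ≤ L) (h3 : 0 ≤ j) (h4 : j ≤ L) :
    Hr (pic L i j) (pic L (i+1) j) = true := by
  unfold pic
  have := par_right' i j
  split_ifs <;> first | omega | (simp [Hr]; done) | (simp only [Hr, bne_iff_ne]; exact this)

lemma pic_V {L i j : ℤ} (hL : 1 ≤ L) (h1 : 0 ≤ i) (h2 : i ≤ L) (h3 : 0 ≤ j) (h4 : j + 1 ≤ L) :
    Vr (pic L i j) (pic L i (j+1)) = true := by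
  unfold pic
  have := par_up' i j
  split_ifs <;> first | omega | (simp [Vr, swp, Hr]; done) | (simp only [Vr, swp, Hr, bne_iff_ne]; exact this)

lemma pic_D {L i j : ℤ} (hL : 1 ≤ L) (h1 : 0 ≤ i) (h2 : i + 1 ≤ L) (h3 : 0 ≤ j) (h4 : j + 1 ≤ L) :
    Dr (pic L i j) (pic L (i+1) (j+1)) = true := by
  unfold pic
  split_ifs <;> first | omega | (simp [Dr]; done)

lemma pic_A {L i j : ℤ} (hL : 1 ≤ L) (h1 : 0 ≤ i) (h2 : i + 1 ≤ L) (h3 : 0 ≤ j) (h4 : j + 1 ≤ L) :
    Ar (pic L (i+1) j) (pic L i (j+1)) = true := by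
  unfold pic
  split_ifs <;> first | omega | (simp [Ar]; done)

lemma pic_inner {L i j : ℤ} (h1 : 0 < i) (h2 : i < L) (h3 : 0 < j) (h4 : j < L) (h5 : i ≠ j) :
    ∃ c, pic L i j = w c := by
  unfold pic
  rw [if_neg (by omega), if_neg (by omega), if_neg (by omega), if_neg (by omega), if_neg (by omega)]
  exact ⟨_, rfl⟩

lemma Hr_to_w {s : St} (hs : s = ri ∨ s = c10 ∨ s = c11) (c : Bool) : Hr s (w c) = true := by
  rcases hs with rfl | rfl | rfl <;> rfl

lemma Hr_from_w {s : St} (hs : s = le ∨ s = c00 ∨ s = c01) (c : Bool) : Hr (w c) s = true := by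
  rcases hs with rfl | rfl | rfl <;> rfl

lemma Vr_to_w {s : St} (hs : s = tp ∨ s = c01 ∨ s = c11) (c : Bool) : Vr s (w c) = true := by
  rcases hs with rfl | rfl | rfl <;> rfl

lemma Vr_from_w {s : St} (hs : s = bo ∨ s = c00 ∨ s = c10) (c : Bool) : Vr (w c) s = true := by
  rcases hs with rfl | rfl | rfl <;> rfl

lemma Dr_to_w {s : St} (hs : s ≠ c00 ∧ s ≠ di) (c : Bool) : Dr s (w c) = true := by
  cases s <;> simp_all [Dr]

lemma Dr_from_w {s : St} (hs : s ≠ c11 ∧ s ≠ di) (c : Bool) : Dr (w c) s = true := by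
  cases s <;> simp_all [Dr]

lemma Ar_to_w (s : St) (c : Bool) : Ar s (w c) = true := by
  cases s <;> simp_all [Ar]

lemma Ar_from_w (s : St) (c : Bool) : Ar (w c) s = true := by
  cases s <;> simp_all [Ar]

lemma pic_right {L j : ℤ} (hL : 1 ≤ L) : pic L L j = ri ∨ pic L L j = c10 ∨ pic L L j = c11 := by
  unfold pic
  rw [if_neg (by omega), if_pos rfl]
  split_ifs <;> simp

lemma pic_left {L j : ℤ} : pic L 0 j = le ∨ pic L 0 j = c00 ∨ pic L 0 j = c01 := by
  unfold pic
  rw [if_pos rfl]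
  split_ifs <;> simp

lemma pic_top {L i : ℤ} (hL : 1 ≤ L) : pic L i L = tp ∨ pic L i L = c01 ∨ pic L i L = c11 := by
  unfold pic
  split_ifs <;> first | omega | simp

lemma pic_bot {L i : ℤ} (hL : 1 ≤ L) : pic L i 0 = bo ∨ pic L i 0 = c00 ∨ pic L i 0 = c10 := by
  unfold pic
  split_ifs <;> first | omega | simp

lemma pic_ne1 {L i j : ℤ} (hL : 1 ≤ L) (h : i = L ∨ j = L) : pic L i j ≠ c00 ∧ pic L i j ≠ di := by
  unfold pic
  constructor <;> split_ifs <;> first | omega | simp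

lemma pic_ne2 {L i j : ℤ} (hL : 1 ≤ L) (h : i = 0 ∨ j = 0) : pic L i j ≠ c11 ∧ pic L i j ≠ di := by
  unfold pic
  constructor <;> split_ifs <;> first | omega | simp

/-! ### Square systems -/

structure Sys (gray : Bool) (L : ℕ → ℤ) (D : ℕ → Set (freePart d)) : Prop where
  L1 : ∀ k, 1 ≤ L k
  C1 : ∀ k x a b, x ∈ D k → mv a b x ∈ D k → |a| ≤ L k + 1 → |b| ≤ L k + 1 → a = 0 ∧ b = 0
  C2 : ∀ k l, k < l → ∀ x, x ∈ D k → ∀ i j i' j', -1 ≤ i → i ≤ L k + 1 → -1 ≤ j → j ≤ L k + 1 →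
    0 ≤ i' → i' ≤ L l → 0 ≤ j' → j' ≤ L l → mv (i - i') (j - j') x ∈ D l →
    (0 < i' ∧ i' < L l ∧ 0 < j' ∧ j' < L l ∧ i' ≠ j' ∧ (gray = true → j' < i'))

variable {gray : Bool} {L : ℕ → ℤ} {D : ℕ → Set (freePart d)}

def Cov (L : ℕ → ℤ) (D : ℕ → Set (freePart d)) (x : freePart d) (k : ℕ) (i j : ℤ) : Prop :=
  0 ≤ i ∧ i ≤ L k ∧ 0 ≤ j ∧ j ≤ L k ∧ mv (-i) (-j) x ∈ D k

def Sel (L : ℕ → ℤ) (D : ℕ → Set (freePart d)) (x : freePart d) (k : ℕ) (i j : ℤ) : Prop :=
  Cov L D x k i j ∧ ∀ k' < k, ∀ i' j', ¬ Cov L D x k' i' j'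

lemma sel_exists {x : freePart d} (h : ∃ k i j, Cov L D x k i j) : ∃ k i j, Sel L D x k i j := by
  classical
  have := Nat.find_spec h
  obtain ⟨i, j, hc⟩ := this
  refine ⟨_, i, j, hc, ?_⟩
  intro k' hk' i' j' hc'
  exact Nat.find_min h hk' ⟨i', j', hc'⟩

lemma sel_unique (hS : Sys gray L D) {x : freePart d} {k k' i j i' j'} (h : Sel L D x k i j)
    (h' : Sel L D x k' i' j') : k = k' ∧ i = i' ∧ j = j' := by
  have hk : k = k' := by
    rcases lt_trichotomy k k' with a | a | a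
    · exact absurd h.1 (h'.2 k a _ _)
    · exact a
    · exact absurd h'.1 (h.2 k' a _ _)
  subst hk
  obtain ⟨⟨h1, h2, h3, h4, h5⟩, -⟩ := h
  obtain ⟨⟨g1, g2, g3, g4, g5⟩, -⟩ := h'
  have h6 : mv (i - i') (j - j') (mv (-i) (-j) x) ∈ D k := by
    rw [mv_mv]
    rwa [show i - i' + -i = -i' by ring, show j - j' + -j = -j' by ring]
  have := hS.C1 k _ _ _ h5 h6 (by rw [abs_le]; omega) (by rw [abs_le]; omega)
  omega

/-- the three possibilities for neighbouring cells -/
lemma adj (hS : Sys gray L D) {x : freePart d} {a b : ℤ} (ha : |a| ≤ 1) (hb : |b| ≤ 1)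
    {k k' i j i' j'} (h : Sel L D x k i j) (h' : Sel L D (mv a b x) k' i' j') :
    (k = k' ∧ i' = i + a ∧ j' = j + b) ∨
    (k < k' ∧ ¬ (0 ≤ i + a ∧ i + a ≤ L k ∧ 0 ≤ j + b ∧ j + b ≤ L k) ∧
      (0 < i' ∧ i' < L k' ∧ 0 < j' ∧ j' < L k' ∧ i' ≠ j' ∧ (gray = true → j' < i'))) ∨
    (k' < k ∧ ¬ (0 ≤ i' - a ∧ i' - a ≤ L k' ∧ 0 ≤ j' - b ∧ j' - b ≤ L k') ∧
      (0 < i ∧ i < L k ∧ 0 < j ∧ j < L k ∧ i ≠ j ∧ (gray = true → j < i))) := by
  rw [abs_le] at ha hb
  obtain ⟨⟨h1, h2, h3, h4, h5⟩, h6⟩ := h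
  obtain ⟨⟨g1, g2, g3, g4, g5⟩, g6⟩ := h'
  rw [mv_mv] at g5
  rcases lt_trichotomy k k' with hk | hk | hk
  · right; left
    refine ⟨hk, ?_, ?_⟩
    · rintro ⟨e1, e2, e3, e4⟩
      apply g6 k hk (i + a) (j + b)
      refine ⟨e1, e2, e3, e4, ?_⟩
      rw [mv_mv]
      rwa [show -(i + a) + a = -i by ring, show -(j + b) + b = -j by ring]
    · apply hS.C2 k k' hk _ h5 (i + a) (j + b) i' j' (by omega) (by omega) (by omega) (by omega)
        g1 g2 g3 g4
      rw [mv_mv]
      rwa [show i + a - i' + -i = -i' + a by ring, show j + b - j' + -j = -j' + b by ring]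
  · left
    subst hk
    have h7 : mv (i + a - i') (j + b - j') (mv (-i) (-j) x) ∈ D k := by
      rw [mv_mv]
      rwa [show i + a - i' + -i = -i' + a by ring, show j + b - j' + -j = -j' + b by ring]
    have := hS.C1 k _ _ _ h5 h7 (by rw [abs_le]; omega) (by rw [abs_le]; omega)
    exact ⟨rfl, by omega, by omega⟩
  · right; right
    refine ⟨hk, ?_, ?_⟩
    · rintro ⟨e1, e2, e3, e4⟩
      apply h6 k' hk (i' - a) (j' - b)
      refine ⟨e1, e2, e3, e4, ?_⟩
      rwa [show -(i' - a) = -i' + a by ring, show -(j' - b) = -j' + b by ring]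
    · apply hS.C2 k' k hk _ g5 (i' - a) (j' - b) i j (by omega) (by omega) (by omega) (by omega)
        h1 h2 h3 h4
      rw [mv_mv]
      rwa [show i' - a - i + (-i' + a) = -i by ring, show j' - b - j + (-j' + b) = -j by ring]

open Classical in
noncomputable def sg (L : ℕ → ℤ) (D : ℕ → Set (freePart d)) (x : freePart d) : St × Bool :=
  if h : ∃ t : ℕ × ℤ × ℤ, Sel L D x t.1 t.2.1 t.2.2 then
    (pic (L h.choose.1) h.choose.2.1 h.choose.2.2, mark (L h.choose.1) h.choose.2.1 h.choose.2.2)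
  else (le, false)

lemma sg_eq (hS : Sys gray L D) {x : freePart d} {k i j} (h : Sel L D x k i j) :
    sg L D x = (pic (L k) i j, mark (L k) i j) := by
  have hex : ∃ t : ℕ × ℤ × ℤ, Sel L D x t.1 t.2.1 t.2.2 := ⟨(k, i, j), h⟩
  unfold sg
  rw [dif_pos hex]
  obtain ⟨e1, e2, e3⟩ := sel_unique hS hex.choose_spec h
  rw [e1, e2, e3]

lemma mv_meas (a b : ℤ) : Measurable (mv a b : freePart d → freePart d) := by
  unfold mv fsh
  apply Measurable.subtype_mk
  rw [measurable_pi_iff]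
  intro g
  exact (measurable_pi_apply (g + em a b)).comp measurable_subtype_coe

lemma fsh_meas (g : Zd d) : Measurable (fsh g : freePart d → freePart d) := by
  unfold fsh
  apply Measurable.subtype_mk
  rw [measurable_pi_iff]
  intro h
  exact (measurable_pi_apply (h + g)).comp measurable_subtype_coe

lemma cov_meas (hD : ∀ k, MeasurableSet (D k)) (k i j) : MeasurableSet {x | Cov L D x k i j} := by
  have : {x | Cov L D x k i j} = {x | 0 ≤ i ∧ i ≤ L k ∧ 0 ≤ j ∧ j ≤ L k} ∩
      mv (-i) (-j) ⁻¹' D k := by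
    ext x; simp [Cov, and_assoc]
  rw [this]
  exact (MeasurableSet.const _).inter (mv_meas _ _ (hD k))

lemma sel_meas (hD : ∀ k, MeasurableSet (D k)) (k i j) : MeasurableSet {x | Sel L D x k i j} := by
  have : {x | Sel L D x k i j} = {x | Cov L D x k i j} ∩
      ⋂ k' : ℕ, ⋂ (_ : k' < k), ⋂ i' : ℤ, ⋂ j' : ℤ, {x | Cov L D x k' i' j'}ᶜ := by
    ext x; simp [Sel]
  rw [this]
  exact (cov_meas hD _ _ _).inter (MeasurableSet.iInter fun _ => MeasurableSet.iInter fun _ =>
    MeasurableSet.iInter fun _ => MeasurableSet.iInter fun _ => (cov_meas hD _ _ _).compl)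

lemma sg_meas (hS : Sys gray L D) (hD : ∀ k, MeasurableSet (D k)) (a : St × Bool) :
    MeasurableSet {x | sg L D x = a} := by
  have : {x | sg L D x = a} =
      (⋃ t : ℕ × ℤ × ℤ, ({x | Sel L D x t.1 t.2.1 t.2.2} ∩
        {_x | (pic (L t.1) t.2.1 t.2.2, mark (L t.1) t.2.1 t.2.2) = a})) ∪
      ((⋃ t : ℕ × ℤ × ℤ, {x | Sel L D x t.1 t.2.1 t.2.2})ᶜ ∩ {_x | (le, false) = a}) := by
    ext x
    simp only [Set.mem_setOf_eq, Set.mem_union, Set.mem_iUnion, Set.mem_inter_iff,
      Set.mem_compl_iff]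
    constructor
    · intro h
      by_cases hex : ∃ t : ℕ × ℤ × ℤ, Sel L D x t.1 t.2.1 t.2.2
      · left
        obtain ⟨t, ht⟩ := hex
        exact ⟨t, ht, by rw [← h, sg_eq hS ht]⟩
      · right
        refine ⟨hex, ?_⟩
        rw [← h]; unfold sg; rw [dif_neg hex]
    · rintro (⟨t, ht, h⟩ | ⟨hex, h⟩)
      · rw [sg_eq hS ht, h]
      · unfold sg; rw [dif_neg hex, h]
  rw [this]
  refine (MeasurableSet.iUnion fun t => (sel_meas hD _ _ _).inter (MeasurableSet.const _)).union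
    ((MeasurableSet.iUnion fun t => sel_meas hD _ _ _).compl.inter (MeasurableSet.const _))

/-- the rules between two neighbours -/
lemma rule_H (hS : Sys gray L D) {x : freePart d} {k k' i j i' j'} (h : Sel L D x k i j)
    (h' : Sel L D (mv 1 0 x) k' i' j') : Hr (sg L D x).1 (sg L D (mv 1 0 x)).1 = true := by
  rw [sg_eq hS h, sg_eq hS h']
  simp only
  have hL := hS.L1 k
  have hL' := hS.L1 k'
  have hb := h.1
  have hb' := h'.1
  unfold Cov at hb hb'
  rcases adj hS (by simp) (by simp) h h' with ⟨rfl, rfl, rfl⟩ | ⟨hk, h1, h2⟩ | ⟨hk, h1, h2⟩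
  · rw [add_zero]; exact pic_H hL (by omega) (by omega) (by omega) (by omega)
  · have : i = L k := by omega
    subst this
    obtain ⟨c, hc⟩ := pic_inner h2.1 h2.2.1 h2.2.2.1 h2.2.2.2.1 h2.2.2.2.2.1
    rw [hc]
    exact Hr_to_w (pic_right hL) c
  · have : i' = 0 := by omega
    subst this
    obtain ⟨c, hc⟩ := pic_inner h2.1 h2.2.1 h2.2.2.1 h2.2.2.2.1 h2.2.2.2.2.1
    rw [hc]
    exact Hr_from_w pic_left c

lemma rule_V (hS : Sys gray L D) {x : freePart d} {k k' i j i' j'} (h : Sel L D x k i j)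
    (h' : Sel L D (mv 0 1 x) k' i' j') : Vr (sg L D x).1 (sg L D (mv 0 1 x)).1 = true := by
  rw [sg_eq hS h, sg_eq hS h']
  simp only
  have hL := hS.L1 k
  have hL' := hS.L1 k'
  have hb := h.1
  have hb' := h'.1
  unfold Cov at hb hb'
  rcases adj hS (by simp) (by simp) h h' with ⟨rfl, rfl, rfl⟩ | ⟨hk, h1, h2⟩ | ⟨hk, h1, h2⟩
  · rw [add_zero]; exact pic_V hL (by omega) (by omega) (by omega) (by omega)
  · have : j = L k := by omega
    subst this
    obtain ⟨c, hc⟩ := pic_inner h2.1 h2.2.1 h2.2.2.1 h2.2.2.2.1 h2.2.2.2.2.1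
    rw [hc]
    exact Vr_to_w (pic_top hL) c
  · have : j' = 0 := by omega
    subst this
    obtain ⟨c, hc⟩ := pic_inner h2.1 h2.2.1 h2.2.2.1 h2.2.2.2.1 h2.2.2.2.2.1
    rw [hc]
    exact Vr_from_w (pic_bot hL') c

lemma rule_D (hS : Sys gray L D) {x : freePart d} {k k' i j i' j'} (h : Sel L D x k i j)
    (h' : Sel L D (mv 1 1 x) k' i' j') : Dr (sg L D x).1 (sg L D (mv 1 1 x)).1 = true := by
  rw [sg_eq hS h, sg_eq hS h']
  simp only
  have hL := hS.L1 k
  have hL' := hS.L1 k'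
  have hb := h.1
  have hb' := h'.1
  unfold Cov at hb hb'
  rcases adj hS (by simp) (by simp) h h' with ⟨rfl, rfl, rfl⟩ | ⟨hk, h1, h2⟩ | ⟨hk, h1, h2⟩
  · exact pic_D hL (by omega) (by omega) (by omega) (by omega)
  · obtain ⟨c, hc⟩ := pic_inner h2.1 h2.2.1 h2.2.2.1 h2.2.2.2.1 h2.2.2.2.2.1
    rw [hc]
    exact Dr_to_w (pic_ne1 hL (by omega)) c
  · obtain ⟨c, hc⟩ := pic_inner h2.1 h2.2.1 h2.2.2.1 h2.2.2.2.1 h2.2.2.2.2.1
    rw [hc]
    exact Dr_from_w (pic_ne2 hL' (by omega)) c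

lemma rule_A (hS : Sys gray L D) {x : freePart d} {k k' i j i' j'} (h : Sel L D x k i j)
    (h' : Sel L D (mv (-1) 1 x) k' i' j') : Ar (sg L D x).1 (sg L D (mv (-1) 1 x)).1 = true := by
  rw [sg_eq hS h, sg_eq hS h']
  simp only
  have hL := hS.L1 k
  have hL' := hS.L1 k'
  have hb := h.1
  have hb' := h'.1
  unfold Cov at hb hb'
  rcases adj hS (by simp) (by simp) h h' with ⟨rfl, rfl, rfl⟩ | ⟨hk, h1, h2⟩ | ⟨hk, h1, h2⟩
  · have := pic_A (L := L k) (i := i - 1) (j := j) hL (by omega) (by omega) (by omega) (by omega)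
    rwa [show i - 1 + 1 = i by ring] at this
  · obtain ⟨c, hc⟩ := pic_inner h2.1 h2.2.1 h2.2.2.1 h2.2.2.2.1 h2.2.2.2.2.1
    rw [hc]
    exact Ar_to_w _ c
  · obtain ⟨c, hc⟩ := pic_inner h2.1 h2.2.1 h2.2.2.1 h2.2.2.2.1 h2.2.2.2.2.1
    rw [hc]
    exact Ar_from_w _ c

lemma rule_w {L i j : ℤ} (h : mark L i j = true) : ∃ c, pic L i j = w c := by
  unfold mark at h
  have h := of_decide_eq_true h
  exact pic_inner h.1 (by omega) (by omega) (by omega) (by omega)

lemma rule_m (hS : Sys true L D) {x : freePart d} {k k' i j i' j'} (h : Sel L D x k i j)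
    (h' : Sel L D (mv 1 0 x) k' i' j') (hm : (sg L D x).1 = le ∨ (sg L D x).2 = true) :
    (sg L D (mv 1 0 x)).2 = true ∨ (sg L D (mv 1 0 x)).1 = di := by
  rw [sg_eq hS h] at hm
  rw [sg_eq hS h']
  simp only at hm ⊢
  have hL := hS.L1 k
  have hL' := hS.L1 k'
  have hb := h.1
  have hb' := h'.1
  unfold Cov at hb hb'
  rcases adj hS (by simp) (by simp) h h' with ⟨rfl, rfl, rfl⟩ | ⟨hk, h1, h2⟩ | ⟨hk, h1, h2⟩
  · rcases hm with hm | hm
    · have h3 : i = 0 ∧ 0 < j ∧ j < L k := by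
        unfold pic at hm
        split_ifs at hm <;> first | omega | cases hm
      obtain ⟨rfl, h4, h5⟩ := h3
      rcases lt_or_eq_of_le (show 1 ≤ j by omega) with h6 | h6
      · left; unfold mark; simp only [decide_eq_true_eq]; omega
      · right; unfold pic
        rw [if_neg (by omega), if_neg (by omega), if_neg (by omega), if_neg (by omega),
          if_pos (by omega)]
    · unfold mark at hm
      have hm := of_decide_eq_true hm
      rcases lt_or_eq_of_le (show i + 1 ≤ j by omega) with h6 | h6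
      · left; unfold mark; simp only [decide_eq_true_eq]; omega
      · right; unfold pic
        rw [if_neg (by omega), if_neg (by omega), if_neg (by omega), if_neg (by omega),
          if_pos (by omega)]
  · exfalso
    have : i = L k := by omega
    subst this
    rcases hm with hm | hm
    · rcases pic_right (L := L k) (j := j) hL with h3 | h3 | h3 <;> rw [h3] at hm <;> cases hm
    · unfold mark at hm
      have hm := of_decide_eq_true hm
      omega
  · exfalso
    obtain ⟨c, hc⟩ := pic_inner h2.1 h2.2.1 h2.2.2.1 h2.2.2.2.1 h2.2.2.2.2.1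
    rcases hm with hm | hm
    · rw [hc] at hm; cases hm
    · unfold mark at hm
      have hm := of_decide_eq_true hm
      have := h2.2.2.2.2.2 rfl
      omega

/-! ### Extension to all points -/

/-- checkerboard -/
def ck (hd : 2 ≤ d) : Zd d → St × Bool :=
  fun h => (w (par (h ⟨0, by omega⟩) (h ⟨1, by omega⟩)), false)

lemma shift_block {A : Type} {R : A → A → A → A → Prop} {x : Zd d → A} (hx : x ∈ blockS d R)
    (g : Zd d) : shift g x ∈ blockS d R := by
  intro h
  have := hx (h + g)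
  simp only [shift]
  rw [show h + em 1 0 + g = h + g + em 1 0 by abel, show h + em 0 1 + g = h + g + em 0 1 by abel,
    show h + em 1 1 + g = h + g + em 1 1 by abel]
  exact this

lemma ck_mem (hd : 2 ≤ d) : ck hd ∈ blockS d R1 := by
  intro g
  have e1 : ∀ a b : ℤ, (g + em a b : Zd d) ⟨0, by omega⟩ = g ⟨0, by omega⟩ + a := by
    intro a b; simp [em]
  have e2 : ∀ a b : ℤ, (g + em a b : Zd d) ⟨1, by omega⟩ = g ⟨1, by omega⟩ + b := by
    intro a b; simp [em]
  refine ⟨⟨?_, ?_, ?_, ?_⟩, ?_, ?_⟩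
  · simp only [ck, e1, e2, Hr, bne_iff_ne, add_zero]
    exact par_right' _ _
  · simp only [ck, e1, e2, Vr, swp, Hr, bne_iff_ne, add_zero]
    exact par_up' _ _
  · simp only [ck]; rfl
  · simp only [ck]; rfl
  · simp [ck]
  · simp [ck]

def orb (d : ℕ) : Setoid (freePart d) where
  r x y := ∃ g : Zd d, x = fsh g y
  iseqv := {
    refl := fun x => ⟨0, (fsh_zero x).symm⟩
    symm := by
      rintro x y ⟨g, rfl⟩
      exact ⟨-g, by rw [fsh_fsh, neg_add_cancel, fsh_zero]⟩
    trans := by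
      rintro x y z ⟨g, rfl⟩ ⟨h, rfl⟩
      exact ⟨g + h, by rw [fsh_fsh]⟩ }

noncomputable def rep (x : freePart d) : freePart d := (Quotient.mk (orb d) x).out

lemma rep_spec (x : freePart d) : ∃ g : Zd d, x = fsh g (rep x) := by
  have := Quotient.mk_out (s := orb d) x
  exact (orb d).symm this

noncomputable def gof (x : freePart d) : Zd d := (rep_spec x).choose

lemma gof_spec (x : freePart d) : x = fsh (gof x) (rep x) := (rep_spec x).choose_spec

lemma rep_fsh (g : Zd d) (x : freePart d) : rep (fsh g x) = rep x := by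
  unfold rep
  congr 1
  apply Quotient.sound (s := orb d)
  exact ⟨g, rfl⟩

lemma gof_fsh (g : Zd d) (x : freePart d) : gof (fsh g x) = g + gof x := by
  have h1 : fsh g x = fsh (gof (fsh g x)) (rep (fsh g x)) := gof_spec _
  rw [rep_fsh] at h1
  have h2 : fsh g x = fsh (g + gof x) (rep x) := by
    conv_lhs => rw [gof_spec x]
    rw [fsh_fsh]
  exact fsh_inj (h1.symm.trans h2)

/-- The equivariant map given by a system of squares. -/
theorem exists_map (hd : 2 ≤ d) (hS : Sys gray L D) (hD : ∀ k, MeasurableSet (D k))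
    {F : Filter (freePart d)}
    (hF : ∀ᶠ x in F, ∀ g : Zd d, ∃ k i j, Cov L D (fsh g x) k i j) :
    ∃ T : freePart d → Zd d → St × Bool,
      (∀ (g : Zd d) (x y : freePart d), (y : Zd d → Bool) = shift g x → T y = shift g (T x)) ∧
      (∀ x, (fun g => (T x g).1) ∈ blockS d R2) ∧
      (gray = true → ∀ x, T x ∈ blockS d R1) ∧
      ∃ T₀ : freePart d → Zd d → St × Bool, (∀ g a, MeasurableSet {x | T₀ x g = a}) ∧
        ∀ᶠ x in F, T x = T₀ x := by
  classical
  set G : Set (freePart d) := {x | ∀ g : Zd d, ∃ k i j, Cov L D (fsh g x) k i j} with hG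
  have hGi : ∀ g x, fsh g x ∈ G ↔ x ∈ G := by
    intro g x
    constructor
    · intro h k
      have := h (k + -g)
      rwa [fsh_fsh, add_assoc, neg_add_cancel, add_zero] at this
    · intro h k
      rw [fsh_fsh]
      exact h _
  let T₀ : freePart d → Zd d → St × Bool := fun x g => sg L D (fsh g x)
  have hT₀ : ∀ g x, T₀ (fsh g x) = shift g (T₀ x) := by
    intro g x
    funext h
    simp only [T₀, shift]
    rw [fsh_fsh]
  let T₁ : freePart d → Zd d → St × Bool := fun x => shift (gof x) (ck hd)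
  have hT₁ : ∀ g x, T₁ (fsh g x) = shift g (T₁ x) := by
    intro g x
    simp only [T₁]
    rw [gof_fsh, shift_shift]
  have hsel : ∀ x ∈ G, ∀ g : Zd d, ∃ k i j, Sel L D (fsh g x) k i j :=
    fun x hx g => sel_exists (hx g)
  have hmv : ∀ (g : Zd d) (a b : ℤ) (x : freePart d), fsh (g + em a b) x = mv a b (fsh g x) := by
    intro g a b x
    unfold mv
    rw [fsh_fsh, add_comm]
  have hR2 : ∀ x ∈ G, (fun g => (T₀ x g).1) ∈ blockS d R2 := by
    intro x hx g
    obtain ⟨k, i, j, h0⟩ := hsel x hx g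
    obtain ⟨k1, i1, j1, h1⟩ := hsel x hx (g + em 1 0)
    obtain ⟨k2, i2, j2, h2⟩ := hsel x hx (g + em 0 1)
    obtain ⟨k3, i3, j3, h3⟩ := hsel x hx (g + em 1 1)
    simp only [T₀]
    refine ⟨?_, ?_, ?_, ?_⟩
    · rw [hmv] at h1 ⊢
      exact rule_H hS h0 h1
    · rw [hmv] at h2 ⊢
      exact rule_V hS h0 h2
    · rw [hmv] at h3 ⊢
      exact rule_D hS h0 h3
    · have e : fsh (g + em 0 1) x = mv (-1) 1 (fsh (g + em 1 0) x) := by
        unfold mv
        rw [fsh_fsh]
        congr 1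
        rw [add_comm, add_comm g, ← add_assoc, ← em_add]
        simp
      rw [e] at h2 ⊢
      exact rule_A hS h1 h2
  have hR1 : gray = true → ∀ x ∈ G, T₀ x ∈ blockS d R1 := by
    intro hg x hx g
    subst hg
    obtain ⟨k, i, j, h0⟩ := hsel x hx g
    obtain ⟨k1, i1, j1, h1⟩ := hsel x hx (g + em 1 0)
    refine ⟨hR2 x hx g, ?_, ?_⟩
    · intro hm
      simp only [T₀] at hm ⊢
      rw [sg_eq hS h0] at hm ⊢
      exact rule_w hm
    · intro hm
      simp only [T₀] at hm ⊢
      rw [hmv] at h1 ⊢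
      exact rule_m hS h0 h1 hm
  refine ⟨fun x => if x ∈ G then T₀ x else T₁ x, ?_, ?_, ?_, T₀, ?_, ?_⟩
  · intro g x y hy
    have : y = fsh g x := Subtype.ext hy
    subst this
    simp only [hGi]
    split_ifs with h
    · exact hT₀ g x
    · exact hT₁ g x
  · intro x
    by_cases h : x ∈ G
    · simp only [h, if_true]; exact hR2 x h
    · simp only [h, if_false]
      intro g
      exact (shift_block (ck_mem hd) (gof x) g).1
  · intro hg x
    by_cases h : x ∈ G
    · simp only [h, if_true]; exact hR1 hg x h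
    · simp only [h, if_false]
      exact shift_block (ck_mem hd) (gof x)
  · intro g a
    exact fsh_meas g (sg_meas hS hD a)
  · filter_upwards [hF] with x hx
    have : x ∈ G := hx
    simp only [this, if_true]

/-! ### The conditions (ii) and (iii) -/

lemma preim_eventually {A : Type} [Fintype A] {X : Type} [MeasurableSpace X] {F : Filter X}
    {T T₀ : X → Zd d → A} (hm : ∀ g a, MeasurableSet {x | T₀ x g = a})
    (he : ∀ᶠ x in F, T x = T₀ x) {n : ℕ} (f : A → Fin n) (B : Set (Zd d → Fin n))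
    (hB : MeasurableSet B) :
    ∃ C : Set X, MeasurableSet C ∧ ((fun x g => f (T x g)) ⁻¹' B : Set X) =ᶠ[F] C := by
  have hmeas : Measurable (fun x g => f (T₀ x g) : X → Zd d → Fin n) := by
    rw [measurable_pi_iff]
    intro g
    apply measurable_to_countable'
    intro a
    have : (fun x => f (T₀ x g)) ⁻¹' {a} = ⋃ b : A, ({x | T₀ x g = b} ∩ {_x | f b = a}) := by
      ext x; simp
    rw [this]
    exact MeasurableSet.iUnion fun b => (hm g b).inter (MeasurableSet.const _)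
  refine ⟨_, hmeas hB, ?_⟩
  rw [Filter.eventuallyEq_set]
  filter_upwards [he] with x hx
  simp only [Set.mem_preimage, hx]

lemma baire_of_map {A : Type} [Fintype A] {S : Set (Zd d → A)}
    {T T₀ : freePart d → Zd d → A}
    (h1 : ∀ (g : Zd d) (x y : freePart d), (y : Zd d → Bool) = shift g x → T y = shift g (T x))
    (h2 : ∀ x, T x ∈ S) (h3 : ∀ g a, MeasurableSet {x | T₀ x g = a})
    (h4 : ∀ᶠ x in residual (freePart d), T x = T₀ x) : HasBaire (encS S) := by
  refine ⟨fun x g => enc A (T x g), ?_, ?_, ?_⟩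
  · intro g x y hy
    funext h
    simp only [shift]
    rw [h1 g x y hy]
    rfl
  · intro x
    simp only [encS, Set.mem_setOf_eq, Equiv.symm_apply_apply]
    exact h2 x
  · intro B hB
    obtain ⟨C, hC, hBC⟩ := preim_eventually h3 h4 (enc A) B hB
    exact hC.baireMeasurableSet.congr hBC.symm

lemma measure_of_map {A : Type} [Fintype A] {S : Set (Zd d → A)}
    (h : ∀ μ : Measure (freePart d), IsProbabilityMeasure μ →
      ∃ T T₀ : freePart d → Zd d → A,
      (∀ (g : Zd d) (x y : freePart d), (y : Zd d → Bool) = shift g x → T y = shift g (T x)) ∧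
      (∀ x, T x ∈ S) ∧ (∀ g a, MeasurableSet {x | T₀ x g = a}) ∧
      (∀ᵐ x ∂μ, T x = T₀ x)) : HasMeasure (encS S) := by
  intro μ hμ
  obtain ⟨T, T₀, h1, h2, h3, h4⟩ := h μ hμ
  refine ⟨fun x g => enc A (T x g), ?_, ?_, ?_⟩
  · intro g x y hy
    funext h
    simp only [shift]
    rw [h1 g x y hy]
    rfl
  · intro x
    simp only [encS, Set.mem_setOf_eq, Equiv.symm_apply_apply]
    exact h2 x
  · intro B hB
    obtain ⟨C, hC, hBC⟩ := preim_eventually h3 h4 (enc A) B hB
    exact hC.nullMeasurableSet.congr hBC.symm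

end MP6540
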