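import Mathlib

/-!
Local rules for nested squares with walls and diagonal on `ℤ²`.
-/

set_option linter.unusedSimpArgs false

namespace MP6540

inductive St
  | w (c : Bool) | le | ri | bo | tp | di | c00 | c10 | c01 | c11
  deriving DecidableEq, Fintype

open St

/-- transposition on states -/
def swp : St → St
  | le => bo | bo => le | ri => tp | tp => ri | c10 => c01 | c01 => c10 | s => s

/-- allowed horizontal pairs -/
def Hr : St → St → Bool
  | w c, w c' => c != c'
  | w _, le => true | w _, c00 => true | w _, c01 => true | w _, ri => true | w _, di => true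
  | le, w _ => true | le, di => true
  | ri, w _ => true
  | bo, bo => true | bo, c10 => true
  | tp, tp => true | tp, c11 => true
  | di, w _ => true | di, ri => true
  | c00, bo => true | c00, c10 => true
  | c10, w _ => true
  | c01, tp => true | c01, c11 => true
  | c11, w _ => true
  | _, _ => false

/-- allowed vertical pairs (lower, upper) -/
def Vr (s t : St) : Bool := Hr (swp s) (swp t)

/-- allowed diagonal pairs (lower left, upper right) -/
def Dr : St → St → Bool
  | c00, di => true | c00, c11 => true | c00, _ => false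
  | di, di => true | di, c11 => true | di, _ => false
  | c11, w _ => true | c11, _ => false
  | _, di => false
  | _, c11 => false
  | _, _ => true

/-- allowed antidiagonal pairs (lower right, upper left) -/
def Ar : St → St → Bool
  | c01, w _ => true
  | c01, _ => false
  | w _, _ => true
  | _, c10 => false
  | _, _ => true

lemma swp_w (c) : swp (w c) = w c := rfl
lemma swp_le : swp le = bo := rfl
lemma swp_bo : swp bo = le := rfl
lemma swp_ri : swp ri = tp := rfl
lemma swp_tp : swp tp = ri := rfl
lemma swp_di : swp di = di := rfl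
lemma swp_c00 : swp c00 = c00 := rfl
lemma swp_c10 : swp c10 = c01 := rfl
lemma swp_c01 : swp c01 = c10 := rfl
lemma swp_c11 : swp c11 = c11 := rfl

lemma swp_swp (s : St) : swp (swp s) = s := by cases s <;> rfl

lemma Dr_swp (s t : St) : Dr (swp s) (swp t) = Dr s t := by cases s <;> cases t <;> rfl

lemma Ar_swp (s t : St) : Ar (swp t) (swp s) = Ar s t := by cases s <;> cases t <;> rfl

/-- Valid configurations on `ℤ²`. -/
structure Valid (x : ℤ → ℤ → St) : Prop where
  H : ∀ i j, Hr (x i j) (x (i+1) j) = true
  V : ∀ i j, Vr (x i j) (x i (j+1)) = true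
  D : ∀ i j, Dr (x i j) (x (i+1) (j+1)) = true
  A : ∀ i j, Ar (x (i+1) j) (x i (j+1)) = true

/-- transposition -/
def tr (x : ℤ → ℤ → St) : ℤ → ℤ → St := fun i j => swp (x j i)

lemma tr_tr (x) : tr (tr x) = x := by
  funext i j; simp [tr, swp_swp]

lemma Valid.tr {x} (h : Valid x) : Valid (tr x) where
  H := fun i j => by
    have := h.V j i
    simpa [Vr, MP6540.tr] using this
  V := fun i j => by
    have := h.H j i
    simpa [Vr, MP6540.tr, swp_swp] using this
  D := fun i j => by
    simpa [MP6540.tr, Dr_swp] using h.D j i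
  A := fun i j => by
    have := h.A j i
    rw [← Ar_swp] at this
    simpa [MP6540.tr] using this

/-- All lines are finite. -/
structure LF (x : ℤ → ℤ → St) : Prop where
  bo_f : ∀ i j, x i j = c00 → ∃ a, i < a ∧ (∀ k, i < k → k < a → x k j = bo) ∧ x a j = c10
  bo_b : ∀ a j, (x a j = bo ∨ x a j = c10) →
    ∃ i, i < a ∧ (∀ k, i < k → k < a → x k j = bo) ∧ x i j = c00
  ri_f : ∀ i j, x i j = c10 → ∃ b, j < b ∧ (∀ k, j < k → k < b → x i k = ri) ∧ x i b = c11
  ri_b : ∀ i b, (x i b = ri ∨ x i b = c11) →
    ∃ j, j < b ∧ (∀ k, j < k → k < b → x i k = ri) ∧ x i j = c10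
  le_f : ∀ i j, x i j = c00 → ∃ a, j < a ∧ (∀ k, j < k → k < a → x i k = le) ∧ x i a = c01
  le_b : ∀ i a, (x i a = le ∨ x i a = c01) →
    ∃ j, j < a ∧ (∀ k, j < k → k < a → x i k = le) ∧ x i j = c00
  to_f : ∀ i j, x i j = c01 → ∃ b, i < b ∧ (∀ k, i < k → k < b → x k j = tp) ∧ x b j = c11
  to_b : ∀ b j, (x b j = tp ∨ x b j = c11) →
    ∃ i, i < b ∧ (∀ k, i < k → k < b → x k j = tp) ∧ x i j = c01
  di_f : ∀ i j, x i j = c00 →
    ∃ r, 0 < r ∧ (∀ k, 0 < k → k < r → x (i+k) (j+k) = di) ∧ x (i+r) (j+r) = c11
  di_b : ∀ i j, (x i j = di ∨ x i j = c11) →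
    ∃ r, 0 < r ∧ (∀ k, 0 < k → k < r → x (i-k) (j-k) = di) ∧ x (i-r) (j-r) = c00

lemma swp_eq_iff (s t : St) : swp s = t ↔ s = swp t := by
  constructor
  · rintro rfl; rw [swp_swp]
  · rintro rfl; rw [swp_swp]

lemma LF.tr {x} (h : LF x) : LF (tr x) where
  bo_f := fun i j => by
    simpa only [MP6540.tr, swp_eq_iff, swp_w, swp_le, swp_bo, swp_ri, swp_tp, swp_di, swp_c00, swp_c10, swp_c01, swp_c11] using h.le_f j i
  bo_b := fun i j => by
    simpa only [MP6540.tr, swp_eq_iff, swp_w, swp_le, swp_bo, swp_ri, swp_tp, swp_di, swp_c00, swp_c10, swp_c01, swp_c11] using h.le_b j i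
  ri_f := fun i j => by
    simpa only [MP6540.tr, swp_eq_iff, swp_w, swp_le, swp_bo, swp_ri, swp_tp, swp_di, swp_c00, swp_c10, swp_c01, swp_c11] using h.to_f j i
  ri_b := fun i j => by
    simpa only [MP6540.tr, swp_eq_iff, swp_w, swp_le, swp_bo, swp_ri, swp_tp, swp_di, swp_c00, swp_c10, swp_c01, swp_c11] using h.to_b j i
  le_f := fun i j => by
    simpa only [MP6540.tr, swp_eq_iff, swp_w, swp_le, swp_bo, swp_ri, swp_tp, swp_di, swp_c00, swp_c10, swp_c01, swp_c11] using h.bo_f j i
  le_b := fun i j => by
    simpa only [MP6540.tr, swp_eq_iff, swp_w, swp_le, swp_bo, swp_ri, swp_tp, swp_di, swp_c00, swp_c10, swp_c01, swp_c11] using h.bo_b j i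
  to_f := fun i j => by
    simpa only [MP6540.tr, swp_eq_iff, swp_w, swp_le, swp_bo, swp_ri, swp_tp, swp_di, swp_c00, swp_c10, swp_c01, swp_c11] using h.ri_f j i
  to_b := fun i j => by
    simpa only [MP6540.tr, swp_eq_iff, swp_w, swp_le, swp_bo, swp_ri, swp_tp, swp_di, swp_c00, swp_c10, swp_c01, swp_c11] using h.ri_b j i
  di_f := fun i j => by
    simpa only [MP6540.tr, swp_eq_iff, swp_w, swp_le, swp_bo, swp_ri, swp_tp, swp_di, swp_c00, swp_c10, swp_c01, swp_c11] using h.di_f j i
  di_b := fun i j => by
    simpa only [MP6540.tr, swp_eq_iff, swp_w, swp_le, swp_bo, swp_ri, swp_tp, swp_di, swp_c00, swp_c10, swp_c01, swp_c11] using h.di_b j i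

lemma tri_aux {x : ℤ → ℤ → St} (h : LF x) : ∀ n : ℕ, ∀ i j a r : ℤ,
    (a - i) + r ≤ n → i < a → 0 < r → x i j = c00 →
    (∀ k, i < k → k < a → x k j = bo) → x a j = c10 →
    (∀ k, 0 < k → k < r → x (i+k) (j+k) = di) → x (i+r) (j+r) = c11 → a = i + r := by
  intro n
  induction n using Nat.strong_induction_on with
  | _ n ih =>
    intro i j a r hn hia hr h00 hbo h10 hdi h11
    rcases lt_trichotomy a (i+r) with hlt | heq | hgt
    · exfalso
      obtain ⟨s, hjs, hri, hs⟩ := h.ri_f a j h10
      have e1 : x a (j + (a - i)) = di := by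
        have := hdi (a - i) (by omega) (by omega)
        rwa [show i + (a - i) = a by omega] at this
      have hs1 : s < j + (a - i) := by
        by_contra hc
        rcases lt_or_eq_of_le (not_lt.mp hc) with h1 | h1
        · have := hri (j + (a-i)) (by omega) h1
          rw [e1] at this; cases this
        · rw [h1] at e1; rw [e1] at hs; cases hs
      obtain ⟨t, ht, hdi', h00'⟩ := h.di_b a s (Or.inr hs)
      have ht1 : t < s - j := by
        by_contra hc
        have e2 : x (a - (s - j)) j = bo := hbo _ (by omega) (by omega)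
        rcases lt_or_eq_of_le (not_lt.mp hc) with h1 | h1
        · have := hdi' (s-j) (by omega) h1
          rw [show s - (s - j) = j by omega, e2] at this; cases this
        · rw [← h1, show s - (s - j) = j by omega, e2] at h00'; cases h00'
      obtain ⟨f, hf, hbo', h10'⟩ := h.bo_f _ _ h00'
      have hf1 : f < a := by
        by_contra hc
        have e2 : x a (s - t) = ri := hri _ (by omega) (by omega)
        rcases lt_or_eq_of_le (not_lt.mp hc) with h1 | h1
        · have := hbo' a (by omega) h1
          rw [e2] at this; cases this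
        · rw [← h1, e2] at h10'; cases h10'
      have := ih (n-1) (by omega) (a - t) (s - t) f t (by omega) hf ht h00' hbo' h10'
        (fun k hk hk' => by
          have := hdi' (t - k) (by omega) (by omega)
          rwa [show a - (t-k) = a - t + k by omega, show s - (t-k) = s - t + k by omega] at this)
        (by rw [show a - t + t = a by omega, show s - t + t = s by omega]; exact hs)
      omega
    · exact heq
    · exfalso
      obtain ⟨s, hs, hri, h10'⟩ := h.ri_b _ _ (Or.inr h11)
      have e1 : x (i+r) j = bo := hbo _ (by omega) hgt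
      have hs1 : j < s := by
        by_contra hc
        rcases lt_or_eq_of_le (not_lt.mp hc) with h1 | h1
        · have := hri j h1 (by omega)
          rw [e1] at this; cases this
        · rw [h1, e1] at h10'; cases h10'
      obtain ⟨c, hc, hbo', h00'⟩ := h.bo_b _ _ (Or.inr h10')
      have e2 : x (i + (s - j)) s = di := by
        have := hdi (s - j) (by omega) (by omega)
        rwa [show j + (s - j) = s by omega] at this
      have hc1 : i + (s - j) < c := by
        by_contra hcc
        rcases lt_or_eq_of_le (not_lt.mp hcc) with h1 | h1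
        · have := hbo' (i + (s-j)) h1 (by omega)
          rw [e2] at this; cases this
        · rw [h1, e2] at h00'; cases h00'
      obtain ⟨t, ht, hdi', h11'⟩ := h.di_f _ _ h00'
      have ht1 : c + t < i + r := by
        by_contra hcc
        have e3 : x (i+r) (s + (i + r - c)) = ri := hri _ (by omega) (by omega)
        rcases lt_or_eq_of_le (not_lt.mp hcc) with h1 | h1
        · have := hdi' (i + r - c) (by omega) (by omega)
          rw [show c + (i + r - c) = i + r by omega, e3] at this; cases this
        · rw [← h1, show t = i + r - c by omega, e3] at h11'; cases h11'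
      have := ih (n-1) (by omega) c s (i+r) t (by omega) hc ht h00' hbo' h10' hdi' h11'
      omega

/-- The lower triangle of a square. -/
structure Tri (x : ℤ → ℤ → St) (i j r : ℤ) : Prop where
  pos : 0 < r
  c00 : x i j = c00
  bo : ∀ k, i < k → k < i + r → x k j = bo
  c10 : x (i+r) j = c10
  ri : ∀ k, j < k → k < j + r → x (i+r) k = ri
  c11 : x (i+r) (j+r) = c11
  di : ∀ k, 0 < k → k < r → x (i+k) (j+k) = di

lemma tri_exists {x : ℤ → ℤ → St} (h : LF x) {i j : ℤ} (h00 : x i j = c00) :
    ∃ r, Tri x i j r := by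
  obtain ⟨r, hr, hdi, h11⟩ := h.di_f i j h00
  obtain ⟨a, ha, hbo, h10⟩ := h.bo_f i j h00
  have har : a = i + r := tri_aux h ((a-i)+r).toNat i j a r (by omega) ha hr h00 hbo h10 hdi h11
  subst har
  obtain ⟨s, hjs, hri, hs⟩ := h.ri_f _ j h10
  have hsr : s = j + r := by
    rcases lt_trichotomy s (j+r) with hlt | heq | hgt
    · exfalso
      obtain ⟨t, ht, hdi', h00'⟩ := h.di_b (i+r) s (Or.inr hs)
      have ht1 : t < s - j := by
        by_contra hc
        have e2 : x (i + r - (s - j)) j = bo := hbo _ (by omega) (by omega)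
        rcases lt_or_eq_of_le (not_lt.mp hc) with h1 | h1
        · have := hdi' (s-j) (by omega) h1
          rw [show s - (s - j) = j by omega, e2] at this; cases this
        · rw [← h1, show s - (s - j) = j by omega, e2] at h00'; cases h00'
      obtain ⟨f, hf, hbo', h10'⟩ := h.bo_f _ _ h00'
      have hf1 : f < i + r := by
        by_contra hc
        have e2 : x (i+r) (s - t) = ri := hri _ (by omega) (by omega)
        rcases lt_or_eq_of_le (not_lt.mp hc) with h1 | h1
        · have := hbo' (i+r) (by omega) h1
          rw [e2] at this; cases this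
        · rw [← h1, e2] at h10'; cases h10'
      have := tri_aux h ((f - (i + r - t)) + t).toNat (i + r - t) (s - t) f t
        (by omega) hf ht h00' hbo' h10'
        (fun k hk hk' => by
          have := hdi' (t - k) (by omega) (by omega)
          rwa [show i + r - (t-k) = i + r - t + k by omega,
            show s - (t-k) = s - t + k by omega] at this)
        (by rw [show i + r - t + t = i + r by omega, show s - t + t = s by omega]; exact hs)
      omega
    · exact heq
    · exfalso
      have := hri (j+r) (by omega) hgt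
      rw [h11] at this; cases this
  subst hsr
  exact ⟨r, hr, h00, hbo, h10, hri, h11, hdi⟩

/-- A full square object with lower left corner `(i,j)` and side `r`. -/
structure Obj (x : ℤ → ℤ → St) (i j r : ℤ) : Prop where
  pos : 0 < r
  c00 : x i j = c00
  bo : ∀ k, i < k → k < i + r → x k j = bo
  c10 : x (i+r) j = c10
  ri : ∀ k, j < k → k < j + r → x (i+r) k = ri
  c11 : x (i+r) (j+r) = c11
  di : ∀ k, 0 < k → k < r → x (i+k) (j+k) = di
  le : ∀ k, j < k → k < j + r → x i k = le
  c01 : x i (j+r) = c01
  tp : ∀ k, i < k → k < i + r → x k (j+r) = tp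

lemma obj_exists {x : ℤ → ℤ → St} (h : LF x) {i j : ℤ} (h00 : x i j = c00) :
    ∃ r, Obj x i j r := by
  obtain ⟨r, hr⟩ := tri_exists h h00
  obtain ⟨r', hr'⟩ := tri_exists (x := tr x) h.tr (i := j) (j := i) (by simp [tr, h00, swp])
  have e : r' = r := by
    have h1 := hr.c11
    have h2 := hr'.c11
    simp only [tr, swp_eq_iff, swp_w, swp_le, swp_bo, swp_ri, swp_tp, swp_di, swp_c00, swp_c10, swp_c01, swp_c11] at h2
    rcases lt_trichotomy r' r with hlt | heq | hgt
    · have := hr.di r' hr'.pos hlt
      rw [h2] at this; cases this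
    · exact heq
    · have := hr'.di r hr.pos hgt
      simp only [tr, swp_eq_iff, swp_w, swp_le, swp_bo, swp_ri, swp_tp, swp_di, swp_c00, swp_c10, swp_c01, swp_c11] at this
      rw [h1] at this; cases this
  subst e
  refine ⟨r', hr.pos, hr.c00, hr.bo, hr.c10, hr.ri, hr.c11, hr.di, ?_, ?_, ?_⟩
  · intro k h1 h2
    have := hr'.bo k h1 h2
    simpa only [tr, swp_eq_iff, swp_w, swp_le, swp_bo, swp_ri, swp_tp, swp_di, swp_c00, swp_c10, swp_c01, swp_c11] using this
  · have := hr'.c10
    simpa only [tr, swp_eq_iff, swp_w, swp_le, swp_bo, swp_ri, swp_tp, swp_di, swp_c00, swp_c10, swp_c01, swp_c11] using this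
  · intro k h1 h2
    have := hr'.ri k h1 h2
    simpa only [tr, swp_eq_iff, swp_w, swp_le, swp_bo, swp_ri, swp_tp, swp_di, swp_c00, swp_c10, swp_c01, swp_c11] using this

end MP6540
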