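import Pool.Agent.T6.H73.SFT.Rules

/-!
Structure of configurations: uniqueness and nesting of squares, rings, phases.
-/

set_option linter.unusedSimpArgs false

namespace MP6540

open St

def InSq (i j r p q : ℤ) : Prop := i ≤ p ∧ p ≤ i + r ∧ j ≤ q ∧ q ≤ j + r

/-- wall or diagonal cell of a square -/
def Wd (i j r p q : ℤ) : Prop :=
  InSq i j r p q ∧ (p = i ∨ p = i + r ∨ q = j ∨ q = j + r ∨ p - i = q - j)

lemma obj_state {x : ℤ → ℤ → St} {i j r : ℤ} (h : Obj x i j r) {p q : ℤ} (hw : Wd i j r p q) :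
    (x p q = c00 ∧ p = i ∧ q = j) ∨ (x p q = bo ∧ i < p ∧ p < i + r ∧ q = j) ∨
    (x p q = c10 ∧ p = i + r ∧ q = j) ∨ (x p q = le ∧ p = i ∧ j < q ∧ q < j + r) ∨
    (x p q = c01 ∧ p = i ∧ q = j + r) ∨ (x p q = tp ∧ i < p ∧ p < i + r ∧ q = j + r) ∨
    (x p q = c11 ∧ p = i + r ∧ q = j + r) ∨ (x p q = ri ∧ p = i + r ∧ j < q ∧ q < j + r) ∨
    (x p q = di ∧ i < p ∧ p < i + r ∧ p - i = q - j) := by
  obtain ⟨⟨h1, h2, h3, h4⟩, h5⟩ := hw
  have hp := h.pos
  rcases h5 with h5 | h5 | h5 | h5 | h5
  · subst h5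
    rcases lt_trichotomy q j with a | a | a
    · omega
    · subst a; left; exact ⟨h.c00, rfl, rfl⟩
    · rcases lt_or_eq_of_le h4 with b | b
      · right; right; right; left; exact ⟨h.le _ a b, rfl, a, b⟩
      · subst b; right; right; right; right; left; exact ⟨h.c01, rfl, rfl⟩
  · subst h5
    rcases lt_trichotomy q j with a | a | a
    · omega
    · subst a; right; right; left; exact ⟨h.c10, rfl, rfl⟩
    · rcases lt_or_eq_of_le h4 with b | b
      · right; right; right; right; right; right; right; left; exact ⟨h.ri _ a b, rfl, a, b⟩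
      · subst b; right; right; right; right; right; right; left; exact ⟨h.c11, rfl, rfl⟩
  · subst h5
    rcases lt_trichotomy p i with a | a | a
    · omega
    · subst a; left; exact ⟨h.c00, rfl, rfl⟩
    · rcases lt_or_eq_of_le h2 with b | b
      · right; left; exact ⟨h.bo _ a b, a, b, rfl⟩
      · subst b; right; right; left; exact ⟨h.c10, rfl, rfl⟩
  · subst h5
    rcases lt_trichotomy p i with a | a | a
    · omega
    · subst a; right; right; right; right; left; exact ⟨h.c01, rfl, rfl⟩
    · rcases lt_or_eq_of_le h2 with b | b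
      · right; right; right; right; right; left; exact ⟨h.tp _ a b, a, b, rfl⟩
      · subst b; right; right; right; right; right; right; left; exact ⟨h.c11, rfl, rfl⟩
  · rcases lt_trichotomy p i with a | a | a
    · omega
    · have : q = j := by omega
      subst a; subst this; left; exact ⟨h.c00, rfl, rfl⟩
    · rcases lt_or_eq_of_le h2 with b | b
      · right; right; right; right; right; right; right; right
        have := h.di (p - i) (by omega) (by omega)
        rw [show i + (p - i) = p by omega, show j + (p - i) = q by omega] at this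
        exact ⟨this, a, b, h5⟩
      · have : q = j + r := by omega
        subst b; subst this; right; right; right; right; right; right; left
        exact ⟨h.c11, rfl, rfl⟩

lemma obj_not_w {x : ℤ → ℤ → St} {i j r : ℤ} (h : Obj x i j r) {p q : ℤ} (hw : Wd i j r p q)
    (c : Bool) : x p q ≠ w c := by
  intro hc
  have := obj_state h hw
  simp [hc] at this

lemma same_corner {x : ℤ → ℤ → St} {i j r r' : ℤ} (h : Obj x i j r) (h' : Obj x i j r') :
    r = r' := by
  have hp := h.pos
  have hp' := h'.pos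
  rcases lt_trichotomy r r' with a | a | a
  · have := h'.bo (i + r) (by omega) (by omega)
    rw [h.c10] at this; cases this
  · exact a
  · have := h.bo (i + r') (by omega) (by omega)
    rw [h'.c10] at this; cases this

lemma uniq_aux {x : ℤ → ℤ → St} {i j r i' j' r' : ℤ} (h : Obj x i j r) (h' : Obj x i' j' r')
    {p q : ℤ} (hw : Wd i j r p q) (hw' : Wd i' j' r' p q) : i = i' ∧ j = j' := by
  have hp := h.pos
  have hp' := h'.pos
  rcases obj_state h hw with ⟨e, a⟩ | ⟨e, a⟩ | ⟨e, a⟩ | ⟨e, a⟩ | ⟨e, a⟩ | ⟨e, a⟩ | ⟨e, a⟩ | ⟨e, a⟩ | ⟨e, a⟩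
  · have := obj_state h' hw'
    simp [e] at this
    omega
  · have := obj_state h' hw'
    simp [e] at this
    have ej : j = j' := by omega
    subst ej
    rcases lt_trichotomy i i' with b | b | b
    · have := h.bo i' b (by omega)
      rw [h'.c00] at this; cases this
    · exact ⟨b, rfl⟩
    · have := h'.bo i b (by omega)
      rw [h.c00] at this; cases this
  · have := obj_state h' hw'
    simp [e] at this
    have ej : j = j' := by omega
    subst ej
    rcases lt_trichotomy i i' with b | b | b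
    · have := h.bo i' b (by omega)
      rw [h'.c00] at this; cases this
    · exact ⟨b, rfl⟩
    · have := h'.bo i b (by omega)
      rw [h.c00] at this; cases this
  · have := obj_state h' hw'
    simp [e] at this
    have ei : i = i' := by omega
    subst ei
    rcases lt_trichotomy j j' with b | b | b
    · have := h.le j' b (by omega)
      rw [h'.c00] at this; cases this
    · exact ⟨rfl, b⟩
    · have := h'.le j b (by omega)
      rw [h.c00] at this; cases this
  · have := obj_state h' hw'
    simp [e] at this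
    have ei : i = i' := by omega
    subst ei
    rcases lt_trichotomy j j' with b | b | b
    · have := h.le j' b (by omega)
      rw [h'.c00] at this; cases this
    · exact ⟨rfl, b⟩
    · have := h'.le j b (by omega)
      rw [h.c00] at this; cases this
  · have := obj_state h' hw'
    simp [e] at this
    have ej : j + r = j' + r' := by omega
    have ei : i = i' := by
      rcases lt_trichotomy i i' with b | b | b
      · have := h.tp i' b (by omega)
        rw [ej, h'.c01] at this; cases this
      · exact b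
      · have := h'.tp i b (by omega)
        rw [← ej, h.c01] at this; cases this
    subst ei
    rcases lt_trichotomy j j' with b | b | b
    · have := h.le j' b (by omega)
      rw [h'.c00] at this; cases this
    · exact ⟨rfl, b⟩
    · have := h'.le j b (by omega)
      rw [h.c00] at this; cases this
  · have := obj_state h' hw'
    simp [e] at this
    rcases lt_trichotomy i i' with b | b | b
    · have := h.di (i' - i) (by omega) (by omega)
      rw [show i + (i' - i) = i' by omega, show j + (i' - i) = j' by omega, h'.c00] at this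
      cases this
    · exact ⟨b, by omega⟩
    · have := h'.di (i - i') (by omega) (by omega)
      rw [show i' + (i - i') = i by omega, show j' + (i - i') = j by omega, h.c00] at this
      cases this
  · have := obj_state h' hw'
    simp [e] at this
    have ei : i + r = i' + r' := by omega
    have ej : j = j' := by
      rcases lt_trichotomy j j' with b | b | b
      · have := h.ri j' b (by omega)
        rw [ei, h'.c10] at this; cases this
      · exact b
      · have := h'.ri j b (by omega)
        rw [← ei, h.c10] at this; cases this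
    subst ej
    rcases lt_trichotomy i i' with b | b | b
    · have := h.bo i' b (by omega)
      rw [h'.c00] at this; cases this
    · exact ⟨b, rfl⟩
    · have := h'.bo i b (by omega)
      rw [h.c00] at this; cases this
  · have := obj_state h' hw'
    simp [e] at this
    rcases lt_trichotomy i i' with b | b | b
    · have := h.di (i' - i) (by omega) (by omega)
      rw [show i + (i' - i) = i' by omega, show j + (i' - i) = j' by omega, h'.c00] at this
      cases this
    · exact ⟨b, by omega⟩
    · have := h'.di (i - i') (by omega) (by omega)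
      rw [show i' + (i - i') = i by omega, show j' + (i - i') = j by omega, h.c00] at this
      cases this

lemma uniq {x : ℤ → ℤ → St} {i j r i' j' r' : ℤ} (h : Obj x i j r) (h' : Obj x i' j' r')
    {p q : ℤ} (hw : Wd i j r p q) (hw' : Wd i' j' r' p q) : i = i' ∧ j = j' ∧ r = r' := by
  obtain ⟨rfl, rfl⟩ := uniq_aux h h' hw hw'
  exact ⟨rfl, rfl, same_corner h h'⟩

/-- strictly inside -/
def Ins (i j r i' j' r' : ℤ) : Prop := i < i' ∧ i' + r' < i + r ∧ j < j' ∧ j' + r' < j + r

lemma nest {x : ℤ → ℤ → St} {i j r i' j' r' : ℤ} (h : Obj x i j r) (h' : Obj x i' j' r')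
    (hne : ¬ (i = i' ∧ j = j' ∧ r = r')) {p q : ℤ} (hp : InSq i j r p q)
    (hp' : InSq i' j' r' p q) : Ins i j r i' j' r' ∨ Ins i' j' r' i j r := by
  have hr := h.pos
  have hr' := h'.pos
  have key : ∀ p q, Wd i j r p q → Wd i' j' r' p q → False :=
    fun p q a b => hne (uniq h h' a b)
  -- endpoints of the second first-coordinate interval with endpoints of the first second one
  have k1 : ∀ a b, (a = i' ∨ a = i' + r') → (b = j ∨ b = j + r) → i ≤ a → a ≤ i + r → j' ≤ b →
      b ≤ j' + r' → False := by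
    intro a b ha hb h1 h2 h3 h4
    exact key a b ⟨⟨h1, h2, by omega, by omega⟩, by omega⟩ ⟨⟨by omega, by omega, h3, h4⟩, by omega⟩
  have k2 : ∀ a b, (a = i ∨ a = i + r) → (b = j' ∨ b = j' + r') → i' ≤ a → a ≤ i' + r' → j ≤ b →
      b ≤ j + r → False := by
    intro a b ha hb h1 h2 h3 h4
    exact key a b ⟨⟨by omega, by omega, h3, h4⟩, by omega⟩ ⟨⟨h1, h2, by omega, by omega⟩, by omega⟩
  obtain ⟨a1, a2, a3, a4⟩ := hp
  obtain ⟨b1, b2, b3, b4⟩ := hp'
  -- case: some endpoint of I' in I
  by_cases hA : (i ≤ i' ∧ i' ≤ i + r) ∨ (i ≤ i' + r' ∧ i' + r' ≤ i + r)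
  · -- then no endpoint of J in J'
    have hB1 : ¬ (j' ≤ j ∧ j ≤ j' + r') := by
      intro hc
      rcases hA with hA | hA
      · exact k1 i' j (Or.inl rfl) (Or.inl rfl) hA.1 hA.2 hc.1 hc.2
      · exact k1 (i'+r') j (Or.inr rfl) (Or.inl rfl) hA.1 hA.2 hc.1 hc.2
    have hB2 : ¬ (j' ≤ j + r ∧ j + r ≤ j' + r') := by
      intro hc
      rcases hA with hA | hA
      · exact k1 i' (j+r) (Or.inl rfl) (Or.inr rfl) hA.1 hA.2 hc.1 hc.2
      · exact k1 (i'+r') (j+r) (Or.inr rfl) (Or.inr rfl) hA.1 hA.2 hc.1 hc.2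
    have hB : j < j' ∧ j' + r' < j + r := by omega
    have hC1 : ¬ (i' ≤ i ∧ i ≤ i' + r') := by
      intro hc
      exact k2 i j' (Or.inl rfl) (Or.inl rfl) hc.1 hc.2 (by omega) (by omega)
    have hC2 : ¬ (i' ≤ i + r ∧ i + r ≤ i' + r') := by
      intro hc
      exact k2 (i+r) j' (Or.inr rfl) (Or.inl rfl) hc.1 hc.2 (by omega) (by omega)
    left
    exact ⟨by omega, by omega, hB.1, hB.2⟩
  · have hA' : i' < i ∧ i + r < i' + r' := by omega
    have hC1 : ¬ (j ≤ j' ∧ j' ≤ j + r) := by
      intro hc
      exact k2 i j' (Or.inl rfl) (Or.inl rfl) (by omega) (by omega) hc.1 hc.2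
    have hC2 : ¬ (j ≤ j' + r' ∧ j' + r' ≤ j + r) := by
      intro hc
      exact k2 i (j'+r') (Or.inl rfl) (Or.inr rfl) (by omega) (by omega) hc.1 hc.2
    right
    exact ⟨by omega, by omega, by omega, by omega⟩

/-- Every non-coloured cell belongs to the walls of a square. -/
lemma wall_in_obj {x : ℤ → ℤ → St} (h : LF x) {p q : ℤ} (hw : ∀ c, x p q ≠ w c) :
    ∃ i j r, Obj x i j r ∧ Wd i j r p q := by
  -- a cell on the bottom line
  have kbo : ∀ p q, x p q = c00 ∨ x p q = bo ∨ x p q = c10 → ∃ i j r, Obj x i j r ∧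
      j = q ∧ i ≤ p ∧ p ≤ i + r ∧ (x p q = c10 → p = i + r) := by
    intro p q hs
    rcases hs with hs | hs
    · obtain ⟨r, hr⟩ := obj_exists h hs
      have := hr.pos
      exact ⟨p, q, r, hr, rfl, le_refl _, by omega, by simp [hs]⟩
    · obtain ⟨i, hi, hbo, h00⟩ := h.bo_b p q hs
      obtain ⟨r, hr⟩ := obj_exists h h00
      have hp := hr.pos
      have hle : p ≤ i + r := by
        by_contra hc
        have := hbo (i + r) (by omega) (by omega)
        rw [hr.c10] at this; cases this
      refine ⟨i, q, r, hr, rfl, hi.le, hle, ?_⟩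
      intro hc
      rcases lt_or_eq_of_le hle with a | a
      · have := hr.bo p hi a
        rw [hc] at this; cases this
      · exact a
  have kle : ∀ p q, x p q = c00 ∨ x p q = le ∨ x p q = c01 → ∃ i j r, Obj x i j r ∧
      i = p ∧ j ≤ q ∧ q ≤ j + r ∧ (x p q = c01 → q = j + r) := by
    intro p q hs
    rcases hs with hs | hs
    · obtain ⟨r, hr⟩ := obj_exists h hs
      have := hr.pos
      exact ⟨p, q, r, hr, rfl, le_refl _, by omega, by simp [hs]⟩
    · obtain ⟨j, hj, hbo, h00⟩ := h.le_b p q hs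
      obtain ⟨r, hr⟩ := obj_exists h h00
      have hp := hr.pos
      have hle : q ≤ j + r := by
        by_contra hc
        have := hbo (j + r) (by omega) (by omega)
        rw [hr.c01] at this; cases this
      refine ⟨p, j, r, hr, rfl, hj.le, hle, ?_⟩
      intro hc
      rcases lt_or_eq_of_le hle with a | a
      · have := hr.le q hj a
        rw [hc] at this; cases this
      · exact a
  have kdi : x p q = di ∨ x p q = c11 → ∃ i j r, Obj x i j r ∧ Wd i j r p q := by
    intro hs
    obtain ⟨t, ht, hdi, h00⟩ := h.di_b p q hs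
    obtain ⟨r, hr⟩ := obj_exists h h00
    have hp := hr.pos
    have hle : t ≤ r := by
      by_contra hc
      have := hdi (t - r) (by omega) (by omega)
      rw [show p - (t - r) = p - t + r by omega, show q - (t - r) = q - t + r by omega,
        hr.c11] at this; cases this
    exact ⟨_, _, r, hr, ⟨by omega, by omega, by omega, by omega⟩, by omega⟩
  match hs : x p q with
  | w c => exact absurd hs (hw c)
  | c00 => 
    obtain ⟨r, hr⟩ := obj_exists h hs
    have := hr.pos
    exact ⟨p, q, r, hr, ⟨by omega, by omega, by omega, by omega⟩, by omega⟩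
  | bo =>
    obtain ⟨i, j, r, hr, e, h1, h2, -⟩ := kbo p q (Or.inr (Or.inl hs))
    have := hr.pos
    exact ⟨i, j, r, hr, ⟨by omega, by omega, by omega, by omega⟩, by omega⟩
  | c10 =>
    obtain ⟨i, j, r, hr, e, h1, h2, -⟩ := kbo p q (Or.inr (Or.inr hs))
    have := hr.pos
    exact ⟨i, j, r, hr, ⟨by omega, by omega, by omega, by omega⟩, by omega⟩
  | le =>
    obtain ⟨i, j, r, hr, e, h1, h2, -⟩ := kle p q (Or.inr (Or.inl hs))
    have := hr.pos
    exact ⟨i, j, r, hr, ⟨by omega, by omega, by omega, by omega⟩, by omega⟩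
  | c01 =>
    obtain ⟨i, j, r, hr, e, h1, h2, -⟩ := kle p q (Or.inr (Or.inr hs))
    have := hr.pos
    exact ⟨i, j, r, hr, ⟨by omega, by omega, by omega, by omega⟩, by omega⟩
  | di => exact kdi (Or.inl hs)
  | c11 => exact kdi (Or.inr hs)
  | ri =>
    obtain ⟨t, ht, hri, h10⟩ := h.ri_b p q (Or.inl hs)
    obtain ⟨i, j, r, hr, e, h1, h2, h3⟩ := kbo p t (Or.inr (Or.inr h10))
    have e2 := h3 h10
    have := hr.pos
    subst e; subst e2
    have hle : q ≤ j + r := by
      by_contra hc
      have := hri (j + r) (by omega) (by omega)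
      rw [hr.c11] at this; cases this
    exact ⟨i, j, r, hr, ⟨by omega, by omega, by omega, by omega⟩, by omega⟩
  | tp =>
    obtain ⟨t, ht, htp, h01⟩ := h.to_b p q (Or.inl hs)
    obtain ⟨i, j, r, hr, e, h1, h2, h3⟩ := kle t q (Or.inr (Or.inr h01))
    have e2 := h3 h01
    have := hr.pos
    subst e; subst e2
    have hle : p ≤ i + r := by
      by_contra hc
      have := htp (i + r) (by omega) (by omega)
      rw [hr.c11] at this; cases this
    exact ⟨i, j, r, hr, ⟨by omega, by omega, by omega, by omega⟩, by omega⟩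

/-! Ring cells are coloured. -/

lemma Hr_left {s t : St} (h : Hr s t = true) (ht : t = le ∨ t = c00 ∨ t = c01) :
    ∃ c, s = w c := by
  rcases ht with rfl | rfl | rfl <;> cases s <;> simp_all [Hr]

lemma Hr_right {s t : St} (h : Hr s t = true) (hs : s = ri ∨ s = c10 ∨ s = c11) :
    ∃ c, t = w c := by
  rcases hs with rfl | rfl | rfl <;> cases t <;> simp_all [Hr]

lemma Vr_up {s t : St} (h : Vr s t = true) (hs : s = tp ∨ s = c01 ∨ s = c11) :
    ∃ c, t = w c := by
  rcases hs with rfl | rfl | rfl <;> cases t <;> simp_all [Vr, swp, Hr]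

lemma Dr_up {t : St} (h : Dr c11 t = true) : ∃ c, t = w c := by
  cases t <;> simp_all [Dr]

lemma Ar_up {t : St} (h : Ar c01 t = true) : ∃ c, t = w c := by
  cases t <;> simp_all [Ar]

section ring
variable {x : ℤ → ℤ → St} {i j r : ℤ}

lemma ring_left (hV : Valid x) (h : Obj x i j r) {q : ℤ} (h1 : j ≤ q) (h2 : q ≤ j + r) :
    ∃ c, x (i-1) q = w c := by
  have hp := h.pos
  have := hV.H (i-1) q
  rw [show i - 1 + 1 = i by omega] at this
  apply Hr_left this
  rcases obj_state h (p := i) (q := q) ⟨⟨by omega, by omega, h1, h2⟩, by omega⟩ with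
    ⟨e, a⟩ | ⟨e, a⟩ | ⟨e, a⟩ | ⟨e, a⟩ | ⟨e, a⟩ | ⟨e, a⟩ | ⟨e, a⟩ | ⟨e, a⟩ | ⟨e, a⟩ <;>
    first
      | (exact Or.inl e) | (exact Or.inr (Or.inl e)) | (exact Or.inr (Or.inr e)) | omega

lemma ring_right (hV : Valid x) (h : Obj x i j r) {q : ℤ} (h1 : j ≤ q) (h2 : q ≤ j + r) :
    ∃ c, x (i+r+1) q = w c := by
  have hp := h.pos
  have := hV.H (i+r) q
  apply Hr_right this
  rcases obj_state h (p := i+r) (q := q) ⟨⟨by omega, by omega, h1, h2⟩, by omega⟩ with
    ⟨e, a⟩ | ⟨e, a⟩ | ⟨e, a⟩ | ⟨e, a⟩ | ⟨e, a⟩ | ⟨e, a⟩ | ⟨e, a⟩ | ⟨e, a⟩ | ⟨e, a⟩ <;>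
    first
      | (exact Or.inl e) | (exact Or.inr (Or.inl e)) | (exact Or.inr (Or.inr e)) | omega

lemma ring_top (hV : Valid x) (h : Obj x i j r) {p : ℤ} (h1 : i ≤ p) (h2 : p ≤ i + r) :
    ∃ c, x p (j+r+1) = w c := by
  have hp := h.pos
  have := hV.V p (j+r)
  apply Vr_up this
  rcases obj_state h (p := p) (q := j+r) ⟨⟨h1, h2, by omega, by omega⟩, by omega⟩ with
    ⟨e, a⟩ | ⟨e, a⟩ | ⟨e, a⟩ | ⟨e, a⟩ | ⟨e, a⟩ | ⟨e, a⟩ | ⟨e, a⟩ | ⟨e, a⟩ | ⟨e, a⟩ <;>
    first
      | (exact Or.inl e) | (exact Or.inr (Or.inl e)) | (exact Or.inr (Or.inr e)) | omega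

lemma ring_c01 (hV : Valid x) (h : Obj x i j r) : ∃ c, x (i-1) (j+r+1) = w c := by
  have := hV.A (i-1) (j+r)
  rw [show i - 1 + 1 = i by omega, h.c01] at this
  exact Ar_up this

lemma ring_c11 (hV : Valid x) (h : Obj x i j r) : ∃ c, x (i+r+1) (j+r+1) = w c := by
  have := hV.D (i+r) (j+r)
  rw [h.c11] at this
  exact Dr_up this

end ring

/-! Phases -/

def par (p q : ℤ) : Bool := decide ((p + q) % 2 = 1)

lemma par_right (p q : ℤ) : par (p+1) q = !par p q := by
  unfold par
  rcases Int.emod_two_eq_zero_or_one (p+q) with h | h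
  · have : (p + 1 + q) % 2 = 1 := by omega
    simp [h, this]
  · have : (p + 1 + q) % 2 = 0 := by omega
    simp [h, this]

lemma par_up (p q : ℤ) : par p (q+1) = !par p q := by
  unfold par
  rcases Int.emod_two_eq_zero_or_one (p+q) with h | h
  · have : (p + (q + 1)) % 2 = 1 := by omega
    simp [h, this]
  · have : (p + (q + 1)) % 2 = 0 := by omega
    simp [h, this]

def Ph (x : ℤ → ℤ → St) (b : Bool) (p q : ℤ) : Prop := x p q = w (xor b (par p q))

lemma Ph_right {x} (hV : Valid x) {b p q} (h : Ph x b p q) (hc : ∃ c, x (p+1) q = w c) :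
    Ph x b (p+1) q := by
  obtain ⟨c, hc⟩ := hc
  have := hV.H p q
  unfold Ph at h ⊢
  rw [h, hc] at this
  rw [hc, par_right]
  simp only [Hr, bne_iff_ne, ne_eq] at this
  congr 1
  revert this
  cases c <;> cases b <;> cases par p q <;> simp

lemma Ph_up {x} (hV : Valid x) {b p q} (h : Ph x b p q) (hc : ∃ c, x p (q+1) = w c) :
    Ph x b p (q+1) := by
  obtain ⟨c, hc⟩ := hc
  have := hV.V p q
  unfold Ph at h ⊢
  rw [h, hc] at this
  rw [hc, par_up]
  simp only [Vr, swp, Hr, bne_iff_ne, ne_eq] at this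
  congr 1
  revert this
  cases c <;> cases b <;> cases par p q <;> simp

lemma Ph_down {x} (hV : Valid x) {b p q} (h : Ph x b p (q+1)) (hc : ∃ c, x p q = w c) :
    Ph x b p q := by
  obtain ⟨c, hc⟩ := hc
  have := hV.V p q
  unfold Ph at h ⊢
  rw [h, hc] at this
  rw [hc]
  rw [par_up] at this
  simp only [Vr, swp, Hr, bne_iff_ne, ne_eq] at this
  congr 1
  revert this
  cases c <;> cases b <;> cases par p q <;> simp

lemma Ph_unique {x : ℤ → ℤ → St} {b b' p q} (h : Ph x b p q) (h' : Ph x b' p q) : b = b' := by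
  unfold Ph at h h'
  rw [h] at h'
  injection h' with h'
  revert h'
  cases b <;> cases b' <;> cases par p q <;> simp

lemma Ph_of_w {x : ℤ → ℤ → St} {p q c} (h : x p q = w c) : Ph x (xor c (par p q)) p q := by
  unfold Ph
  rw [h]
  congr 1
  cases c <;> cases par p q <;> simp

/-- walking over the top of a square -/
lemma walk {x : ℤ → ℤ → St} (hV : Valid x) {i j r : ℤ} (h : Obj x i j r) {q : ℤ} (h1 : j ≤ q)
    (h2 : q ≤ j + r) {b : Bool} (hb : Ph x b (i-1) q) : Ph x b (i+r+1) q := by
  have hp := h.pos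
  -- up
  have up : ∀ t : ℕ, q + t ≤ j + r + 1 → Ph x b (i-1) (q + t) := by
    intro t
    induction t with
    | zero => intro _; simpa using hb
    | succ t ih =>
      intro ht
      have := Ph_up hV (ih (by omega)) (by
        rcases lt_or_eq_of_le (show q + t + 1 ≤ j + r + 1 by omega) with a | a
        · exact ring_left hV h (by omega) (by omega)
        · rw [a]; exact ring_c01 hV h)
      rwa [show q + (t:ℤ) + 1 = q + ((t+1 : ℕ) : ℤ) by push_cast; omega] at this
  have h3 := up (j + r + 1 - q).toNat (by omega)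
  rw [show q + ((j + r + 1 - q).toNat : ℤ) = j + r + 1 by omega] at h3
  have rt : ∀ t : ℕ, i - 1 + t ≤ i + r + 1 → Ph x b (i - 1 + t) (j+r+1) := by
    intro t
    induction t with
    | zero => intro _; simpa using h3
    | succ t ih =>
      intro ht
      have := Ph_right hV (ih (by omega)) (by
        rcases lt_or_eq_of_le (show i - 1 + t + 1 ≤ i + r + 1 by omega) with a | a
        · exact ring_top hV h (by omega) (by omega)
        · rw [a]; exact ring_c11 hV h)
      rwa [show i - 1 + (t:ℤ) + 1 = i - 1 + ((t+1 : ℕ) : ℤ) by push_cast; omega] at this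
  have h4 := rt (r + 2).toNat (by omega)
  rw [show i - 1 + ((r + 2).toNat : ℤ) = i + r + 1 by omega] at h4
  have dn : ∀ t : ℕ, q ≤ j + r + 1 - t → Ph x b (i+r+1) (j + r + 1 - t) := by
    intro t
    induction t with
    | zero => intro _; simpa using h4
    | succ t ih =>
      intro ht
      apply Ph_down hV
      · rw [show j + r + 1 - ((t+1 : ℕ) : ℤ) + 1 = j + r + 1 - t by push_cast; omega]
        exact ih (by omega)
      · exact ring_right hV h (by omega) (by push_cast; omega)
  have h5 := dn (j + r + 1 - q).toNat (by omega)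
  rwa [show j + r + 1 - ((j + r + 1 - q).toNat : ℤ) = q by omega] at h5

def InObj (x : ℤ → ℤ → St) (p q : ℤ) : Prop := ∃ i j r, Obj x i j r ∧ InSq i j r p q

def FD (x : ℤ → ℤ → St) (p q : ℤ) : Prop :=
  {t : ℤ × ℤ × ℤ | Obj x t.1 t.2.1 t.2.2 ∧ InSq t.1 t.2.1 t.2.2 p q}.Finite

/-- maximal square containing a cell -/
def MaxObj (x : ℤ → ℤ → St) (p q i j r : ℤ) : Prop :=
  Obj x i j r ∧ InSq i j r p q ∧ ∀ i' j' r', Obj x i' j' r' → InSq i' j' r' p q → r' ≤ r

lemma max_obj {x p q} (hf : FD x p q) (h : InObj x p q) : ∃ i j r, MaxObj x p q i j r := by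
  obtain ⟨i, j, r, h1, h2⟩ := h
  obtain ⟨t, ht, hmax⟩ := Set.exists_max_image _ (fun t : ℤ × ℤ × ℤ => t.2.2) hf
    ⟨(i, j, r), h1, h2⟩
  exact ⟨t.1, t.2.1, t.2.2, ht.1, ht.2, fun i' j' r' a b => hmax (i', j', r') ⟨a, b⟩⟩

lemma ring_om {x p q i j r} (h : MaxObj x p q i j r) {a b : ℤ} (h1 : i - 1 ≤ a)
    (h2 : a ≤ i + r + 1) (h3 : j - 1 ≤ b) (h4 : b ≤ j + r + 1) (hn : ¬ InSq i j r a b)
    (hc : ∃ c, x a b = w c) : ¬ InObj x a b := by
  rintro ⟨i', j', r', ho, hs⟩
  obtain ⟨hO, hS, hM⟩ := h
  obtain ⟨c, hc⟩ := hc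
  have hp := hO.pos
  have hp' := ho.pos
  by_cases hint : ∃ p q, InSq i j r p q ∧ InSq i' j' r' p q
  · obtain ⟨p', q', h5, h6⟩ := hint
    have hne : ¬ (i = i' ∧ j = j' ∧ r = r') := by
      rintro ⟨rfl, rfl, rfl⟩; exact hn hs
    rcases nest hO ho hne h5 h6 with h7 | h7
    · apply hn
      unfold Ins at h7
      unfold InSq at hs ⊢
      omega
    · have : InSq i' j' r' p q := by
        unfold Ins at h7
        unfold InSq at hS ⊢
        omega
      have := hM _ _ _ ho this
      unfold Ins at h7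
      omega
  · apply obj_not_w ho (hw := ?_) c hc
    refine ⟨hs, ?_⟩
    by_contra hcon
    apply hint
    refine ⟨max i (min a (i+r)), max j (min b (j+r)), ⟨by omega, by omega, by omega, by omega⟩, ?_⟩
    unfold InSq at hs ⊢
    omega

/-- The phase is constant on the part of a row outside all squares. -/
lemma row_phase {x : ℤ → ℤ → St} (hV : Valid x) (hL : LF x) (hf : ∀ p q, FD x p q) {b : Bool}
    {q : ℤ} : ∀ n : ℕ, ∀ p p' : ℤ, p ≤ p' → p' - p ≤ n → ¬ InObj x p q → ¬ InObj x p' q →
    Ph x b p q → Ph x b p' q := by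
  intro n
  induction n using Nat.strong_induction_on with
  | _ n ih =>
    intro p p' hpp hn ho ho' hb
    rcases lt_or_eq_of_le hpp with hlt | rfl
    · by_cases hin : InObj x (p+1) q
      · obtain ⟨i, j, r, hm⟩ := max_obj (hf _ _) hin
        have hpos := hm.1.pos
        have hs := hm.2.1
        unfold InSq at hs
        have hi : i = p + 1 := by
          by_contra hc
          apply ho
          exact ⟨i, j, r, hm.1, by omega, by omega, by omega, by omega⟩
        have hbb : Ph x b (i+r+1) q := walk hV hm.1 (by omega) (by omega)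
          (by rwa [show i - 1 = p by omega])
        have hle : i + r + 1 ≤ p' := by
          by_contra hc
          apply ho'
          exact ⟨i, j, r, hm.1, by omega, by omega, by omega, by omega⟩
        have hom : ¬ InObj x (i+r+1) q := ring_om hm (by omega) (by omega) (by omega) (by omega)
          (by unfold InSq; omega) (ring_right hV hm.1 (by omega) (by omega))
        exact ih (p' - (i+r+1)).toNat (by omega) (i+r+1) p' hle (by omega) hom ho' hbb
      · have hw : ∃ c, x (p+1) q = w c := by
          by_contra hc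
          push Not at hc
          obtain ⟨i, j, r, h1, h2⟩ := wall_in_obj hL hc
          exact hin ⟨i, j, r, h1, h2.1⟩
        exact ih (p' - (p+1)).toNat (by omega) (p+1) p' (by omega) (by omega) hin ho'
          (Ph_right hV hb hw)
    · exact hb

lemma row_nonempty {x : ℤ → ℤ → St} (hV : Valid x) (hL : LF x) (hf : ∀ p q, FD x p q) :
    ∃ p b, ¬ InObj x p 0 ∧ Ph x b p 0 := by
  by_cases hin : InObj x 0 0
  · obtain ⟨i, j, r, hm⟩ := max_obj (hf _ _) hin
    have hpos := hm.1.pos
    have hs := hm.2.1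
    unfold InSq at hs
    obtain ⟨c, hc⟩ := ring_left hV hm.1 (q := 0) (by omega) (by omega)
    refine ⟨i-1, _, ?_, Ph_of_w hc⟩
    exact ring_om hm (by omega) (by omega) (by omega) (by omega)
          (by unfold InSq; omega) ⟨c, hc⟩
  · have hw : ∃ c, x 0 0 = w c := by
      by_contra hc
      push Not at hc
      obtain ⟨i, j, r, h1, h2⟩ := wall_in_obj hL hc
      exact hin ⟨i, j, r, h1, h2.1⟩
    obtain ⟨c, hc⟩ := hw
    exact ⟨0, _, hin, Ph_of_w hc⟩

end MP6540
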